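import Mathlib
import Pool.Agent.R306.GP.VdC

/-!
Oscillatory integrals `∫ G(y) e(B₁ exp(A₁ y) + B₂ exp(A₂ y)) dy` with a slowly varying amplitude.
-/

set_option autoImplicit false

open MeasureTheory Filter Topology Set Real
open Pool.Agent.H469R2.NK (e norm_e e_add conj_e e_zero)
open Pool.Agent.R306.GP

namespace Pool.Agent.D0H48.Cl

/-- the phase -/
noncomputable def ff (A1 A2 B1 B2 y : ℝ) : ℝ := B1 * exp (A1 * y) + B2 * exp (A2 * y)

/-- its derivative, without the factor `exp (A₁ y)` -/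
noncomputable def gg (A1 A2 B1 B2 y : ℝ) : ℝ := A1 * B1 + A2 * B2 * exp ((A2 - A1) * y)

/-- derivative of `gg` -/
noncomputable def gd (A1 A2 B2 y : ℝ) : ℝ := A2 * B2 * (A2 - A1) * exp ((A2 - A1) * y)

variable {A0 A1 A2 B1 B2 c d u v K0 K1 Λ : ℝ} {G G' : ℝ → ℂ}

lemma hasDeriv_exp (A y : ℝ) : HasDerivAt (fun y => exp (A * y)) (A * exp (A * y)) y := by
  have h := ((hasDerivAt_id y).const_mul A).exp
  simp only [id, mul_one] at h
  exact h.congr_deriv (by ring)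

lemma ff_deriv (A1 A2 B1 B2 y : ℝ) : HasDerivAt (ff A1 A2 B1 B2) (exp (A1 * y) * gg A1 A2 B1 B2 y) y := by
  have h : HasDerivAt (ff A1 A2 B1 B2) (B1 * (A1 * exp (A1 * y)) + B2 * (A2 * exp (A2 * y))) y :=
    ((hasDeriv_exp A1 y).const_mul B1).add ((hasDeriv_exp A2 y).const_mul B2)
  have e1 : exp (A2 * y) = exp (A1 * y) * exp ((A2 - A1) * y) := by rw [← Real.exp_add]; congr 1; ring
  refine h.congr_deriv ?_
  unfold gg
  rw [e1]
  ring

lemma gg_deriv (A1 A2 B1 B2 y : ℝ) : HasDerivAt (gg A1 A2 B1 B2) (gd A1 A2 B2 y) y := by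
  have h : HasDerivAt (gg A1 A2 B1 B2) (A2 * B2 * ((A2 - A1) * exp ((A2 - A1) * y))) y :=
    ((hasDeriv_exp (A2 - A1) y).const_mul (A2 * B2)).const_add (A1 * B1)
  refine h.congr_deriv ?_
  unfold gd
  ring

/-- a segment where the derivative is large -/
lemma seg (huv : u ≤ v) (hcu : c ≤ u) (hA01 : A0 ≤ A1) (hA1 : 0 ≤ A1) (hA12 : A1 ≤ A2) (hΛ : 0 < Λ)
    (hg : ∀ y ∈ Icc u v, Λ * exp (-(A1 * c)) ≤ |gg A1 A2 B1 B2 y|)
    (hG : ∀ y ∈ Icc u v, HasDerivAt G (G' y) y) (hG'c : ContinuousOn G' (Icc u v))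
    (hK0 : ∀ y ∈ Icc u v, ‖G y‖ ≤ K0) (hK10 : 0 ≤ K1) (hK1 : ∀ y ∈ Icc u v, ‖G' y‖ ≤ K1 * exp (A0 * (y - c))) :
    ‖∫ y in u..v, G y * e (ff A1 A2 B1 B2 y)‖ ≤ (5 * K0 + (v - u) * K1) / Λ := by
  have hpi : (0:ℝ) < π := Real.pi_pos
  have hpi3 : (3:ℝ) < π := Real.pi_gt_three
  have huIcc : uIcc u v = Icc u v := uIcc_of_le huv
  have hK00 : 0 ≤ K0 := (norm_nonneg _).trans (hK0 u ⟨le_rfl, huv⟩)
  set f' : ℝ → ℝ := fun y => exp (A1 * y) * gg A1 A2 B1 B2 y with hf'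
  set f'' : ℝ → ℝ := fun y => A1 * exp (A1 * y) * gg A1 A2 B1 B2 y + exp (A1 * y) * gd A1 A2 B2 y with hf''
  have hexpc : ∀ y ∈ Icc u v, Λ * exp (A1 * (y - c)) ≤ |f' y| := by
    intro y hy
    rw [hf']
    simp only
    rw [abs_mul, abs_of_pos (Real.exp_pos _)]
    calc Λ * exp (A1 * (y - c)) = exp (A1 * y) * (Λ * exp (-(A1 * c))) := by
          rw [show A1 * (y - c) = A1 * y + -(A1 * c) by ring, Real.exp_add]; ring
      _ ≤ _ := mul_le_mul_of_nonneg_left (hg y hy) (Real.exp_pos _).le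
  have hone : ∀ y ∈ Icc u v, 1 ≤ exp (A1 * (y - c)) := by
    intro y hy
    apply Real.one_le_exp
    exact mul_nonneg hA1 (by linarith [hy.1])
  have hlow : ∀ y ∈ Icc u v, Λ ≤ |f' y| := by
    intro y hy
    refine le_trans ?_ (hexpc y hy)
    have := hone y hy
    nlinarith
  have hne : ∀ y ∈ Icc u v, f' y ≠ 0 := by
    intro y hy h0
    have := hlow y hy
    rw [h0, abs_zero] at this
    linarith
  have hgne : ∀ y ∈ Icc u v, gg A1 A2 B1 B2 y ≠ 0 := by
    intro y hy h0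
    have := hg y hy
    rw [h0, abs_zero] at this
    have : 0 < Λ * exp (-(A1 * c)) := by positivity
    linarith
  have h1 : ∀ y, HasDerivAt (ff A1 A2 B1 B2) (f' y) y := fun y => ff_deriv _ _ _ _ y
  have h2 : ∀ y, HasDerivAt f' (f'' y) y := by
    intro y
    have := (hasDeriv_exp A1 y).mul (gg_deriv A1 A2 B1 B2 y)
    exact this
  have hggc : Continuous (gg A1 A2 B1 B2) := by unfold gg; fun_prop
  have hgdc : Continuous (gd A1 A2 B2) := by unfold gd; fun_prop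
  have hf'c : Continuous f' := by rw [hf']; fun_prop
  have hf''c : Continuous f'' := by rw [hf'']; fun_prop
  have hffc : Continuous (ff A1 A2 B1 B2) := by unfold ff; fun_prop
  have hGc : ContinuousOn G (Icc u v) := fun y hy => (hG y hy).continuousAt.continuousWithinAt
  set U : ℝ → ℂ := fun y => (((2 * π : ℝ) : ℂ)⁻¹ * (-Complex.I)) * (G y * ((((f' y)⁻¹ : ℝ)) : ℂ)) with hU
  set U' : ℝ → ℂ := fun y => (((2 * π : ℝ) : ℂ)⁻¹ * (-Complex.I)) *
    (G' y * ((((f' y)⁻¹ : ℝ)) : ℂ) + G y * (((-f'' y / (f' y) ^ 2 : ℝ)) : ℂ)) with hU'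
  set V : ℝ → ℂ := fun y => e (ff A1 A2 B1 B2 y) with hV
  set V' : ℝ → ℂ := fun y => e (ff A1 A2 B1 B2 y) * (((2 * π * f' y : ℝ) : ℂ) * Complex.I) with hV'
  have hUd : ∀ y ∈ uIcc u v, HasDerivAt U (U' y) y := by
    intro y hy
    rw [huIcc] at hy
    exact ((hG y hy).mul (((h2 y).inv (hne y hy)).ofReal_comp)).const_mul _
  have hVd : ∀ y ∈ uIcc u v, HasDerivAt V (V' y) y := fun y _ => e_hasDerivAt (h1 y)
  have hinvc : ContinuousOn (fun y => ((((f' y)⁻¹ : ℝ)) : ℂ)) (Icc u v) :=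
    Complex.continuous_ofReal.comp_continuousOn (hf'c.continuousOn.inv₀ hne)
  have hU'c : ContinuousOn U' (Icc u v) := by
    refine ContinuousOn.mul continuousOn_const ((hG'c.mul hinvc).add (hGc.mul ?_))
    refine Complex.continuous_ofReal.comp_continuousOn ?_
    exact (hf''c.neg.continuousOn).div (hf'c.pow 2).continuousOn (fun y hy => pow_ne_zero _ (hne y hy))
  have hV'c : ContinuousOn V' (Icc u v) := by
    refine ContinuousOn.mul (e_cont hffc.continuousOn) (ContinuousOn.mul ?_ continuousOn_const)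
    exact (Complex.continuous_ofReal.comp (continuous_const.mul hf'c)).continuousOn
  have hU'i : IntervalIntegrable U' volume u v := (huIcc ▸ hU'c).intervalIntegrable
  have hV'i : IntervalIntegrable V' volume u v := (huIcc ▸ hV'c).intervalIntegrable
  have hparts := intervalIntegral.integral_mul_deriv_eq_deriv_mul hUd hVd hU'i hV'i
  have hint : ∫ y in u..v, G y * e (ff A1 A2 B1 B2 y) = ∫ y in u..v, U y * V' y := by
    apply intervalIntegral.integral_congr
    intro y hy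
    rw [huIcc] at hy
    simp only [hU, hV']
    have h0 : ((f' y : ℝ) : ℂ) ≠ 0 := by exact_mod_cast hne y hy
    have hp : (π : ℂ) ≠ 0 := by exact_mod_cast hpi.ne'
    push_cast
    field_simp
    rw [Complex.I_sq]
    ring
  have hconst : ‖(((2 * π : ℝ) : ℂ)⁻¹ * (-Complex.I))‖ ≤ 1 := by
    rw [norm_mul, norm_neg, Complex.norm_I, mul_one, norm_inv, Complex.norm_real, Real.norm_eq_abs,
      abs_of_pos (by positivity : 0 < 2 * π)]
    exact inv_le_one_of_one_le₀ (by linarith)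
  have hnu : ∀ y ∈ Icc u v, ‖U y‖ ≤ K0 / Λ := by
    intro y hy
    simp only [hU]
    rw [norm_mul, norm_mul (G y), Complex.norm_real, Real.norm_eq_abs, abs_inv]
    have h5 := hlow y hy
    have h6 : |f' y|⁻¹ ≤ Λ⁻¹ := inv_anti₀ hΛ h5
    calc ‖(((2 * π : ℝ) : ℂ)⁻¹ * (-Complex.I))‖ * (‖G y‖ * |f' y|⁻¹) ≤ 1 * (K0 * Λ⁻¹) := by
          apply mul_le_mul hconst _ (by positivity) zero_le_one
          exact mul_le_mul (hK0 y hy) h6 (by positivity) hK00
      _ = _ := by rw [one_mul]; rfl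
  obtain ⟨σ, hσ1, hσ⟩ : ∃ σ : ℝ, |σ| = 1 ∧ ∀ y, |gd A1 A2 B2 y| = σ * gd A1 A2 B2 y := by
    rcases le_total 0 B2 with hB | hB
    · refine ⟨1, by norm_num, fun y => ?_⟩
      rw [one_mul]
      apply abs_of_nonneg
      unfold gd
      have : 0 ≤ A2 := hA1.trans hA12
      have : 0 ≤ A2 - A1 := by linarith
      positivity
    · refine ⟨-1, by norm_num, fun y => ?_⟩
      rw [abs_of_nonpos]
      · ring
      unfold gd
      have h3 : 0 ≤ A2 := hA1.trans hA12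
      have h4 : 0 ≤ A2 - A1 := by linarith
      have h5 : 0 ≤ A2 * (-B2) * (A2 - A1) * exp ((A2 - A1) * y) := by
        have : 0 ≤ -B2 := by linarith
        positivity
      linarith
  set H : ℝ → ℝ := fun y => K1 / Λ * y - K0 / Λ * exp (-A1 * (y - c)) + K0 * exp (-(A1 * c)) * (-σ * (gg A1 A2 B1 B2 y)⁻¹) with hH
  set hh : ℝ → ℝ := fun y => K1 / Λ + K0 / Λ * (A1 * exp (-A1 * (y - c))) +
    K0 * exp (-(A1 * c)) * (|gd A1 A2 B2 y| / (gg A1 A2 B1 B2 y) ^ 2) with hhh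
  have hHd : ∀ y ∈ uIcc u v, HasDerivAt H (hh y) y := by
    intro y hy
    rw [huIcc] at hy
    have k1 : HasDerivAt (fun y => K1 / Λ * y) (K1 / Λ) y := by simpa using (hasDerivAt_id y).const_mul (K1 / Λ)
    have k2 : HasDerivAt (fun y => exp (-A1 * (y - c))) (-A1 * exp (-A1 * (y - c))) y := by
      have := (((hasDerivAt_id y).sub_const c).const_mul (-A1)).exp
      simp only [id, mul_one] at this
      exact this.congr_deriv (by ring)
    have k3 : HasDerivAt (fun y => (gg A1 A2 B1 B2 y)⁻¹) (-gd A1 A2 B2 y / (gg A1 A2 B1 B2 y) ^ 2) y :=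
      (gg_deriv A1 A2 B1 B2 y).inv (hgne y hy)
    have k4 : HasDerivAt H (K1 / Λ - K0 / Λ * (-A1 * exp (-A1 * (y - c))) +
        K0 * exp (-(A1 * c)) * (-σ * (-gd A1 A2 B2 y / (gg A1 A2 B1 B2 y) ^ 2))) y :=
      (k1.sub (k2.const_mul (K0 / Λ))).add ((k3.const_mul (-σ)).const_mul (K0 * exp (-(A1 * c))))
    refine k4.congr_deriv ?_
    rw [hhh]
    simp only
    rw [hσ y]
    ring
  have hhhc : ContinuousOn hh (Icc u v) := by
    refine (Continuous.continuousOn (by fun_prop)).add (ContinuousOn.mul continuousOn_const ?_)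
    exact (hgdc.abs.continuousOn).div (hggc.pow 2).continuousOn (fun y hy => pow_ne_zero _ (hgne y hy))
  have hhhi : IntervalIntegrable hh volume u v := (huIcc ▸ hhhc).intervalIntegrable
  have hHint : ∫ y in u..v, hh y = H v - H u := intervalIntegral.integral_eq_sub_of_hasDerivAt hHd hhhi
  have hbd : ∀ y ∈ Icc u v, ‖U' y * V y‖ ≤ hh y := by
    intro y hy
    simp only [hU', hV]
    rw [norm_mul, norm_e, mul_one, norm_mul]
    have hpos : 0 < |f' y| := lt_of_lt_of_le hΛ (hlow y hy)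
    have hexy : 0 < exp (A1 * (y - c)) := Real.exp_pos _
    have b1 : ‖G' y * ((((f' y)⁻¹ : ℝ)) : ℂ)‖ ≤ K1 / Λ := by
      rw [norm_mul, Complex.norm_real, Real.norm_eq_abs, abs_inv, ← div_eq_mul_inv, div_le_div_iff₀ hpos hΛ]
      have g1 := hK1 y hy
      have g2 : exp (A0 * (y - c)) ≤ exp (A1 * (y - c)) :=
        Real.exp_le_exp.mpr (mul_le_mul_of_nonneg_right hA01 (by linarith [hy.1]))
      calc ‖G' y‖ * Λ ≤ (K1 * exp (A1 * (y - c))) * Λ := by
            apply mul_le_mul_of_nonneg_right _ hΛ.le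
            exact g1.trans (mul_le_mul_of_nonneg_left g2 hK10)
        _ = K1 * (Λ * exp (A1 * (y - c))) := by ring
        _ ≤ K1 * |f' y| := mul_le_mul_of_nonneg_left (hexpc y hy) hK10
    have b2 : ‖G y * (((-f'' y / (f' y) ^ 2 : ℝ)) : ℂ)‖ ≤ K0 / Λ * (A1 * exp (-A1 * (y - c))) +
        K0 * exp (-(A1 * c)) * (|gd A1 A2 B2 y| / (gg A1 A2 B1 B2 y) ^ 2) := by
      rw [norm_mul, Complex.norm_real, Real.norm_eq_abs, abs_div, abs_neg, abs_pow, sq_abs]
      have g1 : |f'' y| / (f' y) ^ 2 ≤ A1 / |f' y| + exp (-(A1 * y)) * (|gd A1 A2 B2 y| / (gg A1 A2 B1 B2 y) ^ 2) := by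
        have g2 : |f'' y| ≤ A1 * |f' y| + exp (A1 * y) * |gd A1 A2 B2 y| := by
          have : f'' y = A1 * f' y + exp (A1 * y) * gd A1 A2 B2 y := by rw [hf'', hf']; ring
          rw [this]
          refine (abs_add_le _ _).trans (le_of_eq ?_)
          have q1 : |A1 * f' y| = A1 * |f' y| := by rw [abs_mul A1 (f' y), abs_of_nonneg hA1]
          have q2 : |exp (A1 * y) * gd A1 A2 B2 y| = exp (A1 * y) * |gd A1 A2 B2 y| := by
            rw [abs_mul (exp (A1 * y)) (gd A1 A2 B2 y), abs_of_pos (Real.exp_pos _)]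
          rw [q1, q2]
        have hsq : 0 < (f' y) ^ 2 := by rw [← sq_abs]; positivity
        have hgs : 0 < (gg A1 A2 B1 B2 y) ^ 2 := by
          have := hgne y hy
          positivity
        rw [div_le_iff₀ hsq]
        refine g2.trans (le_of_eq ?_)
        rw [add_mul]
        congr 1
        · have q3 : |f' y| ≠ 0 := hpos.ne'
          have q4 : (f' y) ^ 2 = |f' y| * |f' y| := by rw [← sq_abs (f' y), sq]
          rw [q4, div_mul_eq_mul_div, mul_comm |f' y| |f' y|, ← mul_assoc, mul_div_assoc, div_self q3, mul_one]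
        · have : (f' y) ^ 2 = exp (A1 * y) * exp (A1 * y) * (gg A1 A2 B1 B2 y) ^ 2 := by rw [hf']; ring
          have hgn := hgne y hy
          rw [this, Real.exp_neg]
          field_simp
      have g3 : A1 / |f' y| ≤ (1 / Λ) * (A1 * exp (-A1 * (y - c))) := by
        rw [div_le_iff₀ hpos]
        have g4 := hexpc y hy
        have g5 : exp (-A1 * (y - c)) * exp (A1 * (y - c)) = 1 := by
          rw [← Real.exp_add]; norm_num
        calc A1 = (1 / Λ) * (A1 * exp (-A1 * (y - c))) * (Λ * exp (A1 * (y - c))) := by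
              calc A1 = A1 * (exp (-A1 * (y - c)) * exp (A1 * (y - c))) := by rw [g5, mul_one]
                _ = _ := by field_simp
          _ ≤ _ := mul_le_mul_of_nonneg_left g4 (by positivity)
      have g6 : exp (-(A1 * y)) ≤ exp (-(A1 * c)) := by
        apply Real.exp_le_exp.mpr
        have : A1 * c ≤ A1 * y := mul_le_mul_of_nonneg_left (by linarith [hy.1]) hA1
        linarith
      have g7 : 0 ≤ |gd A1 A2 B2 y| / (gg A1 A2 B1 B2 y) ^ 2 := by positivity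
      calc ‖G y‖ * (|f'' y| / (f' y) ^ 2) ≤ K0 * ((1 / Λ) * (A1 * exp (-A1 * (y - c))) +
            exp (-(A1 * c)) * (|gd A1 A2 B2 y| / (gg A1 A2 B1 B2 y) ^ 2)) := by
            apply mul_le_mul (hK0 y hy) _ (by positivity) hK00
            refine g1.trans (add_le_add g3 (mul_le_mul_of_nonneg_right g6 g7))
        _ = _ := by ring
    calc ‖(((2 * π : ℝ) : ℂ)⁻¹ * (-Complex.I))‖ * ‖G' y * ((((f' y)⁻¹ : ℝ)) : ℂ) + G y * (((-f'' y / (f' y) ^ 2 : ℝ)) : ℂ)‖
        ≤ 1 * (K1 / Λ + (K0 / Λ * (A1 * exp (-A1 * (y - c))) +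
          K0 * exp (-(A1 * c)) * (|gd A1 A2 B2 y| / (gg A1 A2 B1 B2 y) ^ 2))) := by
          apply mul_le_mul hconst _ (norm_nonneg _) zero_le_one
          exact (norm_add_le _ _).trans (add_le_add b1 b2)
      _ = hh y := by rw [hhh]; ring
  have hb : ‖∫ y in u..v, U' y * V y‖ ≤ ∫ y in u..v, hh y := by
    apply intervalIntegral.norm_integral_le_of_norm_le huv _ hhhi
    refine Eventually.of_forall fun y hy => hbd y ⟨hy.1.le, hy.2⟩
  have hgi : ∀ y ∈ Icc u v, |K0 * exp (-(A1 * c)) * (-σ * (gg A1 A2 B1 B2 y)⁻¹)| ≤ K0 / Λ := by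
    intro y hy
    rw [abs_mul, abs_mul, abs_mul, abs_neg, hσ1, one_mul, abs_of_nonneg hK00, abs_of_pos (Real.exp_pos _), abs_inv]
    have h5 := hg y hy
    have h6 : 0 < Λ * exp (-(A1 * c)) := by positivity
    calc K0 * exp (-(A1 * c)) * |gg A1 A2 B1 B2 y|⁻¹ ≤ K0 * exp (-(A1 * c)) * (Λ * exp (-(A1 * c)))⁻¹ := by
          apply mul_le_mul_of_nonneg_left (inv_anti₀ h6 h5) (by positivity)
      _ = K0 / Λ := by
          have := Real.exp_pos (-(A1 * c))
          field_simp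
  have hHb : H v - H u ≤ (3 * K0 + (v - u) * K1) / Λ := by
    have k1 := (abs_le.mp (hgi v ⟨huv, le_rfl⟩)).2
    have k2 := (abs_le.mp (hgi u ⟨le_rfl, huv⟩)).1
    have k3 : 0 ≤ K0 / Λ * exp (-A1 * (v - c)) := by positivity
    have k4 : K0 / Λ * exp (-A1 * (u - c)) ≤ K0 / Λ := by
      have : exp (-A1 * (u - c)) ≤ 1 := by
        rw [Real.exp_le_one_iff]
        have : 0 ≤ A1 * (u - c) := mul_nonneg hA1 (by linarith)
        linarith
      have h0 : 0 ≤ K0 / Λ := by positivity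
      nlinarith
    rw [hH]
    simp only
    have k5 : (3 * K0 + (v - u) * K1) / Λ = 3 * (K0 / Λ) + (K1 / Λ * v - K1 / Λ * u) := by
      field_simp
    rw [k5]
    linarith
  rw [hint, hparts]
  have e1 : ‖U v * V v‖ ≤ K0 / Λ := by
    rw [norm_mul, norm_e, mul_one]; exact hnu v ⟨huv, le_rfl⟩
  have e2 : ‖U u * V u‖ ≤ K0 / Λ := by
    rw [norm_mul, norm_e, mul_one]; exact hnu u ⟨le_rfl, huv⟩
  calc ‖U v * V v - U u * V u - ∫ y in u..v, U' y * V y‖
      ≤ ‖U v * V v - U u * V u‖ + ‖∫ y in u..v, U' y * V y‖ := norm_sub_le _ _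
    _ ≤ (‖U v * V v‖ + ‖U u * V u‖) + (3 * K0 + (v - u) * K1) / Λ :=
        add_le_add (norm_sub_le _ _) (hb.trans (by rw [hHint]; exact hHb))
    _ ≤ (K0 / Λ + K0 / Λ) + (3 * K0 + (v - u) * K1) / Λ := by linarith
    _ = _ := by field_simp; ring

/-- the oscillatory integral with two exponentials and an amplitude -/
theorem core {δ ρ : ℝ} (hcd : c ≤ d) (hδ : 0 < δ) (hρ : 0 < ρ) (hA01 : A0 ≤ A1) (hA1 : 0 ≤ A1) (hA12 : A1 + δ ≤ A2)
    (hB2 : B2 ≠ 0) (hG : ∀ y ∈ Icc c d, HasDerivAt G (G' y) y) (hG'c : ContinuousOn G' (Icc c d))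
    (hK0 : ∀ y ∈ Icc c d, ‖G y‖ ≤ K0) (hK10 : 0 ≤ K1) (hK1 : ∀ y ∈ Icc c d, ‖G' y‖ ≤ K1 * exp (A0 * (y - c))) :
    ‖∫ y in c..d, G y * e (ff A1 A2 B1 B2 y)‖ ≤
      4 * ρ * K0 + 2 * (5 * K0 + (d - c) * K1) / (|B2| * A2 * δ * exp (A2 * c) * ρ) := by
  have hA2 : 0 < A2 := by linarith
  have hB2' : 0 < |B2| := abs_pos.mpr hB2
  have hK00 : 0 ≤ K0 := (norm_nonneg _).trans (hK0 c ⟨le_rfl, hcd⟩)
  set m : ℝ := |B2| * A2 * δ * exp ((A2 - A1) * c) with hm
  have hm0 : 0 < m := by positivity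
  -- the derivative of `gg` is at least `m`
  have hmono : ∀ y z : ℝ, y ∈ Icc c d → z ∈ Icc c d → m * |y - z| ≤ |gg A1 A2 B1 B2 y - gg A1 A2 B1 B2 z| := by
    have key : ∀ y z : ℝ, c ≤ y → y ≤ z → m * (z - y) ≤ |gg A1 A2 B1 B2 z - gg A1 A2 B1 B2 y| := by
      intro y z hy hyz
      have h1 : gg A1 A2 B1 B2 z - gg A1 A2 B1 B2 y = A2 * B2 * (exp ((A2 - A1) * z) - exp ((A2 - A1) * y)) := by
        unfold gg; ring
      rw [h1, abs_mul, abs_mul, abs_of_pos hA2]
      have h2 : (A2 - A1) * (z - y) * exp ((A2 - A1) * y) ≤ exp ((A2 - A1) * z) - exp ((A2 - A1) * y) := by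
        have h3 := Real.add_one_le_exp ((A2 - A1) * (z - y))
        have h4 : exp ((A2 - A1) * z) = exp ((A2 - A1) * (z - y)) * exp ((A2 - A1) * y) := by
          rw [← Real.exp_add]; congr 1; ring
        rw [h4]
        have h5 := Real.exp_pos ((A2 - A1) * y)
        nlinarith
      have h6 : exp ((A2 - A1) * c) ≤ exp ((A2 - A1) * y) :=
        Real.exp_le_exp.mpr (mul_le_mul_of_nonneg_left hy (by linarith))
      have h7 : δ * (z - y) * exp ((A2 - A1) * c) ≤ (A2 - A1) * (z - y) * exp ((A2 - A1) * y) := by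
        apply mul_le_mul _ h6 (Real.exp_pos _).le (mul_nonneg (by linarith) (by linarith))
        exact mul_le_mul_of_nonneg_right (by linarith) (by linarith)
      have h8 : 0 ≤ δ * (z - y) * exp ((A2 - A1) * c) := mul_nonneg (mul_nonneg hδ.le (by linarith)) (Real.exp_pos _).le
      rw [abs_of_nonneg (h8.trans (h7.trans h2))]
      calc m * (z - y) = A2 * |B2| * (δ * (z - y) * exp ((A2 - A1) * c)) := by rw [hm]; ring
        _ ≤ _ := mul_le_mul_of_nonneg_left (h7.trans h2) (by positivity)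
    intro y z hy hz
    rcases le_total y z with h | h
    · rw [abs_sub_comm y z, abs_sub_comm (gg A1 A2 B1 B2 y), abs_of_nonneg (by linarith : 0 ≤ z - y)]
      exact key y z hy.1 h
    · rw [abs_of_nonneg (by linarith : 0 ≤ y - z)]
      exact key z y hz.1 h
  -- the bad point
  obtain ⟨y0, hy0, hfar⟩ : ∃ y0 ∈ Icc c d, ∀ y ∈ Icc c d, 2 * ρ ≤ |y - y0| → m * ρ ≤ |gg A1 A2 B1 B2 y| := by
    by_cases hex : ∃ y0 ∈ Icc c d, |gg A1 A2 B1 B2 y0| < m * ρ
    · obtain ⟨y0, hy0, h0⟩ := hex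
      refine ⟨y0, hy0, fun y hy hy2 => ?_⟩
      have h1 := hmono y y0 hy hy0
      have h2 : m * (2 * ρ) ≤ m * |y - y0| := mul_le_mul_of_nonneg_left hy2 hm0.le
      have h3 := abs_sub (gg A1 A2 B1 B2 y) (gg A1 A2 B1 B2 y0)
      nlinarith
    · push Not at hex
      exact ⟨c, ⟨le_rfl, hcd⟩, fun y hy _ => hex y hy⟩
  set Λ : ℝ := |B2| * A2 * δ * exp (A2 * c) * ρ with hΛ
  have hΛ0 : 0 < Λ := by positivity
  have hΛm : Λ * exp (-(A1 * c)) = m * ρ := by
    rw [hΛ, hm, show (A2 - A1) * c = A2 * c + -(A1 * c) by ring, Real.exp_add]; ring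
  set u1 : ℝ := max c (y0 - 2 * ρ) with hu1
  set v1 : ℝ := min d (y0 + 2 * ρ) with hv1
  have hcu1 : c ≤ u1 := le_max_left _ _
  have hu1y : u1 ≤ y0 := max_le hy0.1 (by linarith)
  have hyv1 : y0 ≤ v1 := le_min hy0.2 (by linarith)
  have hv1d : v1 ≤ d := min_le_left _ _
  have hFc : ContinuousOn (fun y => G y * e (ff A1 A2 B1 B2 y)) (Icc c d) := by
    have hGc : ContinuousOn G (Icc c d) := fun y hy => (hG y hy).continuousAt.continuousWithinAt
    refine hGc.mul (e_cont (Continuous.continuousOn ?_))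
    unfold ff; fun_prop
  have hii : ∀ s t : ℝ, s ∈ Icc c d → t ∈ Icc c d → IntervalIntegrable (fun y => G y * e (ff A1 A2 B1 B2 y)) volume s t := by
    intro s t hs ht
    apply ContinuousOn.intervalIntegrable
    exact hFc.mono (uIcc_subset_Icc hs ht)
  have mu1 : u1 ∈ Icc c d := ⟨hcu1, by linarith [hy0.2]⟩
  have mv1 : v1 ∈ Icc c d := ⟨by linarith [hy0.1], hv1d⟩
  have mc : c ∈ Icc c d := ⟨le_rfl, hcd⟩
  have md : d ∈ Icc c d := ⟨hcd, le_rfl⟩
  have hsplit : ∫ y in c..d, G y * e (ff A1 A2 B1 B2 y) = (∫ y in c..u1, G y * e (ff A1 A2 B1 B2 y)) +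
      (∫ y in u1..v1, G y * e (ff A1 A2 B1 B2 y)) + ∫ y in v1..d, G y * e (ff A1 A2 B1 B2 y) := by
    rw [intervalIntegral.integral_add_adjacent_intervals (hii _ _ mc mu1) (hii _ _ mu1 mv1),
      intervalIntegral.integral_add_adjacent_intervals (hii _ _ mc mv1) (hii _ _ mv1 md)]
  have bound : ∀ s t : ℝ, c ≤ s → s ≤ t → t ≤ d → (∀ y ∈ Icc s t, 2 * ρ ≤ |y - y0|) →
      ‖∫ y in s..t, G y * e (ff A1 A2 B1 B2 y)‖ ≤ (5 * K0 + (d - c) * K1) / Λ := by
    intro s t hs hst ht hfar'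
    have hsub : Icc s t ⊆ Icc c d := Icc_subset_Icc hs ht
    have h1 := seg (A0 := A0) (A1 := A1) (A2 := A2) (B1 := B1) (B2 := B2) (c := c) (K0 := K0) (K1 := K1) (Λ := Λ)
      hst hs hA01 hA1 (by linarith) hΛ0
      (fun y hy => by rw [hΛm]; exact hfar y (hsub hy) (hfar' y hy)) (fun y hy => hG y (hsub hy)) (hG'c.mono hsub)
      (fun y hy => hK0 y (hsub hy)) hK10 (fun y hy => hK1 y (hsub hy))
    refine h1.trans ?_
    apply div_le_div_of_nonneg_right _ hΛ0.le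
    have : (t - s) * K1 ≤ (d - c) * K1 := mul_le_mul_of_nonneg_right (by linarith) hK10
    linarith
  have hfrac0 : 0 ≤ (5 * K0 + (d - c) * K1) / Λ := by
    have : 0 ≤ d - c := by linarith
    positivity
  have h1 : ‖∫ y in c..u1, G y * e (ff A1 A2 B1 B2 y)‖ ≤ (5 * K0 + (d - c) * K1) / Λ := by
    rcases le_total c (y0 - 2 * ρ) with h | h
    · apply bound c u1 le_rfl hcu1 mu1.2
      intro y hy
      rw [hu1, max_eq_right h] at hy
      rw [abs_sub_comm, abs_of_nonneg (by linarith [hy.2])]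
      linarith [hy.2]
    · rw [hu1, max_eq_left h, intervalIntegral.integral_same, norm_zero]
      exact hfrac0
  have h3 : ‖∫ y in v1..d, G y * e (ff A1 A2 B1 B2 y)‖ ≤ (5 * K0 + (d - c) * K1) / Λ := by
    rcases le_total d (y0 + 2 * ρ) with h | h
    · rw [hv1, min_eq_left h, intervalIntegral.integral_same, norm_zero]
      exact hfrac0
    · apply bound v1 d mv1.1 hv1d le_rfl
      intro y hy
      rw [hv1, min_eq_right h] at hy
      rw [abs_of_nonneg (by linarith [hy.1])]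
      linarith [hy.1]
  have h2 : ‖∫ y in u1..v1, G y * e (ff A1 A2 B1 B2 y)‖ ≤ 4 * ρ * K0 := by
    have hle : u1 ≤ v1 := hu1y.trans hyv1
    have h4 : ∀ y ∈ Set.uIoc u1 v1, ‖G y * e (ff A1 A2 B1 B2 y)‖ ≤ K0 := by
      intro y hy
      rw [uIoc_of_le hle] at hy
      rw [norm_mul, norm_e, mul_one]
      exact hK0 y ⟨by linarith [hy.1], by linarith [hy.2]⟩
    have h5 := intervalIntegral.norm_integral_le_of_norm_le_const h4
    rw [abs_of_nonneg (by linarith)] at h5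
    refine h5.trans ?_
    have h6 : y0 - 2 * ρ ≤ u1 := le_max_right _ _
    have h7 : v1 ≤ y0 + 2 * ρ := min_le_right _ _
    have h8 : v1 - u1 ≤ 4 * ρ := by linarith
    calc K0 * (v1 - u1) ≤ K0 * (4 * ρ) := mul_le_mul_of_nonneg_left h8 hK00
      _ = _ := by ring
  rw [hsplit]
  refine (norm_add_le _ _).trans ((add_le_add (norm_add_le _ _) le_rfl).trans ?_)
  have e9 : 2 * (5 * K0 + (d - c) * K1) / Λ = 2 * ((5 * K0 + (d - c) * K1) / Λ) := by ring
  rw [e9]
  linarith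

end Pool.Agent.D0H48.Cl
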