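import Mathlib
import Pool.Agent.D0H48.Cl.Vdc
import Pool.Agent.D0H48.Gr.Var

/-!
Integrals of the model polynomials, their products and squares, against a slowly varying amplitude.
-/

set_option autoImplicit false

open MeasureTheory Filter Topology Set Real
open Pool.Agent.H469R2.NK (e norm_e e_add conj_e e_zero)
open Pool.Agent.H383.Gen (U Bd)
open Pool.Agent.Y969.TM
open Pool.Agent.R306.GP

namespace Pool.Agent.D0H48.Cl

/-- amplitudes varying at the scale of the point of index `n0` -/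
structure Amp (a : ℕ → ℝ) (c d : ℝ) (n0 : ℕ) (W K : ℝ) (G : ℝ → ℂ) : Prop where
  K0 : 0 ≤ K
  bd : ∀ y ∈ Icc c d, ‖G y‖ ≤ W
  der : ∃ G' : ℝ → ℂ, (∀ y, HasDerivAt G (G' y) y) ∧ Continuous G' ∧
    ∀ y ∈ Icc c d, ‖G' y‖ ≤ K * exp (a n0 * (y - c))

variable {a b : ℕ → ℝ} {δ c d : ℝ} {n0 : ℕ} {W K : ℝ} {G : ℝ → ℂ} {af : ℕ → ℝ} {φ : ℝ}

lemma Amp.cont (hG : Amp a c d n0 W K G) : Continuous G := by
  obtain ⟨G', h1, _⟩ := hG.der
  exact continuous_iff_continuousAt.mpr fun y => (h1 y).continuousAt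

lemma Amp.W0 (hG : Amp a c d n0 W K G) (hcd : c ≤ d) : 0 ≤ W := (norm_nonneg _).trans (hG.bd c ⟨le_rfl, hcd⟩)

/-- the bound for the oscillatory integrals -/
noncomputable def BB (δ c d W K P ρ ν : ℝ) : ℝ := 4 * ρ * W + 2 * (5 * W + (d - c) * K) * ν / (P * δ * ρ)

lemma Amp.osc (h : Sq a b δ) (hcd : c ≤ d) (hG : Amp a c d n0 W K G) {n n' : ℕ} (h0 : n0 ≤ n) (hn : n < n')
    {ω ω' ν ρ : ℝ} (hω : ω' ≠ 0) (hν : 1 / |ω'| ≤ ν) (hρ : 0 < ρ) :
    ‖∫ y in c..d, G y * e (pt a b n y * ω + pt a b n' y * ω')‖ ≤ BB δ c d W K (a n' * pt a b n' c) ρ ν := by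
  obtain ⟨G', g1, g2, g3⟩ := hG.der
  have hmono : Monotone a := monotone_nat_of_le_succ (fun k => by have := h.gap k; have := h.dpos; linarith)
  have hb := h.pos n'
  have ha := h.one n'
  have hω0 : 0 < |ω'| := abs_pos.mpr hω
  have hW := hG.W0 hcd
  have hK := hG.K0
  have hd := h.dpos
  have h1 := core (A0 := a n0) (A1 := a n) (A2 := a n') (B1 := b n * ω) (B2 := b n' * ω') (G := G) (G' := G')
    (K0 := W) (K1 := K) (ρ := ρ) hcd h.dpos hρ (hmono h0) (by linarith [h.one n]) (h.gap' hn)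
    (mul_ne_zero hb.ne' hω) (fun y _ => g1 y) g2.continuousOn hG.bd hK g3
  have e1 : ∀ y, ff (a n) (a n') (b n * ω) (b n' * ω') y = pt a b n y * ω + pt a b n' y * ω' := by
    intro y; unfold ff pt; ring
  simp only [e1] at h1
  refine h1.trans ?_
  unfold BB
  have hpt := pt_pos h n' c
  have e2 : |b n' * ω'| * a n' * δ * exp (a n' * c) * ρ = |ω'| * (a n' * pt a b n' c * δ * ρ) := by
    rw [abs_mul, abs_of_pos hb]; unfold pt; ring
  rw [e2]
  have hA : 0 < a n' := by linarith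
  have hQ : 0 < a n' * pt a b n' c * δ * ρ := by positivity
  have hdc : 0 ≤ d - c := by linarith
  have e3 : 2 * (5 * W + (d - c) * K) / (|ω'| * (a n' * pt a b n' c * δ * ρ)) =
      2 * (5 * W + (d - c) * K) * (1 / |ω'|) / (a n' * pt a b n' c * δ * ρ) := by
    field_simp
  rw [e3]
  have : 2 * (5 * W + (d - c) * K) * (1 / |ω'|) / (a n' * pt a b n' c * δ * ρ) ≤
      2 * (5 * W + (d - c) * K) * ν / (a n' * pt a b n' c * δ * ρ) := by
    apply div_le_div_of_nonneg_right _ hQ.le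
    exact mul_le_mul_of_nonneg_left hν (by positivity)
  linarith

lemma fq_one {M : ℕ} {y : ℕ × Bool} (hy : y ∈ JS M) : 1 ≤ |fq y| := by
  unfold JS at hy
  rw [Finset.mem_product, Finset.mem_Icc] at hy
  unfold fq
  have h1 : |(sb y.2 : ℝ)| = 1 := by
    unfold sb; split_ifs <;> simp
  rw [abs_mul, h1, one_mul, abs_of_nonneg (Real.sqrt_nonneg _)]
  rw [Real.one_le_sqrt]
  exact_mod_cast hy.1.1

lemma fq_ne {M : ℕ} {y : ℕ × Bool} (hy : y ∈ JS M) : fq y ≠ 0 := by
  have := fq_one hy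
  intro h0
  rw [h0, abs_zero] at this
  linarith

lemma fq_inv {M : ℕ} {y : ℕ × Bool} (hy : y ∈ JS M) : 1 / |fq y| ≤ 1 := by
  have := fq_one hy
  rw [div_le_one (by linarith)]
  exact this

lemma sum_cf (af : ℕ → ℝ) (φ : ℝ) (M : ℕ) : ∑ y ∈ JS M, ‖cf af φ y‖ = AA af M := by
  rw [sum_norm_cf]; rfl

lemma BB_nonneg (h : Sq a b δ) (hcd : c ≤ d) (hG : Amp a c d n0 W K G) (n' : ℕ) {ρ ν : ℝ} (hρ : 0 < ρ) (hν : 0 ≤ ν) :
    0 ≤ BB δ c d W K (a n' * pt a b n' c) ρ ν := by
  unfold BB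
  have := hG.W0 hcd
  have := hG.K0
  have := h.dpos
  have := h.one n'
  have := pt_pos h n' c
  have : 0 ≤ d - c := by linarith
  have : 0 ≤ a n' := by linarith
  positivity

/-- one factor -/
lemma amp_one (h : Sq a b δ) (hcd : c ≤ d) (hG : Amp a c d n0 W K G) (ag : ℕ → ℝ) (φ : ℝ) {n' : ℕ} (hn : n0 < n') (M : ℕ)
    {ρ : ℝ} (hρ : 0 < ρ) :
    ‖∫ y in c..d, G y * ((U ag φ (pt a b n' y) M : ℝ) : ℂ)‖ ≤ AA ag M * BB δ c d W K (a n' * pt a b n' c) ρ 1 := by
  have e1 : ∀ y, G y * ((U ag φ (pt a b n' y) M : ℝ) : ℂ) =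
      ∑ x ∈ JS M, cf ag φ x * (G y * e (pt a b n0 y * 0 + pt a b n' y * fq x)) := by
    intro y
    rw [U_exp, Finset.mul_sum]
    apply Finset.sum_congr rfl
    intro x _
    rw [mul_zero, zero_add]
    ring
  have hGc := hG.cont
  have hci : ∀ x, Continuous fun y => G y * e (pt a b n0 y * 0 + pt a b n' y * fq x) := by
    intro x
    exact hGc.mul (e_continuous.comp (((pt_cont a b n0).mul continuous_const).add ((pt_cont a b n').mul continuous_const)))
  simp only [e1]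
  have hii : ∀ x ∈ JS M, IntervalIntegrable (fun y => cf ag φ x * (G y * e (pt a b n0 y * 0 + pt a b n' y * fq x)))
      volume c d := fun x _ => (continuous_const.mul (hci x)).intervalIntegrable _ _
  rw [intervalIntegral.integral_finsetSum hii]
  refine (norm_sum_le _ _).trans ?_
  rw [← sum_cf ag φ M, Finset.sum_mul]
  apply Finset.sum_le_sum
  intro x hx
  rw [intervalIntegral.integral_const_mul, norm_mul]
  apply mul_le_mul_of_nonneg_left _ (norm_nonneg _)
  exact hG.osc h hcd le_rfl hn (fq_ne hx) (fq_inv hx) hρ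

/-- two different factors -/
lemma amp_two (h : Sq a b δ) (hcd : c ≤ d) (hG : Amp a c d n0 W K G) (ag ag' : ℕ → ℝ) (φ : ℝ) {n n' : ℕ} (hn0 : n0 ≤ n)
    (hn : n < n') (M M' : ℕ) {ρ : ℝ} (hρ : 0 < ρ) :
    ‖∫ y in c..d, G y * (((U ag φ (pt a b n y) M : ℝ) : ℂ) * ((U ag' φ (pt a b n' y) M' : ℝ) : ℂ))‖ ≤
      AA ag M * AA ag' M' * BB δ c d W K (a n' * pt a b n' c) ρ 1 := by
  have e1 : ∀ y, G y * (((U ag φ (pt a b n y) M : ℝ) : ℂ) * ((U ag' φ (pt a b n' y) M' : ℝ) : ℂ)) =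
      ∑ x ∈ JS M, ∑ x' ∈ JS M', (cf ag φ x * cf ag' φ x') * (G y * e (pt a b n y * fq x + pt a b n' y * fq x')) := by
    intro y
    rw [U_exp, U_exp, Finset.sum_mul_sum, Finset.mul_sum]
    apply Finset.sum_congr rfl
    intro x _
    rw [Finset.mul_sum]
    apply Finset.sum_congr rfl
    intro x' _
    rw [e_add]
    ring
  have hGc := hG.cont
  have hci : ∀ x x', Continuous fun y => G y * e (pt a b n y * fq x + pt a b n' y * fq x') := by
    intro x x'
    exact hGc.mul (e_continuous.comp (((pt_cont a b n).mul continuous_const).add ((pt_cont a b n').mul continuous_const)))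
  simp only [e1]
  have hii : ∀ x ∈ JS M, IntervalIntegrable (fun y => ∑ x' ∈ JS M', (cf ag φ x * cf ag' φ x') *
      (G y * e (pt a b n y * fq x + pt a b n' y * fq x'))) volume c d := fun x _ =>
    (continuous_finsetSum _ fun x' _ => continuous_const.mul (hci x x')).intervalIntegrable _ _
  rw [intervalIntegral.integral_finsetSum hii]
  refine (norm_sum_le _ _).trans ?_
  rw [← sum_cf ag φ M, ← sum_cf ag' φ M', Finset.sum_mul_sum, Finset.sum_mul]
  apply Finset.sum_le_sum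
  intro x hx
  have hij : ∀ x' ∈ JS M', IntervalIntegrable (fun y => (cf ag φ x * cf ag' φ x') *
      (G y * e (pt a b n y * fq x + pt a b n' y * fq x'))) volume c d := fun x' _ =>
    (continuous_const.mul (hci x x')).intervalIntegrable _ _
  rw [intervalIntegral.integral_finsetSum hij]
  refine (norm_sum_le _ _).trans ?_
  rw [Finset.sum_mul]
  apply Finset.sum_le_sum
  intro x' hx'
  rw [intervalIntegral.integral_const_mul, norm_mul, norm_mul]
  apply mul_le_mul_of_nonneg_left _ (by positivity)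
  exact hG.osc h hcd hn0 hn (fq_ne hx') (fq_inv hx') hρ

/-- a square -/
lemma amp_sq (h : Sq a b δ) (hcd : c ≤ d) (hG : Amp a c d n0 W K G) (ag : ℕ → ℝ) (φ : ℝ) {n' : ℕ}
    (hn : n0 < n') (M : ℕ) {ρ : ℝ} (hρ : 0 < ρ) :
    ‖∫ y in c..d, G y * (((U ag φ (pt a b n' y) M : ℝ) : ℂ) ^ 2 - ZZ ag φ 2 M)‖ ≤
      AA ag M ^ 2 * BB δ c d W K (a n' * pt a b n' c) ρ (((2 * M + 1 : ℕ) : ℝ) ^ (2 ^ 2)) := by
  classical
  have e1 : ∀ y, G y * (((U ag φ (pt a b n' y) M : ℝ) : ℂ) ^ 2 - ZZ ag φ 2 M) =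
      ∑ x ∈ (TT 2 M).filter (fun x => ∑ i, fq (x i) ≠ 0), (∏ i, cf ag φ (x i)) *
        (G y * e (pt a b n0 y * 0 + pt a b n' y * ∑ i, fq (x i))) := by
    intro y
    rw [pow_expand, Finset.mul_sum]
    apply Finset.sum_congr rfl
    intro x _
    rw [mul_zero, zero_add]
    ring
  have hGc := hG.cont
  have hci : ∀ ω : ℝ, Continuous fun y => G y * e (pt a b n0 y * 0 + pt a b n' y * ω) := by
    intro ω
    exact hGc.mul (e_continuous.comp (((pt_cont a b n0).mul continuous_const).add ((pt_cont a b n').mul continuous_const)))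
  simp only [e1]
  have hii : ∀ x ∈ (TT 2 M).filter (fun x => ∑ i, fq (x i) ≠ 0), IntervalIntegrable (fun y => (∏ i, cf ag φ (x i)) *
        (G y * e (pt a b n0 y * 0 + pt a b n' y * ∑ i, fq (x i)))) volume c d :=
    fun x _ => (continuous_const.mul (hci _)).intervalIntegrable _ _
  rw [intervalIntegral.integral_finsetSum hii]
  refine (norm_sum_le _ _).trans ?_
  have hB := BB_nonneg h hcd hG n' hρ (ν := ((2 * M + 1 : ℕ) : ℝ) ^ (2 ^ 2)) (by positivity)
  refine le_trans ?_ (mul_le_mul_of_nonneg_right (sum_norm_filter ag φ 2 M (fun x => ∑ i, fq (x i) ≠ 0)) hB)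
  rw [Finset.sum_mul]
  apply Finset.sum_le_sum
  intro x hx
  rw [Finset.mem_filter] at hx
  rw [intervalIntegral.integral_const_mul, norm_mul]
  apply mul_le_mul_of_nonneg_left _ (norm_nonneg _)
  refine hG.osc h hcd le_rfl hn hx.2 ?_ hρ
  have := gap_inv hx.1 hx.2 (P := 1) one_pos
  simpa using this

/-- derivative of the model polynomial -/
noncomputable def Ud (af : ℕ → ℝ) (φ R : ℝ) (M : ℕ) : ℝ :=
  ∑ m ∈ Finset.Icc 1 (M^2), af m * (-Real.sin (2 * π * (R * √(m:ℝ)) - φ) * (2 * π * √(m:ℝ)))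

lemma U_deriv (af : ℕ → ℝ) (φ R : ℝ) (M : ℕ) : HasDerivAt (fun R => U af φ R M) (Ud af φ R M) R := by
  unfold U Ud
  apply HasDerivAt.fun_sum
  intro m _
  apply HasDerivAt.const_mul
  have h1 : HasDerivAt (fun R : ℝ => 2 * π * (R * √(m:ℝ)) - φ) (2 * π * √(m:ℝ)) R := by
    have := ((((hasDerivAt_id R).mul_const (√(m:ℝ))).const_mul (2 * π)).sub_const φ)
    simpa using this
  exact h1.cos

lemma Ud_le (af : ℕ → ℝ) (φ R : ℝ) (M : ℕ) : |Ud af φ R M| ≤ 2 * π * M * AA af M := by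
  unfold Ud AA
  refine (Finset.abs_sum_le_sum_abs _ _).trans ?_
  rw [Finset.mul_sum]
  apply Finset.sum_le_sum
  intro m hm
  rw [Finset.mem_Icc] at hm
  have hs : √(m:ℝ) ≤ M := by
    rw [Real.sqrt_le_left (Nat.cast_nonneg _)]
    exact_mod_cast hm.2
  rw [abs_mul, abs_mul, abs_neg, abs_of_nonneg (by positivity : 0 ≤ 2 * π * √(m:ℝ))]
  have h1 := Real.abs_sin_le_one (2 * π * (R * √(m:ℝ)) - φ)
  calc |af m| * (|Real.sin (2 * π * (R * √(m:ℝ)) - φ)| * (2 * π * √(m:ℝ))) ≤ |af m| * (1 * (2 * π * M)) := by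
        gcongr
    _ = _ := by ring

lemma Ud_cont (af : ℕ → ℝ) (φ : ℝ) (M : ℕ) : Continuous fun R => Ud af φ R M := by
  unfold Ud; fun_prop

lemma pt_deriv (a b : ℕ → ℝ) (n : ℕ) (y : ℝ) : HasDerivAt (pt a b n) (a n * pt a b n y) y := by
  have h1 : HasDerivAt (pt a b n) (b n * (a n * exp (a n * y))) y := (hasDeriv_exp (a n) y).const_mul (b n)
  refine h1.congr_deriv ?_
  unfold pt; ring

lemma pt_shift (a b : ℕ → ℝ) (n : ℕ) (c y : ℝ) : pt a b n y = pt a b n c * exp (a n * (y - c)) := by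
  unfold pt
  rw [mul_assoc, ← Real.exp_add]
  congr 2; ring

lemma pt_ratio (h : Sq a b δ) (hc : 0 ≤ c) (n k : ℕ) : pt a b n c * exp (δ * c * k) ≤ pt a b (n + k) c := by
  induction k with
  | zero => simp
  | succ k ih =>
    have h1 : pt a b (n + k) c * exp (δ * c) ≤ pt a b (n + (k + 1)) c := by
      unfold pt
      have h2 := h.gap (n + k)
      have h3 : exp (a (n + k) * c) * exp (δ * c) ≤ exp (a (n + (k + 1)) * c) := by
        rw [← Real.exp_add]
        apply Real.exp_le_exp.mpr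
        have h4 : (a (n + k) + δ) * c ≤ a (n + k + 1) * c := mul_le_mul_of_nonneg_right h2 hc
        rw [← add_assoc]
        linarith
      calc b (n + k) * exp (a (n + k) * c) * exp (δ * c) = b (n + k) * (exp (a (n + k) * c) * exp (δ * c)) := by ring
        _ ≤ _ := mul_le_mul (h.mono (by omega)) h3 (by positivity) (h.pos _).le
    calc pt a b n c * exp (δ * c * (k + 1 : ℕ)) = pt a b n c * exp (δ * c * k) * exp (δ * c) := by
          rw [mul_assoc (pt a b n c), ← Real.exp_add]; congr 2; push_cast; ring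
      _ ≤ pt a b (n + k) c * exp (δ * c) := mul_le_mul_of_nonneg_right ih (Real.exp_pos _).le
      _ ≤ _ := h1

/-- the derivative of a model variable is dominated at the scale of a later index -/
lemma der_le (h : Sq a b δ) (hc : 0 < c) {n n0 : ℕ} (hn : n ≤ n0) (af : ℕ → ℝ) (φ : ℝ) (M : ℕ) {A Mr y : ℝ}
    (hA : AA af M ≤ A) (hM : (M:ℝ) ≤ Mr) (hy : c ≤ y) :
    |Ud af φ (pt a b n y) M * (a n * pt a b n y)| ≤ 2 * π * Mr * A * (a n0 * pt a b n0 c) * exp (a n0 * (y - c)) := by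
  have hmono : Monotone a := monotone_nat_of_le_succ (fun k => by have := h.gap k; have := h.dpos; linarith)
  have h1 := h.one n
  have hp := pt_pos h n y
  have hpc := pt_pos h n c
  have hp0 := pt_pos h n0 c
  have hAA := AA_nonneg af M
  have hA0 : 0 ≤ A := hAA.trans hA
  have hMr : 0 ≤ Mr := (Nat.cast_nonneg _).trans hM
  rw [abs_mul, abs_of_nonneg (by positivity : 0 ≤ a n * pt a b n y)]
  have h2 : |Ud af φ (pt a b n y) M| ≤ 2 * π * Mr * A := by
    refine (Ud_le _ _ _ _).trans ?_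
    gcongr
  have h3 : a n * pt a b n y ≤ (a n0 * pt a b n0 c) * exp (a n0 * (y - c)) := by
    rw [pt_shift a b n c y]
    have h4 := hmono hn
    have h5 := pt_mono h hc.le hn
    have h6 : exp (a n * (y - c)) ≤ exp (a n0 * (y - c)) :=
      Real.exp_le_exp.mpr (mul_le_mul_of_nonneg_right h4 (by linarith))
    calc a n * (pt a b n c * exp (a n * (y - c))) ≤ a n0 * (pt a b n0 c * exp (a n0 * (y - c))) := by
          have : 0 ≤ a n := by linarith
          have : 0 ≤ a n0 := by linarith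
          gcongr
      _ = _ := by ring
  calc |Ud af φ (pt a b n y) M| * (a n * pt a b n y) ≤ (2 * π * Mr * A) * ((a n0 * pt a b n0 c) * exp (a n0 * (y - c))) :=
        mul_le_mul h2 h3 (by positivity) (by positivity)
    _ = _ := by ring

end Pool.Agent.D0H48.Cl
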