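import Mathlib
import Pool.Agent.D0H48.Cl.Amp
import Pool.Agent.R306.GP.AEe

/-!
The characteristic function of sums over separated blocks.
-/

set_option autoImplicit false

open MeasureTheory Filter Topology Set Real
open Pool.Agent.H469R2.NK (e norm_e e_add conj_e e_zero)
open Pool.Agent.H383.Gen (U Bd)
open Pool.Agent.Y969.TM
open Pool.Agent.R306.GP

namespace Pool.Agent.D0H48.Cl

/-- the variance of the model polynomial of degree `M` -/
noncomputable def vv (ag : ℕ → ℝ) (M : ℕ) : ℝ := ∑ m ∈ Finset.Icc 1 (M^2), ag m ^ 2 / 2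

lemma vv_nonneg (ag : ℕ → ℝ) (M : ℕ) : 0 ≤ vv ag M := Finset.sum_nonneg fun _ _ => by positivity

lemma vv_mono (ag : ℕ → ℝ) {M M' : ℕ} (h : M ≤ M') : vv ag M ≤ vv ag M' := by
  unfold vv
  apply Finset.sum_le_sum_of_subset_of_nonneg
  · apply Finset.Icc_subset_Icc le_rfl
    exact Nat.pow_le_pow_left h 2
  · intro _ _ _; positivity

/-- the index with the opposite frequency -/
def ng (x : ℕ × Bool) : ℕ × Bool := (x.1, !x.2)

lemma fq_ng (x : ℕ × Bool) : fq (ng x) = -fq x := by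
  unfold fq ng sb
  rcases x with ⟨m, b⟩
  cases b <;> simp

lemma fq_inj {M : ℕ} {x x' : ℕ × Bool} (hx : x ∈ JS M) (hx' : x' ∈ JS M) (h : fq x = fq x') : x = x' := by
  unfold JS at hx hx'
  rw [Finset.mem_product, Finset.mem_Icc] at hx hx'
  rcases x with ⟨m, b⟩
  rcases x' with ⟨m', b'⟩
  have h1 : (1:ℝ) ≤ m := by exact_mod_cast hx.1.1
  have h2 : (1:ℝ) ≤ m' := by exact_mod_cast hx'.1.1
  have hs1 : 0 < √(m:ℝ) := Real.sqrt_pos.mpr (by linarith)
  have hs2 : 0 < √(m':ℝ) := Real.sqrt_pos.mpr (by linarith)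
  unfold fq sb at h
  cases b <;> cases b' <;> simp at h ⊢
  · exact h
  · linarith
  · linarith
  · exact h

lemma ZZ_two (ag : ℕ → ℝ) (φ : ℝ) (M : ℕ) : ZZ ag φ 2 M = ((vv ag M : ℝ) : ℂ) := by
  classical
  have h1 : ZZ ag φ 2 M = ∑ x ∈ JS M, ∑ x' ∈ JS M, if fq x + fq x' = 0 then cf ag φ x * cf ag φ x' else 0 := by
    unfold ZZ
    rw [Finset.sum_filter, ← Finset.sum_product']
    apply Finset.sum_nbij' (fun y : Fin 2 → ℕ × Bool => (y 0, y 1)) (fun p => ![p.1, p.2])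
    · intro y hy
      unfold TT at hy
      rw [Fintype.mem_piFinset] at hy
      exact Finset.mem_product.mpr ⟨hy 0, hy 1⟩
    · intro p hp
      rw [Finset.mem_product] at hp
      unfold TT
      rw [Fintype.mem_piFinset]
      intro i
      fin_cases i
      · exact hp.1
      · exact hp.2
    · intro y _
      funext i
      fin_cases i <;> rfl
    · intro p _
      rfl
    · intro y _
      simp only [Fin.sum_univ_two, Fin.prod_univ_two]
  have h2 : ∀ x ∈ JS M, (∑ x' ∈ JS M, if fq x + fq x' = 0 then cf ag φ x * cf ag φ x' else 0) = ((ag x.1 ^ 2 / 4 : ℝ) : ℂ) := by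
    intro x hx
    have hng : ng x ∈ JS M := by
      unfold JS ng at *
      rw [Finset.mem_product] at *
      exact ⟨hx.1, Finset.mem_univ _⟩
    rw [Finset.sum_eq_single (ng x)]
    · rw [fq_ng, if_pos (by ring)]
      unfold cf ng
      have e1 : ∀ z : ℝ, Complex.exp (((-z * φ : ℝ) : ℂ) * Complex.I) * Complex.exp (((-(-z) * φ : ℝ) : ℂ) * Complex.I) = 1 := by
        intro z
        rw [← Complex.exp_add, ← Complex.exp_zero]
        congr 1
        push_cast
        ring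
      have e2 : ((sb (!x.2) : ℤ) : ℝ) = -((sb x.2 : ℤ) : ℝ) := by
        unfold sb
        cases x.2 <;> simp
      rw [e2]
      have e3 := e1 ((sb x.2 : ℤ) : ℝ)
      calc ((ag x.1 / 2 : ℝ) : ℂ) * Complex.exp (((-((sb x.2 : ℤ) : ℝ) * φ : ℝ) : ℂ) * Complex.I) *
            (((ag x.1 / 2 : ℝ) : ℂ) * Complex.exp (((-(-((sb x.2 : ℤ) : ℝ)) * φ : ℝ) : ℂ) * Complex.I)) =
            ((ag x.1 / 2 : ℝ) : ℂ) * ((ag x.1 / 2 : ℝ) : ℂ) * (Complex.exp (((-((sb x.2 : ℤ) : ℝ) * φ : ℝ) : ℂ) * Complex.I) *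
            Complex.exp (((-(-((sb x.2 : ℤ) : ℝ)) * φ : ℝ) : ℂ) * Complex.I)) := by ring
        _ = _ := by
            rw [e3]
            push_cast
            ring
    · intro x' hx' hne
      rw [if_neg]
      intro h0
      apply hne
      apply fq_inj hx' hng
      rw [fq_ng]
      linarith
    · intro h0
      exact absurd hng h0
  rw [h1, Finset.sum_congr rfl h2]
  unfold JS vv
  rw [Finset.sum_product]
  push_cast
  apply Finset.sum_congr rfl
  intro m _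
  simp only [Finset.sum_const, Finset.card_univ, Fintype.card_bool, nsmul_eq_mul]
  push_cast
  ring

variable {a b : ℕ → ℝ} {δ c d : ℝ} {W0 W1 : ℝ} {w : ℝ → ℂ}

/-- weights -/
structure Wg (c d W0 W1 : ℝ) (w : ℝ → ℂ) : Prop where
  n1 : 0 ≤ W1
  bd : ∀ y ∈ Icc c d, ‖w y‖ ≤ W0
  der : ∃ w' : ℝ → ℂ, (∀ y, HasDerivAt w (w' y) y) ∧ Continuous w' ∧ ∀ y ∈ Icc c d, ‖w' y‖ ≤ W1

lemma Wg.cont (hw : Wg c d W0 W1 w) : Continuous w := by
  obtain ⟨G', h1, _⟩ := hw.der
  exact continuous_iff_continuousAt.mpr fun y => (h1 y).continuousAt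

lemma Wg.n0 (hw : Wg c d W0 W1 w) (hcd : c ≤ d) : 0 ≤ W0 := (norm_nonneg _).trans (hw.bd c ⟨le_rfl, hcd⟩)

/-- the amplitude of an exponential -/
lemma amp_of (h : Sq a b δ) (hcd : c ≤ d) (hw : Wg c d W0 W1 w) {S S' : ℝ → ℝ} (hS : ∀ y, HasDerivAt S (S' y) y)
    (hS' : Continuous S') {n0 : ℕ} {L : ℝ} (hL : 0 ≤ L) (hb : ∀ y ∈ Icc c d, |S' y| ≤ L * exp (a n0 * (y - c))) :
    Amp a c d n0 W0 (W1 + W0 * L) (fun y => w y * Complex.exp ((S y : ℂ) * Complex.I)) := by
  obtain ⟨w', h1, h2, h3⟩ := hw.der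
  have hW0 := hw.n0 hcd
  have hSc : Continuous S := continuous_iff_continuousAt.mpr fun y => (hS y).continuousAt
  refine ⟨by have := hw.n1; positivity, ?_, ⟨fun y => w' y * Complex.exp ((S y : ℂ) * Complex.I) +
    w y * (Complex.exp ((S y : ℂ) * Complex.I) * ((S' y : ℂ) * Complex.I)), ?_, ?_, ?_⟩⟩
  · intro y hy
    rw [norm_mul, Complex.norm_exp_ofReal_mul_I, mul_one]
    exact hw.bd y hy
  · intro y
    have := (h1 y).mul (((hS y).ofReal_comp.mul_const Complex.I).cexp)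
    exact this
  · have := hw.cont
    fun_prop
  · intro y hy
    have h4 : 1 ≤ exp (a n0 * (y - c)) := by
      apply Real.one_le_exp
      have := h.one n0
      exact mul_nonneg (by linarith) (by linarith [hy.1])
    refine (norm_add_le _ _).trans ?_
    rw [norm_mul, Complex.norm_exp_ofReal_mul_I, mul_one, norm_mul, norm_mul, Complex.norm_exp_ofReal_mul_I, one_mul,
      norm_mul, Complex.norm_I, mul_one, Complex.norm_real, Real.norm_eq_abs]
    have h5 := h3 y hy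
    have h6 := hb y hy
    have h7 := hw.bd y hy
    have h8 := hw.n1
    calc ‖w' y‖ + ‖w y‖ * |S' y| ≤ W1 * exp (a n0 * (y - c)) + W0 * (L * exp (a n0 * (y - c))) := by
          apply add_le_add
          · nlinarith
          · exact mul_le_mul h7 h6 (abs_nonneg _) hW0
      _ = _ := by ring

/-- model variables -/
noncomputable def XX (ag : ℕ → ℝ) (φ : ℝ) (a b : ℕ → ℝ) (Mf : ℕ → ℕ) (n : ℕ) (y : ℝ) : ℝ := U ag φ (pt a b n y) (Mf n)

variable {ag : ℕ → ℝ} {φ : ℝ} {Mf : ℕ → ℕ}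

lemma XX_cont (ag : ℕ → ℝ) (φ : ℝ) (a b : ℕ → ℝ) (Mf : ℕ → ℕ) (n : ℕ) : Continuous (XX ag φ a b Mf n) :=
  Upt_cont ag φ a b n _

/-- derivative of a model variable -/
noncomputable def XD (ag : ℕ → ℝ) (φ : ℝ) (a b : ℕ → ℝ) (Mf : ℕ → ℕ) (n : ℕ) (y : ℝ) : ℝ :=
  Ud ag φ (pt a b n y) (Mf n) * (a n * pt a b n y)

lemma XX_deriv (n : ℕ) (y : ℝ) : HasDerivAt (XX ag φ a b Mf n) (XD ag φ a b Mf n y) y :=
  (U_deriv ag φ (pt a b n y) (Mf n)).comp y (pt_deriv a b n y)

lemma XD_cont (n : ℕ) : Continuous (XD ag φ a b Mf n) :=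
  ((Ud_cont ag φ (Mf n)).comp (pt_cont a b n)).mul (continuous_const.mul (pt_cont a b n))

lemma XX_le {A : ℝ} {n : ℕ} (hA : AA ag (Mf n) ≤ A) (y : ℝ) : |XX ag φ a b Mf n y| ≤ A :=
  (abs_U_le' ag φ _ _).trans hA

/-- block sums -/
noncomputable def BS (ag : ℕ → ℝ) (φ : ℝ) (a b : ℕ → ℝ) (Mf : ℕ → ℕ) (s H : ℕ) (y : ℝ) : ℝ :=
  ∑ n ∈ Finset.Ico s (s + H), XX ag φ a b Mf n y

/-- block variances -/
noncomputable def BV (ag : ℕ → ℝ) (Mf : ℕ → ℕ) (s H : ℕ) : ℝ := ∑ n ∈ Finset.Ico s (s + H), vv ag (Mf n)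

lemma BS_cont (s H : ℕ) : Continuous (BS ag φ a b Mf s H) :=
  continuous_finsetSum _ fun n _ => XX_cont ag φ a b Mf n

lemma BS_le {A : ℝ} {s H : ℕ} (hA : ∀ n ∈ Finset.Ico s (s + H), AA ag (Mf n) ≤ A) (y : ℝ) :
    |BS ag φ a b Mf s H y| ≤ H * A := by
  unfold BS
  refine (Finset.abs_sum_le_sum_abs _ _).trans ?_
  calc ∑ n ∈ Finset.Ico s (s + H), |XX ag φ a b Mf n y| ≤ ∑ _n ∈ Finset.Ico s (s + H), A :=
        Finset.sum_le_sum fun n hn => XX_le (hA n hn) y
    _ = _ := by rw [Finset.sum_const, Nat.card_Ico, nsmul_eq_mul]; congr 2; omega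

lemma AA_sq (ag : ℕ → ℝ) (M : ℕ) : vv ag M ≤ AA ag M ^ 2 := by
  unfold vv AA
  have h1 : ∑ m ∈ Finset.Icc 1 (M^2), |ag m| ^ 2 ≤ (∑ m ∈ Finset.Icc 1 (M^2), |ag m|) ^ 2 := by
    rw [sq (∑ m ∈ Finset.Icc 1 (M^2), |ag m|), Finset.sum_mul]
    apply Finset.sum_le_sum
    intro m hm
    rw [sq]
    apply mul_le_mul_of_nonneg_left _ (abs_nonneg _)
    exact Finset.single_le_sum (f := fun m => |ag m|) (fun _ _ => abs_nonneg _) hm
  refine le_trans ?_ h1
  apply Finset.sum_le_sum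
  intro m _
  rw [sq_abs]
  nlinarith [sq_nonneg (ag m)]

lemma BV_nonneg (s H : ℕ) : 0 ≤ BV ag Mf s H := Finset.sum_nonneg fun _ _ => vv_nonneg _ _

lemma BV_le {A : ℝ} {s H : ℕ} (hA : ∀ n ∈ Finset.Ico s (s + H), AA ag (Mf n) ≤ A) :
    BV ag Mf s H ≤ H * A ^ 2 := by
  unfold BV
  calc ∑ n ∈ Finset.Ico s (s + H), vv ag (Mf n) ≤ ∑ _n ∈ Finset.Ico s (s + H), A ^ 2 := by
        apply Finset.sum_le_sum
        intro n hn
        exact (AA_sq ag _).trans (pow_le_pow_left₀ (AA_nonneg _ _) (hA n hn) 2)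
    _ = _ := by rw [Finset.sum_const, Nat.card_Ico, nsmul_eq_mul]; congr 2; omega

/-- the two estimates for a block -/
lemma blk_est (h : Sq a b δ) (hcd : c ≤ d) {n0 : ℕ} {W K : ℝ} {G : ℝ → ℂ} (hG : Amp a c d n0 W K G)
    {s H : ℕ} (hs : n0 < s) {A Mr ρ eps : ℝ} (hρ : 0 < ρ) (hA : ∀ n ∈ Finset.Ico s (s + H), AA ag (Mf n) ≤ A)
    (hM : ∀ n ∈ Finset.Ico s (s + H), (Mf n : ℝ) ≤ Mr)
    (he : ∀ n ∈ Finset.Ico s (s + H), BB δ c d W K (a n * pt a b n c) ρ ((2 * Mr + 1) ^ 4) ≤ eps) :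
    ‖∫ y in c..d, G y * ((BS ag φ a b Mf s H y : ℝ) : ℂ)‖ ≤ H * A * eps ∧
    ‖∫ y in c..d, G y * (((BS ag φ a b Mf s H y : ℝ) : ℂ) ^ 2 - ((BV ag Mf s H : ℝ) : ℂ))‖ ≤ (H * A) ^ 2 * eps := by
  have hGc := hG.cont
  have hW := hG.W0 hcd
  have hK := hG.K0
  have hd := h.dpos
  have hdc : 0 ≤ d - c := by linarith
  have hXc : ∀ n, Continuous fun y => ((XX ag φ a b Mf n y : ℝ) : ℂ) := fun n =>
    Complex.continuous_ofReal.comp (XX_cont ag φ a b Mf n)
  have bbm : ∀ n ∈ Finset.Ico s (s + H), ∀ ν : ℝ, ν ≤ (2 * Mr + 1) ^ 4 →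
      BB δ c d W K (a n * pt a b n c) ρ ν ≤ eps := by
    intro n hn ν hν
    refine le_trans ?_ (he n hn)
    unfold BB
    have h1 := h.one n
    have h2 := pt_pos h n c
    have h3 : 0 < a n := by linarith
    have h4 : 2 * (5 * W + (d - c) * K) * ν / (a n * pt a b n c * δ * ρ) ≤
        2 * (5 * W + (d - c) * K) * (2 * Mr + 1) ^ 4 / (a n * pt a b n c * δ * ρ) := by
      apply div_le_div_of_nonneg_right _ (by positivity)
      exact mul_le_mul_of_nonneg_left hν (by positivity)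
    linarith
  have hMr : ∀ n ∈ Finset.Ico s (s + H), (0:ℝ) ≤ Mr := fun n hn => (Nat.cast_nonneg _).trans (hM n hn)
  have hone : ∀ n ∈ Finset.Ico s (s + H), (1:ℝ) ≤ (2 * Mr + 1) ^ 4 := by
    intro n hn
    apply one_le_pow₀
    have := hMr n hn
    linarith
  have hA0 : ∀ n ∈ Finset.Ico s (s + H), 0 ≤ A := fun n hn => (AA_nonneg _ _).trans (hA n hn)
  have hcard : ((Finset.Ico s (s + H)).card : ℝ) = H := by rw [Nat.card_Ico]; congr 1; omega
  constructor
  · have e1 : ∀ y, G y * ((BS ag φ a b Mf s H y : ℝ) : ℂ) =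
        ∑ n ∈ Finset.Ico s (s + H), G y * ((XX ag φ a b Mf n y : ℝ) : ℂ) := by
      intro y
      unfold BS
      push_cast
      rw [Finset.mul_sum]
    simp only [e1]
    have hii : ∀ n ∈ Finset.Ico s (s + H), IntervalIntegrable (fun y => G y * ((XX ag φ a b Mf n y : ℝ) : ℂ)) volume c d :=
      fun n _ => (hGc.mul (hXc n)).intervalIntegrable _ _
    rw [intervalIntegral.integral_finsetSum hii]
    refine (norm_sum_le _ _).trans ?_
    calc ∑ n ∈ Finset.Ico s (s + H), ‖∫ y in c..d, G y * ((XX ag φ a b Mf n y : ℝ) : ℂ)‖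
        ≤ ∑ _n ∈ Finset.Ico s (s + H), A * eps := by
          apply Finset.sum_le_sum
          intro n hn
          have hns := (Finset.mem_Ico.mp hn).1
          have h1 := amp_one h hcd hG ag φ (n' := n) (by omega) (Mf n) hρ
          refine h1.trans ?_
          exact mul_le_mul (hA n hn) (bbm n hn 1 (hone n hn))
            (BB_nonneg h hcd hG n hρ zero_le_one) (hA0 n hn)
      _ = _ := by rw [Finset.sum_const, nsmul_eq_mul, hcard]; ring
  · have e1 : ∀ y, G y * (((BS ag φ a b Mf s H y : ℝ) : ℂ) ^ 2 - ((BV ag Mf s H : ℝ) : ℂ)) =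
        ∑ n ∈ Finset.Ico s (s + H), ∑ n' ∈ Finset.Ico s (s + H),
          G y * (((XX ag φ a b Mf n y : ℝ) : ℂ) * ((XX ag φ a b Mf n' y : ℝ) : ℂ) -
            if n = n' then ((vv ag (Mf n) : ℝ) : ℂ) else 0) := by
      intro y
      unfold BS BV
      push_cast
      simp only [← Finset.mul_sum]
      congr 1
      simp only [Finset.sum_sub_distrib]
      congr 1
      · rw [sq, Finset.sum_mul_sum]
      · apply Finset.sum_congr rfl
        intro n hn
        rw [Finset.sum_ite_eq, if_pos hn]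
    simp only [e1]
    have hci : ∀ n n', Continuous fun y => G y * (((XX ag φ a b Mf n y : ℝ) : ℂ) * ((XX ag φ a b Mf n' y : ℝ) : ℂ) -
            if n = n' then ((vv ag (Mf n) : ℝ) : ℂ) else 0) := fun n n' =>
      hGc.mul (((hXc n).mul (hXc n')).sub continuous_const)
    have hii : ∀ n ∈ Finset.Ico s (s + H), IntervalIntegrable (fun y => ∑ n' ∈ Finset.Ico s (s + H),
          G y * (((XX ag φ a b Mf n y : ℝ) : ℂ) * ((XX ag φ a b Mf n' y : ℝ) : ℂ) -
            if n = n' then ((vv ag (Mf n) : ℝ) : ℂ) else 0)) volume c d :=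
      fun n _ => (continuous_finsetSum _ fun n' _ => hci n n').intervalIntegrable _ _
    rw [intervalIntegral.integral_finsetSum hii]
    refine (norm_sum_le _ _).trans ?_
    have key : ∀ n ∈ Finset.Ico s (s + H), ∀ n' ∈ Finset.Ico s (s + H),
        ‖∫ y in c..d, G y * (((XX ag φ a b Mf n y : ℝ) : ℂ) * ((XX ag φ a b Mf n' y : ℝ) : ℂ) -
            if n = n' then ((vv ag (Mf n) : ℝ) : ℂ) else 0)‖ ≤ A ^ 2 * eps := by
      intro n hn n' hn'
      have hns := (Finset.mem_Ico.mp hn).1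
      have hns' := (Finset.mem_Ico.mp hn').1
      rcases lt_trichotomy n n' with hlt | heq | hlt
      · rw [if_neg hlt.ne]
        simp only [sub_zero]
        have h1 := amp_two h hcd hG ag ag φ (n := n) (n' := n') (by omega) hlt (Mf n) (Mf n') hρ
        refine h1.trans ?_
        have h2 : AA ag (Mf n) * AA ag (Mf n') ≤ A ^ 2 := by
          rw [sq]
          exact mul_le_mul (hA n hn) (hA n' hn') (AA_nonneg _ _) (hA0 n hn)
        exact mul_le_mul h2 (bbm n' hn' 1 (hone n hn)) (BB_nonneg h hcd hG n' hρ zero_le_one) (sq_nonneg _)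
      · subst heq
        rw [if_pos rfl]
        have h1 := amp_sq h hcd hG ag φ (n' := n) (by omega) (Mf n) hρ
        rw [ZZ_two] at h1
        have e3 : ∀ y, G y * (((XX ag φ a b Mf n y : ℝ) : ℂ) * ((XX ag φ a b Mf n y : ℝ) : ℂ) - ((vv ag (Mf n) : ℝ) : ℂ)) =
            G y * (((U ag φ (pt a b n y) (Mf n) : ℝ) : ℂ) ^ 2 - ((vv ag (Mf n) : ℝ) : ℂ)) := by
          intro y; unfold XX; ring
        simp only [e3]
        refine h1.trans ?_
        have h2 : AA ag (Mf n) ^ 2 ≤ A ^ 2 := pow_le_pow_left₀ (AA_nonneg _ _) (hA n hn) 2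
        have h3 : ((2 * Mf n + 1 : ℕ) : ℝ) ^ (2 ^ 2) ≤ (2 * Mr + 1) ^ 4 := by
          push_cast
          have h4 := hM n hn
          have h5 : (0:ℝ) ≤ Mf n := Nat.cast_nonneg _
          apply pow_le_pow_left₀ (by linarith)
          linarith
        exact mul_le_mul h2 (bbm n hn _ h3) (BB_nonneg h hcd hG n hρ (by positivity)) (sq_nonneg _)
      · rw [if_neg hlt.ne']
        simp only [sub_zero]
        have h1 := amp_two h hcd hG ag ag φ (n := n') (n' := n) (by omega) hlt (Mf n') (Mf n) hρ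
        have e3 : ∀ y, G y * (((XX ag φ a b Mf n y : ℝ) : ℂ) * ((XX ag φ a b Mf n' y : ℝ) : ℂ)) =
            G y * (((U ag φ (pt a b n' y) (Mf n') : ℝ) : ℂ) * ((U ag φ (pt a b n y) (Mf n) : ℝ) : ℂ)) := by
          intro y; unfold XX; ring
        simp only [e3]
        refine h1.trans ?_
        have h2 : AA ag (Mf n') * AA ag (Mf n) ≤ A ^ 2 := by
          rw [sq]
          exact mul_le_mul (hA n' hn') (hA n hn) (AA_nonneg _ _) (hA0 n hn)
        exact mul_le_mul h2 (bbm n hn 1 (hone n hn)) (BB_nonneg h hcd hG n hρ zero_le_one) (sq_nonneg _)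
    calc ∑ n ∈ Finset.Ico s (s + H), ‖∫ y in c..d, ∑ n' ∈ Finset.Ico s (s + H),
          G y * (((XX ag φ a b Mf n y : ℝ) : ℂ) * ((XX ag φ a b Mf n' y : ℝ) : ℂ) -
            if n = n' then ((vv ag (Mf n) : ℝ) : ℂ) else 0)‖
        ≤ ∑ _n ∈ Finset.Ico s (s + H), ∑ _n' ∈ Finset.Ico s (s + H), A ^ 2 * eps := by
          apply Finset.sum_le_sum
          intro n hn
          have hij : ∀ n' ∈ Finset.Ico s (s + H), IntervalIntegrable (fun y =>
            G y * (((XX ag φ a b Mf n y : ℝ) : ℂ) * ((XX ag φ a b Mf n' y : ℝ) : ℂ) -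
            if n = n' then ((vv ag (Mf n) : ℝ) : ℂ) else 0)) volume c d :=
            fun n' _ => (hci n n').intervalIntegrable _ _
          rw [intervalIntegral.integral_finsetSum hij]
          exact (norm_sum_le _ _).trans (Finset.sum_le_sum fun n' hn' => key n hn n' hn')
      _ = _ := by
          rw [Finset.sum_const, Finset.sum_const, nsmul_eq_mul, nsmul_eq_mul, hcard]
          ring

end Pool.Agent.D0H48.Cl
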