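import Mathlib
import Pool.Agent.D0H48.Cl.Mas

/-!
The characteristic function of sums over separated blocks: the recursion.
-/

set_option autoImplicit false

open MeasureTheory Filter Topology Set Real
open Pool.Agent.H469R2.NK (e norm_e e_add conj_e e_zero)
open Pool.Agent.H383.Gen (U Bd)
open Pool.Agent.Y969.TM
open Pool.Agent.R306.GP

namespace Pool.Agent.D0H48.Cl

variable {a b : ℕ → ℝ} {δ c d : ℝ} {W0 W1 : ℝ} {w : ℝ → ℂ} {ag : ℕ → ℝ} {φ : ℝ} {Mf : ℕ → ℕ}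

lemma exp_taylor {u : ℝ} (hu : |u| ≤ 1) :
    ‖Complex.exp ((u:ℂ) * Complex.I) - (1 + (u:ℂ) * Complex.I - (u:ℂ) ^ 2 / 2)‖ ≤ |u| ^ 3 := by
  have hn : ‖(u:ℂ) * Complex.I‖ = |u| := by
    rw [norm_mul, Complex.norm_I, mul_one, Complex.norm_real, Real.norm_eq_abs]
  have h1 := Complex.exp_bound (x := (u:ℂ) * Complex.I) (by rw [hn]; exact hu) (n := 3) (by norm_num)
  have e1 : ∑ m ∈ Finset.range 3, ((u:ℂ) * Complex.I) ^ m / (m.factorial : ℂ) = 1 + (u:ℂ) * Complex.I - (u:ℂ) ^ 2 / 2 := by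
    rw [Finset.sum_range_succ, Finset.sum_range_succ, Finset.sum_range_one, mul_pow (u:ℂ) Complex.I 2, Complex.I_sq]
    norm_num [Nat.factorial]
    ring
  rw [e1, hn] at h1
  refine h1.trans ?_
  have h2 : (0:ℝ) ≤ |u| ^ 3 := by positivity
  have h3 : (((Nat.succ 3 : ℕ) : ℝ) * (((Nat.factorial 3 : ℕ) : ℝ) * ((3:ℕ):ℝ))⁻¹) ≤ 1 := by
    norm_num [Nat.factorial]
  calc |u| ^ 3 * (((Nat.succ 3 : ℕ) : ℝ) * (((Nat.factorial 3 : ℕ) : ℝ) * ((3:ℕ):ℝ))⁻¹) ≤ |u| ^ 3 * 1 :=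
        mul_le_mul_of_nonneg_left h3 h2
    _ = _ := mul_one _

/-- one step -/
lemma step (h : Sq a b δ) (hcd : c ≤ d) {n0 : ℕ} {W K : ℝ} {G : ℝ → ℂ} (hG : Amp a c d n0 W K G)
    {s H : ℕ} (hs : n0 < s) {A Mr ρ eps : ℝ} (hρ : 0 < ρ) (hA : ∀ n ∈ Finset.Ico s (s + H), AA ag (Mf n) ≤ A)
    (hM : ∀ n ∈ Finset.Ico s (s + H), (Mf n : ℝ) ≤ Mr)
    (he : ∀ n ∈ Finset.Ico s (s + H), BB δ c d W K (a n * pt a b n c) ρ ((2 * Mr + 1) ^ 4) ≤ eps) (he0 : 0 ≤ eps)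
    (hA1 : 1 ≤ A) {θ D : ℝ} (hD : H * A ≤ D) (hD1 : 1 ≤ D) (hθ : |θ| * D ≤ 1) :
    ‖(∫ y in c..d, G y * Complex.exp (((θ * BS ag φ a b Mf s H y : ℝ) : ℂ) * Complex.I)) -
      ((exp (-(θ ^ 2 * BV ag Mf s H / 2)) : ℝ) : ℂ) * ∫ y in c..d, G y‖ ≤
      2 * ((d - c) * W * (|θ| * D) ^ 3) + 2 * (D ^ 2 * eps) := by
  have hGc := hG.cont
  have hW := hG.W0 hcd
  have hdc : 0 ≤ d - c := by linarith
  set B : ℝ → ℝ := BS ag φ a b Mf s H with hB
  set V : ℝ := BV ag Mf s H with hV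
  have hBc : Continuous B := BS_cont s H
  have hBD : ∀ y, |B y| ≤ D := fun y => (BS_le hA y).trans hD
  have hV0 : 0 ≤ V := BV_nonneg s H
  have hVD : V ≤ D ^ 2 := by
    refine (BV_le hA).trans ?_
    rcases Nat.eq_zero_or_pos H with h0 | h0
    · rw [h0]; simp; positivity
    · have hH : (1:ℝ) ≤ H := by exact_mod_cast h0
      calc (H:ℝ) * A ^ 2 ≤ (H:ℝ) ^ 2 * A ^ 2 := by
            apply mul_le_mul_of_nonneg_right _ (sq_nonneg _)
            nlinarith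
        _ = (H * A) ^ 2 := by ring
        _ ≤ D ^ 2 := pow_le_pow_left₀ (by positivity) hD 2
  obtain ⟨E1, E2⟩ := blk_est (φ := φ) h hcd hG hs hρ hA hM he
  rw [← hB] at E1 E2
  rw [← hV] at E2
  have hθ0 : 0 ≤ |θ| := abs_nonneg _
  have hθ1 : |θ| ≤ 1 := by nlinarith
  have hHA : (0:ℝ) ≤ H * A := by positivity
  have E1' : ‖∫ y in c..d, G y * ((B y : ℝ) : ℂ)‖ ≤ D ^ 2 * eps := by
    refine E1.trans (mul_le_mul_of_nonneg_right ?_ he0)
    nlinarith
  have E2' : ‖∫ y in c..d, G y * (((B y : ℝ) : ℂ) ^ 2 - (V : ℂ))‖ ≤ D ^ 2 * eps := by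
    refine E2.trans (mul_le_mul_of_nonneg_right ?_ he0)
    exact pow_le_pow_left₀ hHA hD 2
  -- the pointwise decomposition
  set r : ℝ → ℂ := fun y => G y * (Complex.exp (((θ * B y : ℝ) : ℂ) * Complex.I) -
    (1 + ((θ * B y : ℝ) : ℂ) * Complex.I - ((θ * B y : ℝ) : ℂ) ^ 2 / 2)) with hr
  have hBcc : Continuous fun y => ((B y : ℝ) : ℂ) := Complex.continuous_ofReal.comp hBc
  have hrc : Continuous r := by
    rw [hr]
    fun_prop
  have hdec : ∀ y, G y * Complex.exp (((θ * B y : ℝ) : ℂ) * Complex.I) =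
      ((1 - θ ^ 2 * V / 2 : ℝ) : ℂ) * G y + ((θ : ℂ) * Complex.I) * (G y * ((B y : ℝ) : ℂ)) +
      (-((θ : ℂ) ^ 2 / 2)) * (G y * (((B y : ℝ) : ℂ) ^ 2 - (V : ℂ))) + r y := by
    intro y
    rw [hr]
    push_cast
    ring
  have c1 : Continuous fun y => ((1 - θ ^ 2 * V / 2 : ℝ) : ℂ) * G y := continuous_const.mul hGc
  have c2 : Continuous fun y => ((θ : ℂ) * Complex.I) * (G y * ((B y : ℝ) : ℂ)) := continuous_const.mul (hGc.mul hBcc)
  have c3 : Continuous fun y => (-((θ : ℂ) ^ 2 / 2)) * (G y * (((B y : ℝ) : ℂ) ^ 2 - (V : ℂ))) :=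
    continuous_const.mul (hGc.mul ((hBcc.pow 2).sub continuous_const))
  have hint : ∫ y in c..d, G y * Complex.exp (((θ * B y : ℝ) : ℂ) * Complex.I) =
      ((1 - θ ^ 2 * V / 2 : ℝ) : ℂ) * (∫ y in c..d, G y) + ((θ : ℂ) * Complex.I) * (∫ y in c..d, G y * ((B y : ℝ) : ℂ)) +
      (-((θ : ℂ) ^ 2 / 2)) * (∫ y in c..d, G y * (((B y : ℝ) : ℂ) ^ 2 - (V : ℂ))) + ∫ y in c..d, r y := by
    simp only [hdec]
    have j123 : IntervalIntegrable (fun y => ((1 - θ ^ 2 * V / 2 : ℝ) : ℂ) * G y + ((θ : ℂ) * Complex.I) * (G y * ((B y : ℝ) : ℂ)) +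
      (-((θ : ℂ) ^ 2 / 2)) * (G y * (((B y : ℝ) : ℂ) ^ 2 - (V : ℂ)))) volume c d := ((c1.add c2).add c3).intervalIntegrable _ _
    have j12 : IntervalIntegrable (fun y => ((1 - θ ^ 2 * V / 2 : ℝ) : ℂ) * G y + ((θ : ℂ) * Complex.I) *
      (G y * ((B y : ℝ) : ℂ))) volume c d := (c1.add c2).intervalIntegrable _ _
    rw [intervalIntegral.integral_add j123 (hrc.intervalIntegrable _ _),
      intervalIntegral.integral_add j12 (c3.intervalIntegrable _ _),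
      intervalIntegral.integral_add (c1.intervalIntegrable _ _) (c2.intervalIntegrable _ _),
      intervalIntegral.integral_const_mul, intervalIntegral.integral_const_mul, intervalIntegral.integral_const_mul]
  have hrb : ‖∫ y in c..d, r y‖ ≤ (d - c) * W * (|θ| * D) ^ 3 := by
    have h1 : ∀ y ∈ Set.uIoc c d, ‖r y‖ ≤ W * (|θ| * D) ^ 3 := by
      intro y hy
      rw [uIoc_of_le hcd] at hy
      rw [hr]
      simp only
      rw [norm_mul]
      have h2 : |θ * B y| ≤ |θ| * D := by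
        rw [abs_mul]
        exact mul_le_mul_of_nonneg_left (hBD y) hθ0
      have h3 := exp_taylor (u := θ * B y) (h2.trans hθ)
      have h4 : |θ * B y| ^ 3 ≤ (|θ| * D) ^ 3 := pow_le_pow_left₀ (abs_nonneg _) h2 3
      exact mul_le_mul (hG.bd y ⟨hy.1.le, hy.2⟩) (h3.trans h4) (norm_nonneg _) hW
    have h5 := intervalIntegral.norm_integral_le_of_norm_le_const h1
    rw [abs_of_nonneg hdc] at h5
    linarith
  have hFb : ‖∫ y in c..d, G y‖ ≤ (d - c) * W := by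
    have h1 : ∀ y ∈ Set.uIoc c d, ‖G y‖ ≤ W := by
      intro y hy
      rw [uIoc_of_le hcd] at hy
      exact hG.bd y ⟨hy.1.le, hy.2⟩
    have h5 := intervalIntegral.norm_integral_le_of_norm_le_const h1
    rw [abs_of_nonneg hdc] at h5
    linarith
  set x : ℝ := θ ^ 2 * V / 2 with hx
  have hx0 : 0 ≤ x := by positivity
  have hxD : x ≤ (|θ| * D) ^ 2 / 2 := by
    rw [hx, mul_pow, sq_abs]
    have : θ ^ 2 * V ≤ θ ^ 2 * D ^ 2 := mul_le_mul_of_nonneg_left hVD (sq_nonneg _)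
    linarith
  have hp : 0 ≤ |θ| * D := by positivity
  have hx1 : x ≤ 1 := by
    have : (|θ| * D) ^ 2 ≤ 1 := pow_le_one₀ hp hθ
    linarith
  have hexp : |(1 - x) - exp (-x)| ≤ (|θ| * D) ^ 3 := by
    have h1 := Real.abs_exp_sub_one_sub_id_le (x := -x) (by rw [abs_neg, abs_of_nonneg hx0]; exact hx1)
    have e1 : (1 - x) - exp (-x) = -(exp (-x) - 1 - -x) := by ring
    rw [e1, abs_neg]
    refine h1.trans ?_
    rw [neg_sq]
    have h2 : x ^ 2 ≤ ((|θ| * D) ^ 2 / 2) ^ 2 := pow_le_pow_left₀ hx0 hxD 2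
    have h3 : ((|θ| * D) ^ 2 / 2) ^ 2 ≤ (|θ| * D) ^ 3 := by
      have h4 : 0 ≤ (|θ| * D) ^ 3 := by positivity
      have h5 : (|θ| * D) ^ 4 ≤ (|θ| * D) ^ 3 := pow_le_pow_of_le_one hp hθ (by norm_num)
      nlinarith
    linarith
  have hfin : (∫ y in c..d, G y * Complex.exp (((θ * B y : ℝ) : ℂ) * Complex.I)) - ((exp (-x) : ℝ) : ℂ) * ∫ y in c..d, G y =
      (((1 - x) - exp (-x) : ℝ) : ℂ) * (∫ y in c..d, G y) + ((θ : ℂ) * Complex.I) * (∫ y in c..d, G y * ((B y : ℝ) : ℂ)) +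
      (-((θ : ℂ) ^ 2 / 2)) * (∫ y in c..d, G y * (((B y : ℝ) : ℂ) ^ 2 - (V : ℂ))) + ∫ y in c..d, r y := by
    rw [hint]
    push_cast
    ring
  rw [hfin]
  have t1 : ‖(((1 - x) - exp (-x) : ℝ) : ℂ) * (∫ y in c..d, G y)‖ ≤ (d - c) * W * (|θ| * D) ^ 3 := by
    rw [norm_mul, Complex.norm_real, Real.norm_eq_abs]
    calc |(1 - x) - exp (-x)| * ‖∫ y in c..d, G y‖ ≤ (|θ| * D) ^ 3 * ((d - c) * W) :=
          mul_le_mul hexp hFb (norm_nonneg _) (by positivity)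
      _ = _ := by ring
  have hDe : 0 ≤ D ^ 2 * eps := by positivity
  have t2 : ‖((θ : ℂ) * Complex.I) * (∫ y in c..d, G y * ((B y : ℝ) : ℂ))‖ ≤ D ^ 2 * eps := by
    rw [norm_mul, norm_mul, Complex.norm_I, mul_one, Complex.norm_real, Real.norm_eq_abs]
    calc |θ| * ‖∫ y in c..d, G y * ((B y : ℝ) : ℂ)‖ ≤ 1 * (D ^ 2 * eps) := mul_le_mul hθ1 E1' (norm_nonneg _) zero_le_one
      _ = _ := one_mul _
  have t3 : ‖(-((θ : ℂ) ^ 2 / 2)) * (∫ y in c..d, G y * (((B y : ℝ) : ℂ) ^ 2 - (V : ℂ)))‖ ≤ D ^ 2 * eps := by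
    have h1 : ‖(-((θ : ℂ) ^ 2 / 2))‖ ≤ 1 := by
      rw [norm_neg, norm_div, norm_pow, Complex.norm_real, Real.norm_eq_abs, Complex.norm_ofNat]
      have : |θ| ^ 2 ≤ 1 := pow_le_one₀ hθ0 hθ1
      linarith
    rw [norm_mul]
    calc ‖(-((θ : ℂ) ^ 2 / 2))‖ * ‖∫ y in c..d, G y * (((B y : ℝ) : ℂ) ^ 2 - (V : ℂ))‖ ≤ 1 * (D ^ 2 * eps) :=
          mul_le_mul h1 E2' (norm_nonneg _) zero_le_one
      _ = _ := one_mul _
  refine (norm_add_le _ _).trans ((add_le_add ((norm_add_le _ _).trans (add_le_add (norm_add_le _ _) le_rfl)) le_rfl).trans ?_)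
  linarith

/-- the constant of the error terms -/
noncomputable def C3 (W0 W1 δ c d b0 : ℝ) : ℝ := 4 * W0 + 2 / δ * ((5 * W0 + (d - c) * W1) / b0 + (d - c) * W0)

lemma C3_nonneg (h : Sq a b δ) (hcd : c ≤ d) (hW0 : 0 ≤ W0) (hW1 : 0 ≤ W1) : 0 ≤ C3 W0 W1 δ c d (b 0) := by
  unfold C3
  have := h.dpos
  have := h.pos 0
  have : 0 ≤ d - c := by linarith
  positivity

lemma BB_le (h : Sq a b δ) (hc : 0 ≤ c) (hcd : c ≤ d) {n0 n hh : ℕ} (hn : n0 + hh ≤ n) (hhn : hh ≤ n) (hW0 : 0 ≤ W0)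
    (hW1 : 0 ≤ W1) {Λ ν : ℝ} (hΛ : 0 ≤ Λ) (hν : 1 ≤ ν) :
    BB δ c d W0 (W1 + W0 * (Λ * (a n0 * pt a b n0 c))) (a n * pt a b n c) (exp (-(δ * c * hh / 2))) ν ≤
      exp (-(δ * c * hh / 2)) * ν * (C3 W0 W1 δ c d (b 0) * (Λ + 1)) := by
  have hmono : Monotone a := monotone_nat_of_le_succ (fun k => by have := h.gap k; have := h.dpos; linarith)
  have hd := h.dpos
  have hb0 := h.pos 0
  have ha0 := h.one n0
  have han := h.one n
  have hdc : 0 ≤ d - c := by linarith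
  set ρ : ℝ := exp (-(δ * c * hh / 2)) with hρ
  have hρ0 : 0 < ρ := Real.exp_pos _
  have hρx : ρ * ρ * exp (δ * c * hh) = 1 := by
    rw [hρ, ← Real.exp_add, ← Real.exp_add, Real.exp_eq_one_iff]; ring
  set P : ℝ := a n * pt a b n c with hP
  have hptn := pt_pos h n c
  have hpt0 := pt_pos h n0 c
  have hP0 : 0 < P := by
    have : 0 < a n := by linarith
    positivity
  have hx0 := Real.exp_pos (δ * c * hh)
  have k1 : b 0 * exp (δ * c * hh) ≤ P := by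
    have h1 : b 0 * exp (δ * c * hh) ≤ pt a b n c := by
      refine le_trans ?_ (pt_low h hc n)
      apply mul_le_mul_of_nonneg_left _ hb0.le
      apply Real.exp_le_exp.mpr
      apply mul_le_mul_of_nonneg_left _ (by positivity)
      exact_mod_cast hhn
    rw [hP]
    nlinarith
  have k2 : (a n0 * pt a b n0 c) * exp (δ * c * hh) ≤ P := by
    have h1 := pt_ratio h hc n0 hh
    have h2 := pt_mono h hc hn
    have h3 := hmono (show n0 ≤ n by omega)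
    calc (a n0 * pt a b n0 c) * exp (δ * c * hh) = a n0 * (pt a b n0 c * exp (δ * c * hh)) := by ring
      _ ≤ a n * pt a b n c := mul_le_mul h3 (h1.trans h2) (by positivity) (by linarith)
  have q1 : 1 / P ≤ ρ * ρ / b 0 := by
    rw [div_le_div_iff₀ hP0 hb0, one_mul]
    calc b 0 = (ρ * ρ * exp (δ * c * hh)) * b 0 := by rw [hρx, one_mul]
      _ = ρ * ρ * (b 0 * exp (δ * c * hh)) := by ring
      _ ≤ ρ * ρ * P := mul_le_mul_of_nonneg_left k1 (by positivity)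
  have q2 : (a n0 * pt a b n0 c) / P ≤ ρ * ρ := by
    rw [div_le_iff₀ hP0]
    calc a n0 * pt a b n0 c = (ρ * ρ * exp (δ * c * hh)) * (a n0 * pt a b n0 c) := by rw [hρx, one_mul]
      _ = ρ * ρ * ((a n0 * pt a b n0 c) * exp (δ * c * hh)) := by ring
      _ ≤ ρ * ρ * P := mul_le_mul_of_nonneg_left k2 (by positivity)
  have hν0 : 0 ≤ ν := by linarith
  unfold BB
  have e1 : 2 * (5 * W0 + (d - c) * (W1 + W0 * (Λ * (a n0 * pt a b n0 c)))) * ν / (P * δ * ρ) =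
      (2 * ν / (δ * ρ)) * ((5 * W0 + (d - c) * W1) * (1 / P) + (d - c) * W0 * Λ * ((a n0 * pt a b n0 c) / P)) := by
    field_simp
    ring
  rw [e1]
  have e2 : (2 * ν / (δ * ρ)) * ((5 * W0 + (d - c) * W1) * (1 / P) + (d - c) * W0 * Λ * ((a n0 * pt a b n0 c) / P)) ≤
      (2 * ν / (δ * ρ)) * ((5 * W0 + (d - c) * W1) * (ρ * ρ / b 0) + (d - c) * W0 * Λ * (ρ * ρ)) := by
    gcongr
  have e3 : (2 * ν / (δ * ρ)) * ((5 * W0 + (d - c) * W1) * (ρ * ρ / b 0) + (d - c) * W0 * Λ * (ρ * ρ)) =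
      ρ * ν * (2 / δ * ((5 * W0 + (d - c) * W1) / b 0 + (d - c) * W0 * Λ)) := by
    field_simp
  rw [e3] at e2
  have e4 : 4 * ρ * W0 ≤ ρ * ν * (4 * W0) := by
    have : ρ * W0 ≤ ρ * W0 * ν := le_mul_of_one_le_right (by positivity) hν
    linarith
  have e5 : ρ * ν * (4 * W0) + ρ * ν * (2 / δ * ((5 * W0 + (d - c) * W1) / b 0 + (d - c) * W0 * Λ)) ≤
      ρ * ν * (C3 W0 W1 δ c d (b 0) * (Λ + 1)) := by
    rw [← mul_add]
    apply mul_le_mul_of_nonneg_left _ (by positivity)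
    unfold C3
    have f1 : 0 ≤ 4 * W0 * Λ := by positivity
    have f2 : 0 ≤ 2 / δ * ((5 * W0 + (d - c) * W1) / b 0) * Λ := by positivity
    have f3 : 0 ≤ 2 / δ * ((d - c) * W0) := by positivity
    have f4 : (4 * W0 + 2 / δ * ((5 * W0 + (d - c) * W1) / b 0 + (d - c) * W0)) * (Λ + 1) =
        4 * W0 + 2 / δ * ((5 * W0 + (d - c) * W1) / b 0 + (d - c) * W0 * Λ) + 4 * W0 * Λ +
        2 / δ * ((5 * W0 + (d - c) * W1) / b 0) * Λ + 2 / δ * ((d - c) * W0) := by ring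
    rw [f4]
    linarith
  linarith

/-- the sum over the blocks -/
noncomputable def SB (ag : ℕ → ℝ) (φ : ℝ) (a b : ℕ → ℝ) (Mf : ℕ → ℕ) (s : ℕ → ℕ) (H : ℕ) (θ : ℕ → ℝ) (m : ℕ) (y : ℝ) : ℝ :=
  ∑ i ∈ Finset.range m, θ i * BS ag φ a b Mf (s i) H y

/-- the characteristic function of the sum over separated blocks -/
theorem master (h : Sq a b δ) (hc : 0 < c) (hcd : c ≤ d) (hw : Wg c d W0 W1 w) {s : ℕ → ℕ} {H hh m : ℕ} (hh1 : 1 ≤ hh)
    (hs0 : hh ≤ s 0) (hs : ∀ i, s i + H + hh ≤ s (i + 1)) {A Mr : ℝ}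
    (hA : ∀ i < m, ∀ n ∈ Finset.Ico (s i) (s i + H), AA ag (Mf n) ≤ A) (hA1 : 1 ≤ A)
    (hM : ∀ i < m, ∀ n ∈ Finset.Ico (s i) (s i + H), (Mf n : ℝ) ≤ Mr) (hMr : 0 ≤ Mr)
    {θ : ℕ → ℝ} {Θ D : ℝ} (hθ : ∀ i, |θ i| ≤ Θ) (hD : H * A ≤ D) (hD1 : 1 ≤ D) (hΘ : Θ * D ≤ 1) :
    ∀ i ≤ m, ‖(∫ y in c..d, w y * Complex.exp (((SB ag φ a b Mf s H θ i y : ℝ) : ℂ) * Complex.I)) -
      ((exp (-(∑ i' ∈ Finset.range i, θ i' ^ 2 * BV ag Mf (s i') H / 2)) : ℝ) : ℂ) * ∫ y in c..d, w y‖ ≤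
      (∑ i' ∈ Finset.range i, 2 * ((d - c) * W0 * (|θ i'| * D) ^ 3)) +
        i * (2 * (D ^ 2 * (exp (-(δ * c * hh / 2)) * (2 * Mr + 1) ^ 4 *
        (C3 W0 W1 δ c d (b 0) * (m * (Θ * (H * (2 * π * Mr * A))) + 1))))) := by
  have hsm : Monotone s := monotone_nat_of_le_succ (fun i => by have := hs i; omega)
  have hΘ0 : 0 ≤ Θ := (abs_nonneg _).trans (hθ 0)
  have hW0 := hw.n0 hcd
  have hW1 := hw.n1
  have hdc : 0 ≤ d - c := by linarith
  have hC3 := C3_nonneg h hcd hW0 hW1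
  have hpi := Real.pi_pos
  set Λ : ℝ := m * (Θ * (H * (2 * π * Mr * A))) with hΛ
  have hΛ0 : 0 ≤ Λ := by positivity
  set eps : ℝ := exp (-(δ * c * hh / 2)) * (2 * Mr + 1) ^ 4 * (C3 W0 W1 δ c d (b 0) * (Λ + 1)) with heps
  have heps0 : 0 ≤ eps := by positivity
  have hν : (1:ℝ) ≤ (2 * Mr + 1) ^ 4 := one_le_pow₀ (by linarith)
  intro i
  induction i with
  | zero =>
    intro _
    unfold SB
    simp
  | succ i ih =>
    intro him
    have ih' := ih (by omega)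
    -- the amplitude
    set S : ℝ → ℝ := SB ag φ a b Mf s H θ i with hS
    set S' : ℝ → ℝ := fun y => ∑ i' ∈ Finset.range i, θ i' * ∑ n ∈ Finset.Ico (s i') (s i' + H), XD ag φ a b Mf n y with hS'
    have hSd : ∀ y, HasDerivAt S (S' y) y := by
      intro y
      rw [hS]
      unfold SB
      apply HasDerivAt.fun_sum
      intro i' _
      apply HasDerivAt.const_mul
      unfold BS
      apply HasDerivAt.fun_sum
      intro n _
      exact XX_deriv n y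
    have hS'c : Continuous S' := by
      rw [hS']
      exact continuous_finsetSum _ fun i' _ => continuous_const.mul (continuous_finsetSum _ fun n _ => XD_cont n)
    have hsi : hh ≤ s i := hs0.trans (hsm (Nat.zero_le i))
    set n0 : ℕ := s i - hh with hn0
    have hmi : (i:ℝ) ≤ m := by exact_mod_cast (by omega : i ≤ m)
    have ha0 := h.one n0
    have hpt0 := pt_pos h n0 c
    have hb : ∀ y ∈ Icc c d, |S' y| ≤ (Λ * (a n0 * pt a b n0 c)) * exp (a n0 * (y - c)) := by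
      intro y hy
      rw [hS']
      refine (Finset.abs_sum_le_sum_abs _ _).trans ?_
      have hE := Real.exp_pos (a n0 * (y - c))
      have hQ : 0 ≤ Θ * (H * (2 * π * Mr * A * (a n0 * pt a b n0 c) * exp (a n0 * (y - c)))) := by
        have : 0 ≤ a n0 := by linarith
        positivity
      calc ∑ i' ∈ Finset.range i, |θ i' * ∑ n ∈ Finset.Ico (s i') (s i' + H), XD ag φ a b Mf n y|
          ≤ ∑ _i' ∈ Finset.range i, Θ * (H * (2 * π * Mr * A * (a n0 * pt a b n0 c) * exp (a n0 * (y - c)))) := by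
            apply Finset.sum_le_sum
            intro i' hi'
            have hi'i := Finset.mem_range.mp hi'
            rw [abs_mul]
            apply mul_le_mul (hθ i') _ (abs_nonneg _) hΘ0
            refine (Finset.abs_sum_le_sum_abs _ _).trans ?_
            calc ∑ n ∈ Finset.Ico (s i') (s i' + H), |XD ag φ a b Mf n y| ≤
                ∑ _n ∈ Finset.Ico (s i') (s i' + H), 2 * π * Mr * A * (a n0 * pt a b n0 c) * exp (a n0 * (y - c)) := by
                  apply Finset.sum_le_sum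
                  intro n hn
                  have h1 := (Finset.mem_Ico.mp hn).2
                  have h2 := hs i'
                  have h3 := hsm (show i' + 1 ≤ i by omega)
                  exact der_le h hc (by omega) ag φ (Mf n) (hA i' (by omega) n hn) (hM i' (by omega) n hn) hy.1
              _ = _ := by rw [Finset.sum_const, Nat.card_Ico, nsmul_eq_mul]; congr 2; omega
        _ = i * (Θ * (H * (2 * π * Mr * A * (a n0 * pt a b n0 c) * exp (a n0 * (y - c))))) := by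
            rw [Finset.sum_const, Finset.card_range, nsmul_eq_mul]
        _ ≤ m * (Θ * (H * (2 * π * Mr * A * (a n0 * pt a b n0 c) * exp (a n0 * (y - c))))) :=
            mul_le_mul_of_nonneg_right hmi hQ
        _ = _ := by rw [hΛ]; ring
    have hG := amp_of h hcd hw hSd hS'c (n0 := n0) (L := Λ * (a n0 * pt a b n0 c)) (by
      have : 0 ≤ a n0 := by linarith
      positivity) hb
    have hst := step (ag := ag) (φ := φ) (Mf := Mf) h hcd hG (s := s i) (H := H) (by omega) (ρ := exp (-(δ * c * hh / 2)))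
      (Real.exp_pos _) (hA i (by omega)) (hM i (by omega)) (eps := eps) (by
        intro n hn
        have := (Finset.mem_Ico.mp hn).1
        exact BB_le h hc.le hcd (by omega) (by omega) hW0 hW1 hΛ0 hν) heps0 hA1 (θ := θ i) (D := D) hD hD1
      ((mul_le_mul_of_nonneg_right (hθ i) (by linarith)).trans hΘ)
    have hint : ∫ y in c..d, w y * Complex.exp (((SB ag φ a b Mf s H θ (i + 1) y : ℝ) : ℂ) * Complex.I) =
        ∫ y in c..d, (w y * Complex.exp ((S y : ℂ) * Complex.I)) *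
          Complex.exp (((θ i * BS ag φ a b Mf (s i) H y : ℝ) : ℂ) * Complex.I) := by
      apply intervalIntegral.integral_congr
      intro y _
      simp only
      rw [mul_assoc, ← Complex.exp_add, hS]
      unfold SB
      rw [Finset.sum_range_succ]
      push_cast
      ring_nf
    rw [hint]
    set F : ℂ := ∫ y in c..d, w y * Complex.exp ((S y : ℂ) * Complex.I) with hF
    set x : ℝ := θ i ^ 2 * BV ag Mf (s i) H / 2 with hx
    have hx0 : 0 ≤ x := by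
      have := BV_nonneg (ag := ag) (Mf := Mf) (s i) H
      positivity
    rw [Finset.sum_range_succ, ← hx]
    set X : ℝ := ∑ i' ∈ Finset.range i, θ i' ^ 2 * BV ag Mf (s i') H / 2 with hX
    have e1 : ((exp (-(X + x)) : ℝ) : ℂ) = ((exp (-x) : ℝ) : ℂ) * ((exp (-X) : ℝ) : ℂ) := by
      rw [← Complex.ofReal_mul, ← Real.exp_add]; congr 2; ring
    rw [e1]
    have e2 : (∫ y in c..d, (w y * Complex.exp ((S y : ℂ) * Complex.I)) *
          Complex.exp (((θ i * BS ag φ a b Mf (s i) H y : ℝ) : ℂ) * Complex.I)) -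
        ((exp (-x) : ℝ) : ℂ) * ((exp (-X) : ℝ) : ℂ) * ∫ y in c..d, w y =
        ((∫ y in c..d, (w y * Complex.exp ((S y : ℂ) * Complex.I)) *
          Complex.exp (((θ i * BS ag φ a b Mf (s i) H y : ℝ) : ℂ) * Complex.I)) - ((exp (-x) : ℝ) : ℂ) * F) +
        ((exp (-x) : ℝ) : ℂ) * (F - ((exp (-X) : ℝ) : ℂ) * ∫ y in c..d, w y) := by ring
    rw [e2]
    refine (norm_add_le _ _).trans ?_
    have e3 : ‖((exp (-x) : ℝ) : ℂ) * (F - ((exp (-X) : ℝ) : ℂ) * ∫ y in c..d, w y)‖ ≤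
        (∑ i' ∈ Finset.range i, 2 * ((d - c) * W0 * (|θ i'| * D) ^ 3)) + i * (2 * (D ^ 2 * eps)) := by
      rw [norm_mul, Complex.norm_real, Real.norm_eq_abs, abs_of_pos (Real.exp_pos _)]
      have h1 : exp (-x) ≤ 1 := Real.exp_le_one_iff.mpr (by linarith)
      calc exp (-x) * ‖F - ((exp (-X) : ℝ) : ℂ) * ∫ y in c..d, w y‖ ≤ 1 * _ :=
            mul_le_mul h1 ih' (norm_nonneg _) zero_le_one
        _ = _ := one_mul _
    have e5 : (((i + 1 : ℕ)) : ℝ) = i + 1 := by push_cast; rfl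
    rw [e5, Finset.sum_range_succ]
    linarith

end Pool.Agent.D0H48.Cl
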