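import Mathlib
import Pool.Agent.D0H48.Cl.Mas
import Pool.Agent.D0H48.Gr.Mod

/-!
Second moments of sums of model polynomials with varying degrees, and a maximal inequality.
-/

set_option autoImplicit false

open MeasureTheory Filter Topology Set Real
open Pool.Agent.H469R2.NK (e norm_e e_add conj_e e_zero)
open Pool.Agent.H383.Gen (U Bd)
open Pool.Agent.Y969.TM
open Pool.Agent.R306.GP

namespace Pool.Agent.D0H48.Cl

variable {a b : ℕ → ℝ} {δ c d : ℝ}

/-- general variables -/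
noncomputable def YY (φ : ℝ) (a b : ℕ → ℝ) (ac : ℕ → ℕ → ℝ) (Mb : ℕ → ℕ) (n : ℕ) (y : ℝ) : ℝ :=
  U (ac n) φ (pt a b n y) (Mb n)

lemma YY_cont (φ : ℝ) (a b : ℕ → ℝ) (ac : ℕ → ℕ → ℝ) (Mb : ℕ → ℕ) (n : ℕ) : Continuous (YY φ a b ac Mb n) :=
  Upt_cont (ac n) φ a b n _

/-- the constant for the correlations -/
noncomputable def C4 (δ b0 : ℝ) : ℝ := 4 + 10 / (b0 * δ)

lemma C4_pos (h : Sq a b δ) : 0 < C4 δ (b 0) := by
  unfold C4
  have := h.pos 0
  have := h.dpos
  positivity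

lemma corr (h : Sq a b δ) (hc : 0 ≤ c) (hcd : c ≤ d) (φ : ℝ) (ag ag' : ℕ → ℝ) {n n' : ℕ} (hn : n < n') (M M' : ℕ) :
    |∫ y in c..d, U ag φ (pt a b n y) M * U ag' φ (pt a b n' y) M'| ≤
      AA ag M * AA ag' M' * (C4 δ (b 0) * exp (-(δ * c * n' / 2))) := by
  have hG : Amp a c d n 1 0 (fun _ => (1:ℂ)) := by
    refine ⟨le_rfl, fun y _ => by simp, ⟨fun _ => 0, fun y => hasDerivAt_const y 1, continuous_const, fun y _ => by simp⟩⟩
  set ρ : ℝ := exp (-(δ * c * n' / 2)) with hρ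
  have hρ0 : 0 < ρ := Real.exp_pos _
  have h1 := amp_two h hcd hG ag ag' φ le_rfl hn M M' hρ0
  have e1 : (∫ y in c..d, (1:ℂ) * (((U ag φ (pt a b n y) M : ℝ) : ℂ) * ((U ag' φ (pt a b n' y) M' : ℝ) : ℂ))) =
      ((∫ y in c..d, U ag φ (pt a b n y) M * U ag' φ (pt a b n' y) M' : ℝ) : ℂ) := by
    rw [← intervalIntegral.integral_ofReal]
    apply intervalIntegral.integral_congr
    intro y _
    simp only
    push_cast
    ring
  rw [e1, Complex.norm_real, Real.norm_eq_abs] at h1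
  refine h1.trans ?_
  have hAA := AA_nonneg ag M
  have hAA' := AA_nonneg ag' M'
  apply mul_le_mul_of_nonneg_left _ (by positivity)
  unfold BB C4
  have hd := h.dpos
  have hb0 := h.pos 0
  have han := h.one n'
  have hpt := pt_pos h n' c
  have hρx : ρ * ρ * exp (δ * c * n') = 1 := by
    rw [hρ, ← Real.exp_add, ← Real.exp_add, Real.exp_eq_one_iff]; ring
  have k1 : b 0 * exp (δ * c * n') ≤ a n' * pt a b n' c := by
    have := pt_low h hc n'
    nlinarith
  have hP : 0 < a n' * pt a b n' c := by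
    have : 0 < a n' := by linarith
    positivity
  have q1 : 1 / (a n' * pt a b n' c) ≤ ρ * ρ / b 0 := by
    rw [div_le_div_iff₀ hP hb0, one_mul]
    calc b 0 = (ρ * ρ * exp (δ * c * n')) * b 0 := by rw [hρx, one_mul]
      _ = ρ * ρ * (b 0 * exp (δ * c * n')) := by ring
      _ ≤ _ := mul_le_mul_of_nonneg_left k1 (by positivity)
  have e2 : 2 * (5 * 1 + (d - c) * 0) * 1 / (a n' * pt a b n' c * δ * ρ) = 10 / (δ * ρ) * (1 / (a n' * pt a b n' c)) := by
    field_simp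
    ring
  rw [e2]
  have e3 : 10 / (δ * ρ) * (1 / (a n' * pt a b n' c)) ≤ 10 / (δ * ρ) * (ρ * ρ / b 0) :=
    mul_le_mul_of_nonneg_left q1 (by positivity)
  have e4 : 10 / (δ * ρ) * (ρ * ρ / b 0) = 10 / (b 0 * δ) * ρ := by field_simp
  rw [e4] at e3
  linarith

/-- second moment of a sum of the variables -/
lemma orth (h : Sq a b δ) (hc : 0 ≤ c) (hcd : c ≤ d) (φ : ℝ) (ac : ℕ → ℕ → ℝ) (Mb : ℕ → ℕ) (S : Finset ℕ) {P : ℕ → ℝ}
    (hP : ∀ n ∈ S, AA (ac n) (Mb n) ≤ P n) (hmono : ∀ n ∈ S, ∀ n' ∈ S, n ≤ n' → P n ≤ P n') :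
    ∫ y in c..d, (∑ n ∈ S, YY φ a b ac Mb n y) ^ 2 ≤
      ∑ n ∈ S, ((∫ y in c..d, (YY φ a b ac Mb n y) ^ 2) + 2 * (n * (P n ^ 2 * (C4 δ (b 0) * exp (-(δ * c * n / 2)))))) := by
  classical
  have hYc := YY_cont φ a b ac Mb
  have e1 : ∀ y, (∑ n ∈ S, YY φ a b ac Mb n y) ^ 2 = ∑ n ∈ S, ∑ n' ∈ S, YY φ a b ac Mb n y * YY φ a b ac Mb n' y := by
    intro y; rw [sq, Finset.sum_mul_sum]
  simp only [e1]
  have hii : ∀ n ∈ S, IntervalIntegrable (fun y => ∑ n' ∈ S, YY φ a b ac Mb n y * YY φ a b ac Mb n' y) volume c d :=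
    fun n _ => (continuous_finsetSum _ fun n' _ => (hYc n).mul (hYc n')).intervalIntegrable _ _
  rw [intervalIntegral.integral_finsetSum hii]
  have hij : ∀ n ∈ S, ∫ y in c..d, ∑ n' ∈ S, YY φ a b ac Mb n y * YY φ a b ac Mb n' y =
      ∑ n' ∈ S, ∫ y in c..d, YY φ a b ac Mb n y * YY φ a b ac Mb n' y := by
    intro n _
    rw [intervalIntegral.integral_finsetSum]
    intro n' _
    exact ((hYc n).mul (hYc n')).intervalIntegrable _ _
  rw [Finset.sum_congr rfl hij]
  set Q : ℕ → ℝ := fun n => P n ^ 2 * (C4 δ (b 0) * exp (-(δ * c * n / 2))) with hQ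
  have hC4 := C4_pos h
  have hQ0 : ∀ n, 0 ≤ Q n := fun n => by rw [hQ]; positivity
  have hlt : ∀ n ∈ S, ∀ n' ∈ S, n < n' → ∫ y in c..d, YY φ a b ac Mb n y * YY φ a b ac Mb n' y ≤ Q n' := by
    intro n hn n' hn' hnn
    refine (le_abs_self _).trans ((corr h hc hcd φ (ac n) (ac n') hnn (Mb n) (Mb n')).trans ?_)
    rw [hQ]
    simp only
    have h1 := hP n hn
    have h2 := hP n' hn'
    have h3 := hmono n hn n' hn' hnn.le
    have h4 := AA_nonneg (ac n) (Mb n)
    have h5 := AA_nonneg (ac n') (Mb n')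
    apply mul_le_mul_of_nonneg_right _ (by positivity)
    rw [sq]
    exact mul_le_mul (h1.trans h3) h2 h5 (by linarith)
  have hpt : ∀ n ∈ S, ∀ n' ∈ S, ∫ y in c..d, YY φ a b ac Mb n y * YY φ a b ac Mb n' y ≤
      (if n = n' then ∫ y in c..d, (YY φ a b ac Mb n y) ^ 2 else 0) + (if n < n' then Q n' else 0) +
        (if n' < n then Q n else 0) := by
    intro n hn n' hn'
    rcases lt_trichotomy n n' with hl | he | hl
    · rw [if_neg hl.ne, if_pos hl, if_neg (by omega)]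
      have := hlt n hn n' hn' hl
      linarith
    · subst he
      rw [if_pos rfl, if_neg (lt_irrefl _)]
      simp only [sq, add_zero, le_refl]
    · rw [if_neg hl.ne', if_neg (by omega), if_pos hl]
      have h1 := hlt n' hn' n hn hl
      have h2 : ∫ y in c..d, YY φ a b ac Mb n y * YY φ a b ac Mb n' y = ∫ y in c..d, YY φ a b ac Mb n' y * YY φ a b ac Mb n y := by
        apply intervalIntegral.integral_congr
        intro y _
        simp only
        ring
      rw [h2]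
      linarith
  have hcount : ∀ n', (∑ n ∈ S, if n < n' then Q n' else 0) ≤ n' * Q n' := by
    intro n'
    rw [← Finset.sum_filter, Finset.sum_const, nsmul_eq_mul]
    apply mul_le_mul_of_nonneg_right _ (hQ0 n')
    have : (S.filter (fun n => n < n')).card ≤ (Finset.range n').card := by
      apply Finset.card_le_card
      intro x hx
      exact Finset.mem_range.mpr (Finset.mem_filter.mp hx).2
    rw [Finset.card_range] at this
    exact_mod_cast this
  calc ∑ n ∈ S, ∑ n' ∈ S, ∫ y in c..d, YY φ a b ac Mb n y * YY φ a b ac Mb n' y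
      ≤ ∑ n ∈ S, ∑ n' ∈ S, ((if n = n' then ∫ y in c..d, (YY φ a b ac Mb n y) ^ 2 else 0) + (if n < n' then Q n' else 0) +
        (if n' < n then Q n else 0)) := Finset.sum_le_sum fun n hn => Finset.sum_le_sum fun n' hn' => hpt n hn n' hn'
    _ = (∑ n ∈ S, ∫ y in c..d, (YY φ a b ac Mb n y) ^ 2) + (∑ n' ∈ S, ∑ n ∈ S, if n < n' then Q n' else 0) +
        ∑ n ∈ S, ∑ n' ∈ S, (if n' < n then Q n else 0) := by
        simp only [Finset.sum_add_distrib]
        congr 1
        · congr 1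
          · apply Finset.sum_congr rfl
            intro n hn
            rw [Finset.sum_ite_eq, if_pos hn]
          · rw [Finset.sum_comm]
    _ ≤ (∑ n ∈ S, ∫ y in c..d, (YY φ a b ac Mb n y) ^ 2) + (∑ n' ∈ S, n' * Q n') + ∑ n ∈ S, n * Q n := by
        gcongr with n' _ n _
        · exact hcount n'
        · exact hcount n
    _ = _ := by
        rw [Finset.sum_add_distrib, ← Finset.mul_sum]
        ring

/-- the square function of the dyadic decomposition -/
noncomputable def RM : ℕ → (ℕ → ℝ) → ℝ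
  | 0, x => (x 0) ^ 2
  | j + 1, x => (∑ i ∈ Finset.range (2 ^ (j + 1)), x i) ^ 2 + (RM j x + RM j (fun i => x (i + 2 ^ j)))

lemma RM_nonneg (j : ℕ) : ∀ x : ℕ → ℝ, 0 ≤ RM j x := by
  induction j with
  | zero => intro x; exact sq_nonneg _
  | succ j ih =>
    intro x
    have h1 := ih x
    have h2 := ih (fun i => x (i + 2 ^ j))
    unfold RM
    positivity

lemma sum_range_sq_le (j : ℕ) : ∀ x : ℕ → ℝ, (∑ i ∈ Finset.range (2 ^ j), x i) ^ 2 ≤ RM j x := by
  intro x
  cases j with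
  | zero => simp [RM]
  | succ j =>
    unfold RM
    have h1 := RM_nonneg j x
    have h2 := RM_nonneg j (fun i => x (i + 2 ^ j))
    linarith

/-- the maximal inequality -/
lemma RM_max (j : ℕ) : ∀ x : ℕ → ℝ, ∀ r ≤ 2 ^ j, (∑ i ∈ Finset.range r, x i) ^ 2 ≤ (j + 1) * RM j x := by
  induction j with
  | zero =>
    intro x r hr
    have : r = 0 ∨ r = 1 := by
      have : 2 ^ 0 = 1 := rfl
      omega
    rcases this with h | h
    · subst h
      simp [RM]
      positivity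
    · subst h
      simp [RM]
  | succ j ih =>
    intro x r hr
    have h1 := RM_nonneg j x
    have h2 := RM_nonneg j (fun i => x (i + 2 ^ j))
    have hj : (0:ℝ) ≤ j := Nat.cast_nonneg j
    rcases Nat.lt_or_ge r (2 ^ j) with hlt | hge
    · have h3 := ih x r hlt.le
      unfold RM
      push_cast
      have h4 : 0 ≤ (∑ i ∈ Finset.range (2 ^ (j + 1)), x i) ^ 2 := sq_nonneg _
      nlinarith
    · obtain ⟨t, rfl⟩ := Nat.exists_eq_add_of_le hge
      have ht : t ≤ 2 ^ j := by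
        rw [pow_succ] at hr; omega
      have h3 := ih (fun i => x (i + 2 ^ j)) t ht
      have h5 := sum_range_sq_le j x
      rw [Finset.sum_range_add]
      have e1 : ∑ k ∈ Finset.range t, x (2 ^ j + k) = ∑ i ∈ Finset.range t, x (i + 2 ^ j) := by
        apply Finset.sum_congr rfl
        intro k _
        rw [add_comm]
      rw [e1]
      set A := ∑ i ∈ Finset.range (2 ^ j), x i with hA
      set B := ∑ i ∈ Finset.range t, x (i + 2 ^ j) with hB
      unfold RM
      push_cast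
      have h4 : 0 ≤ (∑ i ∈ Finset.range (2 ^ (j + 1)), x i) ^ 2 := sq_nonneg _
      -- (A+B)^2 ≤ (j+2)(A^2 + B^2/(j+1))
      have h6 : (A + B) ^ 2 * (j + 1) ≤ ((j:ℝ) + 2) * (A ^ 2 * (j + 1) + B ^ 2) := by
        nlinarith [sq_nonneg (A * (j + 1) - B)]
      have h7 : (A + B) ^ 2 * (j + 1) ≤ ((j:ℝ) + 2) * (RM j x + RM j (fun i => x (i + 2 ^ j))) * (j + 1) := by
        refine h6.trans ?_
        have h8 : A ^ 2 * (j + 1) + B ^ 2 ≤ (RM j x + RM j (fun i => x (i + 2 ^ j))) * (j + 1) := by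
          have : A ^ 2 * (j + 1) ≤ RM j x * (j + 1) := mul_le_mul_of_nonneg_right h5 (by positivity)
          linarith
        calc ((j:ℝ) + 2) * (A ^ 2 * (j + 1) + B ^ 2) ≤ ((j:ℝ) + 2) * ((RM j x + RM j (fun i => x (i + 2 ^ j))) * (j + 1)) :=
              mul_le_mul_of_nonneg_left h8 (by positivity)
          _ = _ := by ring
      have h9 := le_of_mul_le_mul_right h7 (by positivity : (0:ℝ) < j + 1)
      have h10 : 0 ≤ ((j:ℝ) + 2) * (∑ i ∈ Finset.range (2 ^ (j + 1)), x i) ^ 2 := by positivity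
      nlinarith

/-- the integral of the square function -/
lemma RM_int (hcd : c ≤ d) {Y : ℕ → ℝ → ℝ} (hY : ∀ n, Continuous (Y n)) {u : ℕ → ℝ}
    (hu : ∀ n1 n2 : ℕ, n1 ≤ n2 → ∫ y in c..d, (∑ n ∈ Finset.Ico n1 n2, Y n y) ^ 2 ≤ ∑ n ∈ Finset.Ico n1 n2, u n) (j : ℕ) :
    ∀ s : ℕ, (Continuous fun y => RM j (fun i => Y (s + i) y)) ∧
      ∫ y in c..d, RM j (fun i => Y (s + i) y) ≤ (j + 1) * ∑ n ∈ Finset.Ico s (s + 2 ^ j), u n := by
  induction j with
  | zero =>
    intro s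
    refine ⟨by simp only [RM]; exact (hY _).pow 2, ?_⟩
    have h1 := hu s (s + 1) (by omega)
    simp only [RM, add_zero, pow_zero, Nat.cast_zero, zero_add, one_mul]
    refine le_trans (le_of_eq ?_) h1
    apply intervalIntegral.integral_congr
    intro y _
    simp
  | succ j ih =>
    intro s
    obtain ⟨c1, i1⟩ := ih s
    obtain ⟨c2, i2⟩ := ih (s + 2 ^ j)
    have e0 : ∀ y, RM (j + 1) (fun i => Y (s + i) y) = (∑ n ∈ Finset.Ico s (s + 2 ^ (j + 1)), Y n y) ^ 2 +
        (RM j (fun i => Y (s + i) y) + RM j (fun i => Y (s + 2 ^ j + i) y)) := by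
      intro y
      have e1 : ∑ i ∈ Finset.range (2 ^ (j + 1)), Y (s + i) y = ∑ n ∈ Finset.Ico s (s + 2 ^ (j + 1)), Y n y := by
        rw [Finset.sum_Ico_eq_sum_range]
        simp
      have e2 : (fun i => Y (s + (i + 2 ^ j)) y) = fun i => Y (s + 2 ^ j + i) y := by
        funext i; congr 1; ring
      conv_lhs => unfold RM
      rw [e1, e2]
    have c0 : Continuous fun y => (∑ n ∈ Finset.Ico s (s + 2 ^ (j + 1)), Y n y) ^ 2 :=
      (continuous_finsetSum _ fun n _ => hY n).pow 2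
    simp only [e0]
    refine ⟨c0.add (c1.add c2), ?_⟩
    have c12 : IntervalIntegrable (fun y => RM j (fun i => Y (s + i) y) + RM j (fun i => Y (s + 2 ^ j + i) y)) volume c d :=
      (c1.add c2).intervalIntegrable _ _
    rw [intervalIntegral.integral_add (c0.intervalIntegrable _ _) c12,
      intervalIntegral.integral_add (c1.intervalIntegrable _ _) (c2.intervalIntegrable _ _)]
    have h1 := hu s (s + 2 ^ (j + 1)) (Nat.le_add_right _ _)
    have h3 : ∑ n ∈ Finset.Ico s (s + 2 ^ (j + 1)), u n = ∑ n ∈ Finset.Ico s (s + 2 ^ j), u n +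
        ∑ n ∈ Finset.Ico (s + 2 ^ j) (s + 2 ^ j + 2 ^ j), u n := by
      rw [Finset.sum_Ico_consecutive _ (Nat.le_add_right _ _) (Nat.le_add_right _ _)]
      congr 2
      rw [pow_succ]; ring
    push_cast
    rw [h3] at h1 ⊢
    have e5 : ((j:ℝ) + 1 + 1) * (∑ n ∈ Finset.Ico s (s + 2 ^ j), u n + ∑ n ∈ Finset.Ico (s + 2 ^ j) (s + 2 ^ j + 2 ^ j), u n) =
        (∑ n ∈ Finset.Ico s (s + 2 ^ j), u n + ∑ n ∈ Finset.Ico (s + 2 ^ j) (s + 2 ^ j + 2 ^ j), u n) +
        ((j + 1) * ∑ n ∈ Finset.Ico s (s + 2 ^ j), u n + (j + 1) * ∑ n ∈ Finset.Ico (s + 2 ^ j) (s + 2 ^ j + 2 ^ j), u n) := by ring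
    rw [e5]
    linarith

/-- almost everywhere bounds for the maxima of partial sums -/
theorem RM_ae (hcd : c ≤ d) {Y : ℕ → ℝ → ℝ} (hY : ∀ n, Continuous (Y n)) {u : ℕ → ℝ}
    (hu : ∀ n1 n2 : ℕ, n1 ≤ n2 → ∫ y in c..d, (∑ n ∈ Finset.Ico n1 n2, Y n y) ^ 2 ≤ ∑ n ∈ Finset.Ico n1 n2, u n)
    {lam : ℕ → ℝ} (hlam : ∀ j, 0 < lam j)
    (hsum : Summable fun j : ℕ => ((j:ℝ) + 1) * (((j:ℝ) + 1) * ∑ n ∈ Finset.range (2 ^ j), u n) / lam j) :
    ∀ᵐ y ∂(volume.restrict (Icc c d)), ∀ ε : ℝ, 0 < ε → ∀ᶠ j : ℕ in atTop, ∀ N ≤ 2 ^ j,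
      (∑ n ∈ Finset.range N, Y n y) ^ 2 ≤ ε * lam j := by
  have h1 := ae_zero' (c := c) (d := d) hcd (g := fun j y => ((j:ℝ) + 1) * RM j (fun i => Y (0 + i) y) / lam j)
    (fun j => ((continuous_const.mul (RM_int hcd hY hu j 0).1).div_const _)) hsum (j0 := 0) ?_ ?_
  · filter_upwards [h1] with y hy ε hε
    filter_upwards [hy.eventually (gt_mem_nhds hε)] with j hj N hN
    rw [div_lt_iff₀ (hlam j)] at hj
    have h2 := RM_max j (fun i => Y (0 + i) y) N hN
    simp only [zero_add] at h2 hj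
    exact h2.trans hj.le
  · intro j _
    have h2 := (RM_int hcd hY hu j 0).2
    rw [zero_add, ← Finset.range_eq_Ico] at h2
    have e1 : ∫ y in c..d, ((j:ℝ) + 1) * RM j (fun i => Y (0 + i) y) / lam j =
        ((j:ℝ) + 1) * (∫ y in c..d, RM j (fun i => Y (0 + i) y)) / lam j := by
      rw [intervalIntegral.integral_div, intervalIntegral.integral_const_mul]
    rw [e1]
    apply div_le_div_of_nonneg_right _ (hlam j).le
    exact mul_le_mul_of_nonneg_left h2 (by positivity)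
  · intro j y
    have := RM_nonneg j (fun i => Y (0 + i) y)
    have := hlam j
    positivity

end Pool.Agent.D0H48.Cl
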