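import Mathlib
import Pool.Agent.D0H48.Cl.Orth

/-!
Reduction of the sums of the error term to sums of model polynomials of small degree.
-/

set_option autoImplicit false

open MeasureTheory Filter Topology Set Real
open Pool.Agent.H469R2.NK (e norm_e e_add conj_e e_zero)
open Pool.Agent.H383.Gen (U Bd)
open Pool.Agent.Y969.TM
open Pool.Agent.R306.GP

namespace Pool.Agent.D0H48.Cl

variable {E : ℝ → ℝ} {af : ℕ → ℝ} {φ : ℝ} {a b : ℕ → ℝ} {δ c d : ℝ}

/-- degrees -/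
def Mq (q n : ℕ) : ℕ := 2 ^ (Nat.log 2 n / q)

lemma Mq_one (q n : ℕ) : 1 ≤ Mq q n := Nat.one_le_two_pow

lemma Mq_le (q n : ℕ) : Mq q n ≤ n + 1 := by
  unfold Mq
  rcases Nat.eq_zero_or_pos n with h | h
  · subst h; simp
  · calc 2 ^ (Nat.log 2 n / q) ≤ 2 ^ Nat.log 2 n := Nat.pow_le_pow_right (by norm_num) (Nat.div_le_self _ _)
      _ ≤ n := Nat.pow_log_le_self 2 (by omega)
      _ ≤ n + 1 := by omega

/-- exponentials beat powers, for all indices -/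
lemma exp_poly {s : ℝ} (hs : 0 < s) (K : ℕ) : ∃ C : ℝ, 0 < C ∧ ∀ n : ℕ, ((n:ℝ) + 1) ^ K * exp (-(s * n)) ≤ C / ((n:ℝ) + 1) := by
  refine ⟨(K + 1).factorial * (s ^ (K + 1))⁻¹ * exp s, by positivity, fun n => ?_⟩
  have hn : (0:ℝ) < (n:ℝ) + 1 := by positivity
  have h1 := Real.pow_div_factorial_le_exp (s * ((n:ℝ) + 1)) (by positivity) (K + 1)
  rw [div_le_iff₀ (by positivity)] at h1
  rw [le_div_iff₀ hn]
  have h2 : exp (s * ((n:ℝ) + 1)) = exp s * exp (s * n) := by rw [← Real.exp_add]; congr 1; ring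
  rw [h2, mul_pow] at h1
  have h3 : exp (s * n) * exp (-(s * n)) = 1 := by rw [← Real.exp_add]; simp
  calc ((n:ℝ) + 1) ^ K * exp (-(s * n)) * ((n:ℝ) + 1) = (s ^ (K + 1))⁻¹ * (s ^ (K + 1) * ((n:ℝ) + 1) ^ (K + 1)) * exp (-(s * n)) := by
        rw [← mul_assoc (s ^ (K + 1))⁻¹, inv_mul_cancel₀ (by positivity), one_mul, pow_succ]; ring
    _ ≤ (s ^ (K + 1))⁻¹ * (exp s * exp (s * n) * ((K + 1).factorial : ℝ)) * exp (-(s * n)) := by gcongr
    _ = ((K + 1).factorial : ℝ) * (s ^ (K + 1))⁻¹ * exp s * (exp (s * n) * exp (-(s * n))) := by ring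
    _ = _ := by rw [h3, mul_one]

/-- the second moments of the variables of degree between `Mq` and `(n+1)^p` -/
lemma V_sq (hb : Bd af) (h : Sq a b δ) (hc : 0 < c) (hcd : c ≤ d) (q p : ℕ) (hp : 1 ≤ p) :
    ∃ C : ℝ, 0 < C ∧ ∀ n1 n2 : ℕ, n1 ≤ n2 →
      ∫ y in c..d, (∑ n ∈ Finset.Ico n1 n2, YY φ a b (fun n => cutc af (Mq q n)) (fun n => (n + 1) ^ p) n y) ^ 2 ≤
        ∑ n ∈ Finset.Ico n1 n2, C * ((Mq q n : ℕ) : ℝ) ^ (-(23/25):ℝ) := by
  obtain ⟨Cs, hCs, hAA⟩ := AA_le hb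
  obtain ⟨L, hL, hZ⟩ := Pool.Agent.D0H48.Gr.ZZ_cut φ hb
  have hCp := Cp_pos hc hcd h.dpos
  have hsc : 0 < δ * c := mul_pos h.dpos hc
  have hb0 := h.pos 0
  have hC4 := C4_pos h
  have hdc : 0 ≤ d - c := by linarith
  obtain ⟨D1, hD1, hE1⟩ := exp_poly (s := δ * c) hsc (4 * p + 4 * p)
  obtain ⟨D2, hD2, hE2⟩ := exp_poly (s := δ * c / 2) (by positivity) (4 * p + 1)
  refine ⟨(d - c) * (4 * L ^ 2) + Cs ^ 2 * (2 * Cp c d δ * (3 ^ 4 / b 0)) * D1 + 2 * (Cs ^ 2 * C4 δ (b 0)) * D2, by positivity, ?_⟩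
  intro n1 n2 _
  have h1 := orth h hc.le hcd φ (fun n => cutc af (Mq q n)) (fun n => (n + 1) ^ p) (Finset.Ico n1 n2)
    (P := fun n => Cs * ((n:ℝ) + 1) ^ (2 * p)) ?_ ?_
  · refine h1.trans (Finset.sum_le_sum fun n _ => ?_)
    have hn1 : (1:ℝ) ≤ (n:ℝ) + 1 := by
      have : (0:ℝ) ≤ n := Nat.cast_nonneg n
      linarith
    have hM1 : (1:ℝ) ≤ ((Mq q n : ℕ) : ℝ) := by exact_mod_cast Mq_one q n
    have hMn : ((Mq q n : ℕ) : ℝ) ≤ (n:ℝ) + 1 := by exact_mod_cast Mq_le q n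
    have hinv : 1 / ((n:ℝ) + 1) ≤ ((Mq q n : ℕ) : ℝ) ^ (-(23/25):ℝ) := by
      rw [one_div, ← Real.rpow_neg_one]
      calc ((n:ℝ) + 1) ^ (-1:ℝ) ≤ ((Mq q n : ℕ) : ℝ) ^ (-1:ℝ) :=
            Real.rpow_le_rpow_of_nonpos (by linarith) hMn (by norm_num)
        _ ≤ _ := Real.rpow_le_rpow_of_exponent_le hM1 (by norm_num)
    set Z : ℝ := ((Mq q n : ℕ) : ℝ) ^ (-(23/25):ℝ) with hZd
    have hZ0 : 0 ≤ Z := by positivity
    have hpt := pt_pos h n c
    have i1 : ∫ y in c..d, (YY φ a b (fun n => cutc af (Mq q n)) (fun n => (n + 1) ^ p) n y) ^ 2 ≤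
        (d - c) * (4 * L ^ 2) * Z + Cs ^ 2 * (2 * Cp c d δ * (3 ^ 4 / b 0)) * (D1 * Z) := by
      have k1 := Pool.Agent.D0H48.Gr.pow_int_le h hc hcd (cutc af (Mq q n)) φ 2 ((n + 1) ^ p) n
      refine k1.trans (add_le_add ?_ ?_)
      · rw [mul_assoc]
        apply mul_le_mul_of_nonneg_left _ hdc
        have k2 := hZ (Mq q n) ((n + 1) ^ p) 1 (Mq_one q n) le_rfl
        rw [mul_one] at k2
        refine k2.trans (le_of_eq ?_)
        rw [hZd, mul_pow, mul_pow, ← Real.rpow_natCast (((Mq q n : ℕ) : ℝ) ^ (-(23/50):ℝ)), ← Real.rpow_mul (by positivity),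
          ← Real.rpow_natCast ((((2:ℕ) : ℝ)) ^ (1/2:ℝ)), ← Real.rpow_mul (by positivity)]
        norm_num
        ring
      · have k3 : AA (cutc af (Mq q n)) ((n + 1) ^ p) ≤ Cs * ((n:ℝ) + 1) ^ (2 * p) := by
          refine (AA_cut _ _).trans ((hAA _).trans (le_of_eq ?_))
          push_cast
          rw [← pow_mul]; congr 2; ring
        have k4 : ((2 * (n + 1) ^ p + 1 : ℕ) : ℝ) ^ (2 ^ 2) ≤ 3 ^ 4 * ((n:ℝ) + 1) ^ (4 * p) := by
          push_cast
          have k5 : (1:ℝ) ≤ ((n:ℝ) + 1) ^ p := one_le_pow₀ hn1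
          calc (2 * ((n:ℝ) + 1) ^ p + 1) ^ (2 ^ 2) ≤ (3 * ((n:ℝ) + 1) ^ p) ^ (2 ^ 2) := by
                apply pow_le_pow_left₀ (by positivity)
                linarith
            _ = 3 ^ 4 * ((n:ℝ) + 1) ^ (4 * p) := by
                rw [mul_pow, ← pow_mul]
                congr 2
                ring
        have k6 : 1 / pt a b n c ≤ (1 / b 0) * exp (-(δ * c * n)) := by
          have k7 := pt_low h hc.le n
          rw [Real.exp_neg, one_div, one_div, ← mul_inv]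
          exact inv_anti₀ (by positivity) k7
        have k8 := AA_nonneg (cutc af (Mq q n)) ((n + 1) ^ p)
        calc AA (cutc af (Mq q n)) ((n + 1) ^ p) ^ 2 * (2 * Cp c d δ * (((2 * (n + 1) ^ p + 1 : ℕ) : ℝ) ^ (2 ^ 2) / pt a b n c))
            = AA (cutc af (Mq q n)) ((n + 1) ^ p) ^ 2 * (2 * Cp c d δ * (((2 * (n + 1) ^ p + 1 : ℕ) : ℝ) ^ (2 ^ 2) * (1 / pt a b n c))) := by
              rw [mul_one_div]
          _ ≤ (Cs * ((n:ℝ) + 1) ^ (2 * p)) ^ 2 * (2 * Cp c d δ * ((3 ^ 4 * ((n:ℝ) + 1) ^ (4 * p)) * ((1 / b 0) * exp (-(δ * c * n))))) := by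
              gcongr
          _ = Cs ^ 2 * (2 * Cp c d δ * (3 ^ 4 / b 0)) * (((n:ℝ) + 1) ^ (4 * p + 4 * p) * exp (-(δ * c * n))) := by
              rw [mul_pow, ← pow_mul, pow_add]
              have : 2 * p * 2 = 4 * p := by ring
              rw [this]
              ring
          _ ≤ Cs ^ 2 * (2 * Cp c d δ * (3 ^ 4 / b 0)) * (D1 * Z) := by
              apply mul_le_mul_of_nonneg_left _ (by positivity)
              refine (hE1 n).trans ?_
              rw [div_eq_mul_one_div]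
              exact mul_le_mul_of_nonneg_left hinv hD1.le
    have i2 : 2 * ((n:ℝ) * ((Cs * ((n:ℝ) + 1) ^ (2 * p)) ^ 2 * (C4 δ (b 0) * exp (-(δ * c * n / 2))))) ≤
        2 * (Cs ^ 2 * C4 δ (b 0)) * (D2 * Z) := by
      have j1 := hE2 n
      have j2 : exp (-(δ * c * n / 2)) = exp (-(δ * c / 2 * n)) := by congr 1; ring
      rw [j2]
      calc 2 * ((n:ℝ) * ((Cs * ((n:ℝ) + 1) ^ (2 * p)) ^ 2 * (C4 δ (b 0) * exp (-(δ * c / 2 * n)))))
          ≤ 2 * (((n:ℝ) + 1) * ((Cs * ((n:ℝ) + 1) ^ (2 * p)) ^ 2 * (C4 δ (b 0) * exp (-(δ * c / 2 * n))))) := by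
            gcongr
            linarith
        _ = 2 * (Cs ^ 2 * C4 δ (b 0)) * (((n:ℝ) + 1) ^ (4 * p + 1) * exp (-(δ * c / 2 * n))) := by
            rw [mul_pow, ← pow_mul, pow_succ]
            have : 2 * p * 2 = 4 * p := by ring
            rw [this]
            ring
        _ ≤ _ := by
            apply mul_le_mul_of_nonneg_left _ (by positivity)
            refine j1.trans ?_
            rw [div_eq_mul_one_div]
            exact mul_le_mul_of_nonneg_left hinv hD2.le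
    calc _ ≤ ((d - c) * (4 * L ^ 2) * Z + Cs ^ 2 * (2 * Cp c d δ * (3 ^ 4 / b 0)) * (D1 * Z)) + 2 * (Cs ^ 2 * C4 δ (b 0)) * (D2 * Z) :=
          add_le_add i1 i2
      _ = _ := by ring
  · intro n _
    refine (AA_cut _ _).trans ((hAA _).trans (le_of_eq ?_))
    push_cast
    rw [← pow_mul]; congr 2; ring
  · intro n _ n' _ hnn
    have : (n:ℝ) ≤ n' := by exact_mod_cast hnn
    gcongr

lemma geo_floor {q : ℕ} (hq1 : 1 ≤ q) {κ : ℝ} (hκ : 0 ≤ κ) (j : ℕ) : (((2 ^ (j / q) : ℕ)) : ℝ) ^ (-κ) ≤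
    (2:ℝ) ^ κ * ((2:ℝ) ^ (-(κ / q))) ^ j := by
  have hq0 : (0:ℝ) < q := by exact_mod_cast hq1
  push_cast
  rw [← Real.rpow_natCast, ← Real.rpow_mul (by norm_num), ← Real.rpow_natCast, ← Real.rpow_mul (by norm_num),
    ← Real.rpow_add (by norm_num)]
  apply Real.rpow_le_rpow_of_exponent_le (by norm_num)
  have h1 : j < q * (j / q + 1) := Nat.lt_mul_div_succ j (by omega)
  have h2 : (j:ℝ) ≤ q * (((j / q : ℕ) : ℝ) + 1) := by exact_mod_cast h1.le
  have h3 : (j:ℝ) / q ≤ ((j / q : ℕ) : ℝ) + 1 := by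
    rw [div_le_iff₀ hq0]; linarith
  have h4 : κ + -(κ / (q:ℝ)) * j = κ - κ * (j / q) := by field_simp; ring
  rw [h4]
  nlinarith

/-- the sum of the second moments over a dyadic range -/
lemma sum_Mq (q : ℕ) (j : ℕ) :
    ∑ n ∈ Finset.range (2 ^ j), ((Mq q n : ℕ) : ℝ) ^ (-(23/25):ℝ) ≤ 2 * 2 ^ j * ((2 ^ (j / (2 * q)) : ℕ) : ℝ) ^ (-(23/25):ℝ) := by
  set T : ℝ := ((2 ^ (j / (2 * q)) : ℕ) : ℝ) ^ (-(23/25):ℝ) with hT
  have hsplit : Finset.range (2 ^ j) = Finset.range (2 ^ (j / 2)) ∪ Finset.Ico (2 ^ (j / 2)) (2 ^ j) := by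
    rw [Finset.range_eq_Ico, Finset.range_eq_Ico, Finset.Ico_union_Ico_eq_Ico (Nat.zero_le _)]
    exact Nat.pow_le_pow_right (by norm_num) (Nat.div_le_self _ _)
  have hdisj : Disjoint (Finset.range (2 ^ (j / 2))) (Finset.Ico (2 ^ (j / 2)) (2 ^ j)) := by
    rw [Finset.disjoint_left]
    intro x hx hx'
    have := Finset.mem_range.mp hx
    have := (Finset.mem_Ico.mp hx').1
    omega
  rw [hsplit, Finset.sum_union hdisj]
  have hT1 : ((2:ℝ) ^ (j - j / 2))⁻¹ ≤ T := by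
    have h1 : j / (2 * q) ≤ j - j / 2 := by
      have : j / (2 * q) ≤ j / 2 := by
        rw [← Nat.div_div_eq_div_mul]; exact Nat.div_le_self _ _
      omega
    have h2 : (1:ℝ) ≤ ((2 ^ (j / (2 * q)) : ℕ) : ℝ) := by exact_mod_cast Nat.one_le_two_pow
    calc ((2:ℝ) ^ (j - j / 2))⁻¹ ≤ ((2:ℝ) ^ (j / (2 * q)))⁻¹ := by
          apply inv_anti₀ (by positivity)
          exact pow_le_pow_right₀ (by norm_num) h1
      _ = ((2 ^ (j / (2 * q)) : ℕ) : ℝ) ^ (-1:ℝ) := by rw [Real.rpow_neg_one]; push_cast; rfl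
      _ ≤ _ := Real.rpow_le_rpow_of_exponent_le h2 (by norm_num)
  have i1 : ∑ n ∈ Finset.range (2 ^ (j / 2)), ((Mq q n : ℕ) : ℝ) ^ (-(23/25):ℝ) ≤ 2 ^ j * T := by
    calc ∑ n ∈ Finset.range (2 ^ (j / 2)), ((Mq q n : ℕ) : ℝ) ^ (-(23/25):ℝ) ≤ ∑ _n ∈ Finset.range (2 ^ (j / 2)), (1:ℝ) := by
          apply Finset.sum_le_sum
          intro n _
          apply Real.rpow_le_one_of_one_le_of_nonpos _ (by norm_num)
          exact_mod_cast Mq_one q n
      _ = 2 ^ (j / 2) := by simp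
      _ = 2 ^ j * ((2:ℝ) ^ (j - j / 2))⁻¹ := by
          have : (2:ℝ) ^ j = 2 ^ (j / 2) * 2 ^ (j - j / 2) := by
            rw [← pow_add]; congr 1; omega
          rw [this, mul_assoc, mul_inv_cancel₀ (by positivity), mul_one]
      _ ≤ _ := mul_le_mul_of_nonneg_left hT1 (by positivity)
  have i2 : ∑ n ∈ Finset.Ico (2 ^ (j / 2)) (2 ^ j), ((Mq q n : ℕ) : ℝ) ^ (-(23/25):ℝ) ≤ 2 ^ j * T := by
    calc ∑ n ∈ Finset.Ico (2 ^ (j / 2)) (2 ^ j), ((Mq q n : ℕ) : ℝ) ^ (-(23/25):ℝ) ≤ ∑ _n ∈ Finset.Ico (2 ^ (j / 2)) (2 ^ j), T := by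
          apply Finset.sum_le_sum
          intro n hn
          have h1 := (Finset.mem_Ico.mp hn).1
          have h2 : j / 2 ≤ Nat.log 2 n := Nat.le_log_of_pow_le (by norm_num) h1
          have h3 : (2:ℕ) ^ (j / (2 * q)) ≤ Mq q n := by
            unfold Mq
            apply Nat.pow_le_pow_right (by norm_num)
            rw [← Nat.div_div_eq_div_mul]
            exact Nat.div_le_div_right h2
          rw [hT]
          apply Real.rpow_le_rpow_of_nonpos _ _ (by norm_num)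
          · positivity
          · exact_mod_cast h3
      _ = (2 ^ j - 2 ^ (j / 2) : ℕ) * T := by rw [Finset.sum_const, Nat.card_Ico, nsmul_eq_mul]
      _ ≤ _ := by
          apply mul_le_mul_of_nonneg_right _ (by positivity)
          have : 2 ^ j - 2 ^ (j / 2) ≤ 2 ^ j := Nat.sub_le _ _
          exact_mod_cast this
  linarith

lemma poly_geo {r : ℝ} (hr0 : 0 ≤ r) (hr : r < 1) : Summable fun j : ℕ => ((j:ℝ) + 1) ^ 2 * r ^ j := by
  have h1 : Summable fun j : ℕ => ((j:ℝ)) ^ 2 * r ^ j :=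
    summable_pow_mul_geometric_of_norm_lt_one 2 (by rw [Real.norm_eq_abs, abs_of_nonneg hr0]; exact hr)
  have h2 : Summable fun j : ℕ => ((j:ℝ)) ^ 1 * r ^ j :=
    summable_pow_mul_geometric_of_norm_lt_one 1 (by rw [Real.norm_eq_abs, abs_of_nonneg hr0]; exact hr)
  have h3 : Summable fun j : ℕ => r ^ j := summable_geometric_of_lt_one hr0 hr
  refine ((h1.add (h2.mul_left 2)).add h3).congr fun j => ?_
  ring

/-- from dyadic ranges to all `N` -/
lemma of_dyadic {T : ℕ → ℝ} (h : ∀ ε : ℝ, 0 < ε → ∀ᶠ j : ℕ in atTop, ∀ N ≤ 2 ^ j, (T N) ^ 2 ≤ ε * 2 ^ j) :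
    Tendsto (fun N : ℕ => T N / √(N:ℝ)) atTop (𝓝 0) := by
  apply tendsto_of_sq
  rw [Metric.tendsto_atTop]
  intro ε hε
  obtain ⟨j0, hj0⟩ := eventually_atTop.mp (h (ε / 4) (by positivity))
  refine ⟨2 ^ j0 + 1, fun N hN => ?_⟩
  have h2j := Nat.one_le_two_pow (n := j0)
  have hN0 : N ≠ 0 := by omega
  set j := Nat.log 2 N + 1 with hj
  have h1 : N < 2 ^ j := Nat.lt_pow_succ_log_self (by norm_num) N
  have h2 : 2 ^ (Nat.log 2 N) ≤ N := Nat.pow_log_le_self 2 hN0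
  have h3 : j0 ≤ j := by
    have : j0 ≤ Nat.log 2 N := Nat.le_log_of_pow_le (by norm_num) (by omega)
    omega
  have h4 := hj0 j h3 N h1.le
  have hNr : (0:ℝ) < N := by exact_mod_cast Nat.pos_of_ne_zero hN0
  have h5 : (2:ℝ) ^ j ≤ 2 * N := by
    rw [hj, pow_succ]
    have : ((2 ^ (Nat.log 2 N) : ℕ) : ℝ) ≤ N := by exact_mod_cast h2
    push_cast at this
    linarith
  rw [Real.dist_eq, sub_zero, abs_of_nonneg (sq_nonneg _), div_pow, Real.sq_sqrt hNr.le, div_lt_iff₀ hNr]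
  calc (T N) ^ 2 ≤ ε / 4 * 2 ^ j := h4
    _ ≤ ε / 4 * (2 * N) := mul_le_mul_of_nonneg_left h5 (by positivity)
    _ < ε * N := by nlinarith

/-- the high frequencies -/
lemma ae_V (hb : Bd af) (h : Sq a b δ) (hc : 0 < c) (hcd : c ≤ d) {q : ℕ} (hq : 1 ≤ q) (p : ℕ) (hp : 1 ≤ p) :
    ∀ᵐ y ∂(volume.restrict (Icc c d)), Tendsto (fun N : ℕ =>
      (∑ n ∈ Finset.range N, YY φ a b (fun n => cutc af (Mq q n)) (fun n => (n + 1) ^ p) n y) / √(N:ℝ)) atTop (𝓝 0) := by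
  obtain ⟨C, hC, hV⟩ := V_sq (φ := φ) hb h hc hcd q p hp
  have hr1 : (2:ℝ) ^ (-((23/25:ℝ) / ((2 * q : ℕ) : ℝ))) < 1 := by
    apply Real.rpow_lt_one_of_one_lt_of_neg (by norm_num)
    have : (0:ℝ) < ((2 * q : ℕ) : ℝ) := by exact_mod_cast (by omega : 0 < 2 * q)
    have : 0 < (23/25:ℝ) / ((2 * q : ℕ) : ℝ) := by positivity
    linarith
  set r : ℝ := (2:ℝ) ^ (-((23/25:ℝ) / ((2 * q : ℕ) : ℝ))) with hr
  have hr0 : 0 ≤ r := by positivity
  have hsum : Summable fun j : ℕ => ((j:ℝ) + 1) * (((j:ℝ) + 1) * ∑ n ∈ Finset.range (2 ^ j), C * ((Mq q n : ℕ) : ℝ) ^ (-(23/25):ℝ)) / 2 ^ j := by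
    have h1 := (poly_geo hr0 hr1).mul_left (C * (2 * (2:ℝ) ^ (23/25:ℝ)))
    refine Summable.of_nonneg_of_le (fun j => ?_) (fun j => ?_) h1
    · have : 0 ≤ ∑ n ∈ Finset.range (2 ^ j), C * ((Mq q n : ℕ) : ℝ) ^ (-(23/25):ℝ) :=
        Finset.sum_nonneg fun n _ => by positivity
      positivity
    · rw [← Finset.mul_sum]
      have h2 := sum_Mq q j
      have h3 := geo_floor (q := 2 * q) (by omega) (κ := 23/25) (by norm_num) j
      rw [← hr] at h3
      rw [div_le_iff₀ (by positivity)]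
      calc ((j:ℝ) + 1) * (((j:ℝ) + 1) * (C * ∑ n ∈ Finset.range (2 ^ j), ((Mq q n : ℕ) : ℝ) ^ (-(23/25):ℝ)))
          ≤ ((j:ℝ) + 1) * (((j:ℝ) + 1) * (C * (2 * 2 ^ j * ((2:ℝ) ^ (23/25:ℝ) * r ^ j)))) := by
            have h4 : ∑ n ∈ Finset.range (2 ^ j), ((Mq q n : ℕ) : ℝ) ^ (-(23/25):ℝ) ≤ 2 * 2 ^ j * ((2:ℝ) ^ (23/25:ℝ) * r ^ j) :=
              h2.trans (mul_le_mul_of_nonneg_left h3 (by positivity))
            gcongr
        _ = _ := by ring
  have h1 := RM_ae hcd (YY_cont φ a b (fun n => cutc af (Mq q n)) (fun n => (n + 1) ^ p)) hV (lam := fun j => 2 ^ j)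
    (fun j => by positivity) hsum
  filter_upwards [h1] with y hy
  exact of_dyadic hy

/-- the approximation by the polynomials of large degree, summed -/
lemma ae_E (hX : Ctx E af φ) (h : Sq a b δ) (hc : 0 < c) (hcd : c ≤ d) {p : ℕ} (hp : 1600 ≤ p) :
    ∀ᵐ y ∂(volume.restrict (Icc c d)), Tendsto (fun N : ℕ =>
      (∑ n ∈ Finset.range N, (E (pt a b n y) - U af φ (pt a b n y) ((n + 1) ^ p))) / √(N:ℝ)) atTop (𝓝 0) := by
  obtain ⟨C, hC, ρ, hρ, hl⟩ := hX.l2 c d hcd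
  have hsc : 0 < δ * c := mul_pos h.dpos hc
  obtain ⟨n2, hn2⟩ := ev_poly (h.pos 0) hsc ρ 0
  obtain ⟨n3, hn3⟩ := ev_poly (h.pos 0) hsc 2 (p * 100)
  have hs : Summable fun n : ℕ => C * ((n:ℝ) + 1) ^ (-4:ℝ) := by
    apply Summable.mul_left
    have h1 : Summable fun n : ℕ => (n:ℝ) ^ (-4:ℝ) := by
      rw [Real.summable_nat_rpow]; norm_num
    have h2 := (summable_nat_add_iff 1).mpr h1
    refine h2.congr fun n => ?_
    push_cast
    rfl
  have h1 := ae_zero (μ := volume.restrict (Icc c d))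
    (g := fun n y => ((n:ℝ) + 1) ^ 4 * (E (pt a b n y) - U af φ (pt a b n y) ((n + 1) ^ p)) ^ 2)
    (fun n => (((pt_meas hX.meas n).sub (Upt_cont af φ a b n _).measurable).pow_const 2).const_mul _) hs
    (j0 := max n2 n3) ?_ (fun _ _ => by positivity)
  · filter_upwards [h1] with y hy
    set x : ℕ → ℝ := fun n => E (pt a b n y) - U af φ (pt a b n y) ((n + 1) ^ p) with hx
    have h2 : ∀ᶠ n : ℕ in atTop, ‖x n‖ ≤ ((n:ℝ) + 1) ^ (-2:ℝ) := by
      filter_upwards [hy.eventually (gt_mem_nhds one_pos)] with n hn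
      have hn1 : (0:ℝ) < (n:ℝ) + 1 := by positivity
      have h3 : (((n:ℝ) + 1) ^ 2 * |x n|) ^ 2 < 1 := by
        rw [mul_pow, sq_abs, ← pow_mul]; exact hn
      have h4 : ((n:ℝ) + 1) ^ 2 * |x n| < 1 := by
        by_contra hcon
        push Not at hcon
        have := one_le_pow₀ (n := 2) hcon
        linarith
      rw [Real.norm_eq_abs, Real.rpow_neg hn1.le, ← one_div, le_div_iff₀ (by positivity), mul_comm]
      have e2 : ((n:ℝ) + 1) ^ (2:ℝ) = ((n:ℝ) + 1) ^ (2:ℕ) := by norm_num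
      rw [e2]
      exact h4.le
    have h5 : Summable fun n : ℕ => ((n:ℝ) + 1) ^ (-2:ℝ) := by
      have h6 : Summable fun n : ℕ => (n:ℝ) ^ (-2:ℝ) := by
        rw [Real.summable_nat_rpow]; norm_num
      refine ((summable_nat_add_iff 1).mpr h6).congr fun n => ?_
      push_cast
      rfl
    have h7 : Summable x := by
      obtain ⟨n4, hn4⟩ := eventually_atTop.mp h2
      rw [← summable_nat_add_iff n4]
      refine Summable.of_norm_bounded ((summable_nat_add_iff n4).mpr h5) fun n => ?_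
      exact hn4 (n + n4) (by omega)
    have h8 := h7.hasSum.tendsto_sum_nat
    have h9 : Tendsto (fun N : ℕ => (√(N:ℝ))⁻¹) atTop (𝓝 0) :=
      tendsto_inv_atTop_zero.comp (Real.tendsto_sqrt_atTop.comp tendsto_natCast_atTop_atTop)
    have h10 := h8.mul h9
    rw [mul_zero] at h10
    exact h10
  · intro n hn
    have hn2' : n2 ≤ n := by omega
    have hn3' : n3 ≤ n := by omega
    have hpl := pt_low h hc.le n
    have hρ' : ρ ≤ pt a b n c := by
      have := hn2 n hn2'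
      rw [pow_zero, mul_one] at this
      linarith
    have hbig : ((n:ℝ) + 1) ^ (p * 100) ≤ pt a b n c / 2 := by
      have := hn3 n hn3'
      linarith
    have hM400 : (((n + 1) ^ p : ℕ) : ℝ) ^ 100 ≤ pt a b n c / 2 := by
      push_cast
      rw [← pow_mul]
      exact hbig
    have hl' := hl (a n) (b n) (h.one n) (h.pos n) hρ' ((n + 1) ^ p) (Nat.one_le_pow _ _ (by omega)) hM400
    have hn1 : (1:ℝ) ≤ (n:ℝ) + 1 := by
      have : (0:ℝ) ≤ n := Nat.cast_nonneg n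
      linarith
    calc ∫⁻ y, ENNReal.ofReal (((n:ℝ) + 1) ^ 4 * (E (pt a b n y) - U af φ (pt a b n y) ((n + 1) ^ p)) ^ 2) ∂(volume.restrict (Icc c d))
        = ENNReal.ofReal (((n:ℝ) + 1) ^ 4) * ∫⁻ y in Icc c d, ENNReal.ofReal ((E (pt a b n y) - U af φ (pt a b n y) ((n + 1) ^ p)) ^ 2) := by
          rw [← lintegral_const_mul' _ _ ENNReal.ofReal_ne_top]
          apply lintegral_congr
          intro y
          rw [← ENNReal.ofReal_mul (by positivity)]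
      _ ≤ ENNReal.ofReal (((n:ℝ) + 1) ^ 4) * ENNReal.ofReal (C * ((((n + 1) ^ p : ℕ)) : ℝ) ^ (-(1/200):ℝ)) := by
          gcongr
          exact hl'
      _ = ENNReal.ofReal (((n:ℝ) + 1) ^ 4 * (C * ((((n + 1) ^ p : ℕ)) : ℝ) ^ (-(1/200):ℝ))) := by
          rw [← ENNReal.ofReal_mul (by positivity)]
      _ ≤ _ := by
          apply ENNReal.ofReal_le_ofReal
          push_cast
          have e4 : ((n:ℝ) + 1) ^ 4 * (C * (((n:ℝ) + 1) ^ p) ^ (-(1/200):ℝ)) = C * ((n:ℝ) + 1) ^ ((4:ℝ) + (p:ℝ) * (-(1/200))) := by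
            rw [Real.rpow_add (by linarith), Real.rpow_mul (by linarith), Real.rpow_natCast]
            have : ((n:ℝ) + 1) ^ (4:ℝ) = ((n:ℝ) + 1) ^ (4:ℕ) := by norm_num
            rw [this]
            ring
          rw [e4]
          apply mul_le_mul_of_nonneg_left _ hC.le
          apply Real.rpow_le_rpow_of_exponent_le hn1
          have hpr : (1600:ℝ) ≤ p := by exact_mod_cast hp
          linarith

/-- reduction to the model polynomials of small degree -/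
theorem reduce (hX : Ctx E af φ) (h : Sq a b δ) (hc : 0 < c) (hcd : c ≤ d) {q : ℕ} (hq : 1 ≤ q) :
    ∀ᵐ y ∂(volume.restrict (Icc c d)), Tendsto (fun N : ℕ =>
      (∑ n ∈ Finset.range N, E (pt a b n y) - ∑ n ∈ Finset.range N, XX af φ a b (Mq q) n y) / √(N:ℝ)) atTop (𝓝 0) := by
  filter_upwards [ae_V (φ := φ) hX.bd h hc hcd hq 1600 (by norm_num), ae_E hX h hc hcd (p := 1600) le_rfl] with y h1 h2
  have h3 := h2.add h1
  rw [add_zero] at h3
  refine h3.congr fun N => ?_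
  rw [← add_div, ← Finset.sum_add_distrib, ← Finset.sum_sub_distrib]
  congr 1
  apply Finset.sum_congr rfl
  intro n _
  unfold YY XX
  have hKM : Mq q n ≤ (n + 1) ^ 1600 := (Mq_le q n).trans (Nat.le_self_pow (by norm_num) _)
  rw [U_cut hKM]
  ring

end Pool.Agent.D0H48.Cl
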