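import Mathlib
import Pool.Agent.D0H48.Cl.Rec
import Pool.Agent.D0H48.Cl.Red
import Pool.Agent.R306.GP.IID

/-!
The characteristic function of sums over one or two windows.
-/

set_option autoImplicit false

open MeasureTheory Filter Topology Set Real
open Pool.Agent.H469R2.NK (e norm_e e_add conj_e e_zero)
open Pool.Agent.H383.Gen (U Bd)
open Pool.Agent.Y969.TM
open Pool.Agent.R306.GP

namespace Pool.Agent.D0H48.Cl

variable {a b : ℕ → ℝ} {δ c d : ℝ} {W0 W1 : ℝ} {w : ℝ → ℂ} {af : ℕ → ℝ} {φ : ℝ}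

lemma split_aux (n1 H h : ℕ) (m : ℕ) : ∃ R : Finset ℕ, R ⊆ Finset.Ico n1 (n1 + m * (H + h)) ∧ R.card = m * h ∧
    ∀ x : ℕ → ℝ, ∑ n ∈ Finset.Ico n1 (n1 + m * (H + h)), x n =
      (∑ i ∈ Finset.range m, ∑ n ∈ Finset.Ico (n1 + i * (H + h)) (n1 + i * (H + h) + H), x n) + ∑ n ∈ R, x n := by
  induction m with
  | zero => exact ⟨∅, by simp, by simp, fun x => by simp⟩
  | succ m ih =>
    obtain ⟨R, hR1, hR2, hR3⟩ := ih
    set s := n1 + m * (H + h) with hs
    have e0 : n1 + (m + 1) * (H + h) = s + H + h := by rw [hs]; ring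
    have hdisj : Disjoint R (Finset.Ico (s + H) (s + H + h)) := by
      rw [Finset.disjoint_left]
      intro x hx hx'
      have h1 := (Finset.mem_Ico.mp (hR1 hx)).2
      have h2 := (Finset.mem_Ico.mp hx').1
      omega
    refine ⟨R ∪ Finset.Ico (s + H) (s + H + h), ?_, ?_, ?_⟩
    · intro x hx
      rw [e0, Finset.mem_Ico]
      rcases Finset.mem_union.mp hx with h1 | h1
      · have := Finset.mem_Ico.mp (hR1 h1)
        omega
      · have := Finset.mem_Ico.mp h1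
        have : n1 ≤ s := by rw [hs]; exact Nat.le_add_right _ _
        omega
    · rw [Finset.card_union_of_disjoint hdisj, hR2, Nat.card_Ico]
      have : s + H + h - (s + H) = h := by omega
      rw [this]; ring
    · intro x
      have hn1 : n1 ≤ s := by rw [hs]; exact Nat.le_add_right _ _
      rw [e0, ← Finset.sum_Ico_consecutive x hn1 (by omega : s ≤ s + H + h),
        ← Finset.sum_Ico_consecutive x (by omega : s ≤ s + H) (by omega : s + H ≤ s + H + h), hR3 x,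
        Finset.sum_range_succ, Finset.sum_union hdisj]
      ring

/-- decomposition of a window into blocks, gaps and a remainder -/
lemma split_window {n1 n2 H h : ℕ} (hHh : 1 ≤ H + h) (hle : n1 ≤ n2) :
    ∃ (m : ℕ) (R : Finset ℕ), n1 + m * (H + h) ≤ n2 ∧ R ⊆ Finset.Ico n1 n2 ∧ R.card ≤ m * h + (H + h) ∧
    ∀ x : ℕ → ℝ, ∑ n ∈ Finset.Ico n1 n2, x n =
      (∑ i ∈ Finset.range m, ∑ n ∈ Finset.Ico (n1 + i * (H + h)) (n1 + i * (H + h) + H), x n) + ∑ n ∈ R, x n := by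
  obtain ⟨R, hR1, hR2, hR3⟩ := split_aux n1 H h ((n2 - n1) / (H + h))
  set m := (n2 - n1) / (H + h) with hm
  have h1 : m * (H + h) ≤ n2 - n1 := Nat.div_mul_le_self _ _
  have h2 : n2 - n1 < (m + 1) * (H + h) := by
    have := Nat.lt_mul_div_succ (n2 - n1) (b := H + h) (by omega)
    rw [← hm] at this
    linarith
  have h3 : n1 + m * (H + h) ≤ n2 := by omega
  have h4 : (m + 1) * (H + h) = m * (H + h) + (H + h) := by ring
  have hdisj : Disjoint R (Finset.Ico (n1 + m * (H + h)) n2) := by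
    rw [Finset.disjoint_left]
    intro x hx hx'
    have g1 := (Finset.mem_Ico.mp (hR1 hx)).2
    have g2 := (Finset.mem_Ico.mp hx').1
    omega
  refine ⟨m, R ∪ Finset.Ico (n1 + m * (H + h)) n2, h3, ?_, ?_, ?_⟩
  · intro x hx
    rw [Finset.mem_Ico]
    rcases Finset.mem_union.mp hx with g1 | g1
    · have := Finset.mem_Ico.mp (hR1 g1)
      omega
    · have := Finset.mem_Ico.mp g1
      have := Nat.le_add_right n1 (m * (H + h))
      omega
  · rw [Finset.card_union_of_disjoint hdisj, hR2, Nat.card_Ico]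
    omega
  · intro x
    rw [← Finset.sum_Ico_consecutive x (Nat.le_add_right n1 (m * (H + h))) h3, hR3 x, Finset.sum_union hdisj]
    ring

/-- the second moments of sums of the variables -/
lemma X_sq (hb : Bd af) (h : Sq a b δ) (hc : 0 < c) (hcd : c ≤ d) (φ : ℝ) (q : ℕ) :
    ∃ C : ℝ, 0 < C ∧ ∀ S : Finset ℕ, ∫ y in c..d, (∑ n ∈ S, XX af φ a b (Mq q) n y) ^ 2 ≤ C * S.card := by
  obtain ⟨Cs, hCs, hAA⟩ := AA_le hb
  obtain ⟨K, hK, hZ⟩ := ZZ_bound φ hb
  have hCp := Cp_pos hc hcd h.dpos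
  have hsc : 0 < δ * c := mul_pos h.dpos hc
  have hb0 := h.pos 0
  have hC4 := C4_pos h
  have hdc : 0 ≤ d - c := by linarith
  obtain ⟨D1, hD1, hE1⟩ := exp_poly (s := δ * c) hsc 8
  obtain ⟨D2, hD2, hE2⟩ := exp_poly (s := δ * c / 2) (by positivity) 5
  refine ⟨(d - c) * (K * 2) + Cs ^ 2 * (2 * Cp c d δ * (3 ^ 4 / b 0)) * D1 + 2 * (Cs ^ 2 * C4 δ (b 0)) * D2, by positivity, ?_⟩
  intro S
  have hAn : ∀ n : ℕ, AA af (Mq q n) ≤ Cs * ((n:ℝ) + 1) ^ 2 := by
    intro n
    refine (hAA _).trans ?_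
    have : ((Mq q n : ℕ) : ℝ) ≤ (n:ℝ) + 1 := by exact_mod_cast Mq_le q n
    gcongr
  have h1 := orth h hc.le hcd φ (fun _ => af) (Mq q) S (P := fun n => Cs * ((n:ℝ) + 1) ^ 2) (fun n _ => hAn n) (by
    intro n _ n' _ hnn
    have : (n:ℝ) ≤ n' := by exact_mod_cast hnn
    gcongr)
  have e0 : ∀ n y, YY φ a b (fun _ => af) (Mq q) n y = XX af φ a b (Mq q) n y := fun n y => rfl
  simp only [e0] at h1
  refine h1.trans ?_
  have hpt : ∀ n ∈ S, ((∫ y in c..d, (XX af φ a b (Mq q) n y) ^ 2) +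
      2 * ((n:ℝ) * ((Cs * ((n:ℝ) + 1) ^ 2) ^ 2 * (C4 δ (b 0) * exp (-(δ * c * n / 2)))))) ≤
      (d - c) * (K * 2) + Cs ^ 2 * (2 * Cp c d δ * (3 ^ 4 / b 0)) * D1 + 2 * (Cs ^ 2 * C4 δ (b 0)) * D2 := by
    intro n _
    have hn0 : (0:ℝ) ≤ n := Nat.cast_nonneg n
    have hn1 : (1:ℝ) ≤ (n:ℝ) + 1 := by linarith
    have hpt := pt_pos h n c
    have i1 : ∫ y in c..d, (XX af φ a b (Mq q) n y) ^ 2 ≤ (d - c) * (K * 2) + Cs ^ 2 * (2 * Cp c d δ * (3 ^ 4 / b 0)) * D1 := by
      have k1 := Pool.Agent.D0H48.Gr.pow_int_le h hc hcd af φ 2 (Mq q n) n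
      refine k1.trans (add_le_add ?_ ?_)
      · apply mul_le_mul_of_nonneg_left _ hdc
        have := hZ 1 (Mq q n)
        simpa [Nat.factorial] using this
      · have k4 : ((2 * Mq q n + 1 : ℕ) : ℝ) ^ (2 ^ 2) ≤ 3 ^ 4 * ((n:ℝ) + 1) ^ 4 := by
          have k5 : ((Mq q n : ℕ) : ℝ) ≤ (n:ℝ) + 1 := by exact_mod_cast Mq_le q n
          push_cast
          calc (2 * ((Mq q n : ℕ) : ℝ) + 1) ^ (2 ^ 2) ≤ (3 * ((n:ℝ) + 1)) ^ (2 ^ 2) := by
                apply pow_le_pow_left₀ (by positivity)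
                linarith
            _ = 3 ^ 4 * ((n:ℝ) + 1) ^ 4 := by rw [mul_pow]; norm_num
        have k6 : 1 / pt a b n c ≤ (1 / b 0) * exp (-(δ * c * n)) := by
          have k7 := pt_low h hc.le n
          rw [Real.exp_neg, one_div, one_div, ← mul_inv]
          exact inv_anti₀ (by positivity) k7
        have k8 := AA_nonneg af (Mq q n)
        have k3 := hAn n
        calc AA af (Mq q n) ^ 2 * (2 * Cp c d δ * (((2 * Mq q n + 1 : ℕ) : ℝ) ^ (2 ^ 2) / pt a b n c))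
            = AA af (Mq q n) ^ 2 * (2 * Cp c d δ * (((2 * Mq q n + 1 : ℕ) : ℝ) ^ (2 ^ 2) * (1 / pt a b n c))) := by
              rw [mul_one_div]
          _ ≤ (Cs * ((n:ℝ) + 1) ^ 2) ^ 2 * (2 * Cp c d δ * ((3 ^ 4 * ((n:ℝ) + 1) ^ 4) * ((1 / b 0) * exp (-(δ * c * n))))) := by
              gcongr
          _ = Cs ^ 2 * (2 * Cp c d δ * (3 ^ 4 / b 0)) * (((n:ℝ) + 1) ^ 8 * exp (-(δ * c * n))) := by ring
          _ ≤ Cs ^ 2 * (2 * Cp c d δ * (3 ^ 4 / b 0)) * D1 := by
              apply mul_le_mul_of_nonneg_left _ (by positivity)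
              exact (hE1 n).trans (div_le_self hD1.le hn1)
    have i2 : 2 * ((n:ℝ) * ((Cs * ((n:ℝ) + 1) ^ 2) ^ 2 * (C4 δ (b 0) * exp (-(δ * c * n / 2))))) ≤
        2 * (Cs ^ 2 * C4 δ (b 0)) * D2 := by
      have j2 : exp (-(δ * c * n / 2)) = exp (-(δ * c / 2 * n)) := by congr 1; ring
      rw [j2]
      calc 2 * ((n:ℝ) * ((Cs * ((n:ℝ) + 1) ^ 2) ^ 2 * (C4 δ (b 0) * exp (-(δ * c / 2 * n)))))
          ≤ 2 * (((n:ℝ) + 1) * ((Cs * ((n:ℝ) + 1) ^ 2) ^ 2 * (C4 δ (b 0) * exp (-(δ * c / 2 * n))))) := by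
            gcongr
            linarith
        _ = 2 * (Cs ^ 2 * C4 δ (b 0)) * (((n:ℝ) + 1) ^ 5 * exp (-(δ * c / 2 * n))) := by ring
        _ ≤ _ := by
            apply mul_le_mul_of_nonneg_left _ (by positivity)
            exact (hE2 n).trans (div_le_self hD2.le hn1)
    linarith
  calc _ ≤ ∑ _n ∈ S, ((d - c) * (K * 2) + Cs ^ 2 * (2 * Cp c d δ * (3 ^ 4 / b 0)) * D1 + 2 * (Cs ^ 2 * C4 δ (b 0)) * D2) :=
        Finset.sum_le_sum hpt
    _ = _ := by rw [Finset.sum_const, nsmul_eq_mul]; ring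

/-- the effect of a small change of the phase -/
lemma chg (hcd : c ≤ d) (hw : Wg c d W0 W1 w) {S S' : ℝ → ℝ} (hS : Continuous S) (hS' : Continuous S') :
    ‖(∫ y in c..d, w y * Complex.exp ((S y : ℂ) * Complex.I)) - ∫ y in c..d, w y * Complex.exp ((S' y : ℂ) * Complex.I)‖ ≤
      W0 * ∫ y in c..d, |S y - S' y| := by
  have hwc := hw.cont
  have hW0 := hw.n0 hcd
  have c1 : Continuous fun y => w y * Complex.exp ((S y : ℂ) * Complex.I) := by fun_prop
  have c2 : Continuous fun y => w y * Complex.exp ((S' y : ℂ) * Complex.I) := by fun_prop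
  rw [← intervalIntegral.integral_sub (c1.intervalIntegrable _ _) (c2.intervalIntegrable _ _),
    ← intervalIntegral.integral_const_mul]
  apply intervalIntegral.norm_integral_le_of_norm_le hcd _
    ((continuous_const.mul (hS.sub hS').abs).intervalIntegrable _ _)
  refine Eventually.of_forall fun y hy => ?_
  rw [← mul_sub, norm_mul]
  have h1 := exp_lip (S y) (S' y)
  rw [mul_comm Complex.I, mul_comm Complex.I] at h1
  exact mul_le_mul (hw.bd y ⟨hy.1.le, hy.2⟩) h1 (norm_nonneg _) hW0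

lemma triv (hcd : c ≤ d) (hw : Wg c d W0 W1 w) (S : ℝ → ℝ) {X : ℝ} (hX : 0 ≤ X) :
    ‖(∫ y in c..d, w y * Complex.exp ((S y : ℂ) * Complex.I)) - ((exp (-X) : ℝ) : ℂ) * ∫ y in c..d, w y‖ ≤
      2 * ((d - c) * W0) := by
  have hdc : 0 ≤ d - c := by linarith
  have h1 : ‖∫ y in c..d, w y * Complex.exp ((S y : ℂ) * Complex.I)‖ ≤ (d - c) * W0 := by
    have := intervalIntegral.norm_integral_le_of_norm_le_const (a := c) (b := d) (C := W0)
      (f := fun y => w y * Complex.exp ((S y : ℂ) * Complex.I)) (by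
        intro y hy
        rw [uIoc_of_le hcd] at hy
        rw [norm_mul, Complex.norm_exp_ofReal_mul_I, mul_one]
        exact hw.bd y ⟨hy.1.le, hy.2⟩)
    rw [abs_of_nonneg hdc] at this
    linarith
  have h2 : ‖∫ y in c..d, w y‖ ≤ (d - c) * W0 := by
    have := intervalIntegral.norm_integral_le_of_norm_le_const (a := c) (b := d) (C := W0)
      (f := w) (by
        intro y hy
        rw [uIoc_of_le hcd] at hy
        exact hw.bd y ⟨hy.1.le, hy.2⟩)
    rw [abs_of_nonneg hdc] at this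
    linarith
  refine (norm_sub_le _ _).trans ?_
  rw [norm_mul, Complex.norm_real, Real.norm_eq_abs, abs_of_pos (Real.exp_pos _)]
  have h3 : exp (-X) ≤ 1 := Real.exp_le_one_iff.mpr (by linarith)
  have h4 : exp (-X) * ‖∫ y in c..d, w y‖ ≤ 1 * ((d - c) * W0) := mul_le_mul h3 h2 (norm_nonneg _) zero_le_one
  linarith

lemma cs_int (hcd : c ≤ d) {f : ℝ → ℝ} (hf : Continuous f) : (∫ y in c..d, |f y|) ^ 2 ≤ (d - c) * ∫ y in c..d, (f y) ^ 2 := by
  have hdc : 0 ≤ d - c := by linarith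
  have hI : IntervalIntegrable (fun y => |f y|) volume c d := hf.abs.intervalIntegrable _ _
  have hI2 : IntervalIntegrable (fun y => (f y) ^ 2) volume c d := (hf.pow 2).intervalIntegrable _ _
  set A := ∫ y in c..d, |f y| with hA
  set B := ∫ y in c..d, (f y) ^ 2 with hB
  -- for every real `s`, `0 ≤ ∫ (|f| - s)^2 = B - 2 s A + s^2 (d-c)`
  have key : ∀ s : ℝ, 0 ≤ B - 2 * s * A + s ^ 2 * (d - c) := by
    intro s
    have h1 : 0 ≤ ∫ y in c..d, (|f y| - s) ^ 2 := intervalIntegral.integral_nonneg hcd fun _ _ => sq_nonneg _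
    have h2 : ∫ y in c..d, (|f y| - s) ^ 2 = B - 2 * s * A + s ^ 2 * (d - c) := by
      have e1 : ∀ y, (|f y| - s) ^ 2 = ((f y) ^ 2 - (2 * s) * |f y|) + s ^ 2 := by
        intro y; rw [sub_sq, sq_abs]; ring
      simp only [e1]
      rw [intervalIntegral.integral_add (hI2.sub (hI.const_mul _)) intervalIntegrable_const,
        intervalIntegral.integral_sub hI2 (hI.const_mul _), intervalIntegral.integral_const_mul,
        intervalIntegral.integral_const, smul_eq_mul]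
      ring
    rw [h2] at h1
    exact h1
  rcases hdc.lt_or_eq with h0 | h0
  · have := key (A / (d - c))
    have e1 : B - 2 * (A / (d - c)) * A + (A / (d - c)) ^ 2 * (d - c) = B - A ^ 2 / (d - c) := by
      field_simp; ring
    rw [e1] at this
    have h2 : A ^ 2 / (d - c) ≤ B := by linarith
    rw [div_le_iff₀ h0] at h2
    linarith
  · have hcd' : c = d := by linarith
    have : A = 0 := by rw [hA, hcd', intervalIntegral.integral_same]
    rw [this, ← h0]
    simp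

end Pool.Agent.D0H48.Cl
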