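import Mathlib
import Pool.Agent.D0H48.Cl.Win

/-!
The characteristic function of sums over two windows, with a rate.
-/

set_option autoImplicit false

open MeasureTheory Filter Topology Set Real
open Pool.Agent.H469R2.NK (e norm_e e_add conj_e e_zero)
open Pool.Agent.H383.Gen (U Bd)
open Pool.Agent.Y969.TM
open Pool.Agent.R306.GP

namespace Pool.Agent.D0H48.Cl

variable {a b : ℕ → ℝ} {δ c d : ℝ} {W0 W1 : ℝ} {w : ℝ → ℂ} {af : ℕ → ℝ} {φ : ℝ}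

/-- window sums -/
noncomputable def WS (af : ℕ → ℝ) (φ : ℝ) (a b : ℕ → ℝ) (q n1 n2 : ℕ) (y : ℝ) : ℝ :=
  ∑ n ∈ Finset.Ico n1 n2, XX af φ a b (Mq q) n y

/-- window variances -/
noncomputable def WV (af : ℕ → ℝ) (q n1 n2 : ℕ) : ℝ := ∑ n ∈ Finset.Ico n1 n2, vv af (Mq q n)

lemma WS_cont (q n1 n2 : ℕ) : Continuous (WS af φ a b q n1 n2) :=
  continuous_finsetSum _ fun n _ => XX_cont af φ a b (Mq q) n

lemma WV_nonneg (q n1 n2 : ℕ) : 0 ≤ WV af q n1 n2 := Finset.sum_nonneg fun _ _ => vv_nonneg _ _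

lemma vv_bd (hb : Bd af) : ∃ V : ℝ, 0 < V ∧ ∀ M : ℕ, vv af M ≤ V := by
  obtain ⟨K, hK, hZ⟩ := ZZ_bound 0 hb
  refine ⟨K * 2, by positivity, fun M => ?_⟩
  have h1 := hZ 1 M
  rw [mul_one, ZZ_two, Complex.norm_real, Real.norm_eq_abs, abs_of_nonneg (vv_nonneg _ _)] at h1
  simpa [Nat.factorial] using h1

lemma ev1 {s : ℝ} (hs : 0 < s) (C : ℝ) (K : ℕ) : ∀ᶠ k : ℕ in atTop,
    C * (exp (-(s * ((k:ℝ) + 1) ^ 2)) * 2 ^ (K * (k + 1))) ≤ (3/4 : ℝ) ^ k := by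
  have h1 : ∀ᶠ k : ℕ in atTop, (K:ℝ) + 1 + |C| ≤ s * ((k:ℝ) + 1) := by
    have : Tendsto (fun k : ℕ => s * ((k:ℝ) + 1)) atTop atTop :=
      (tendsto_atTop_add_const_right _ _ tendsto_natCast_atTop_atTop).const_mul_atTop hs
    exact this.eventually_ge_atTop _
  filter_upwards [h1] with k hk
  have hk1 : (1:ℝ) ≤ (k:ℝ) + 1 := by
    have : (0:ℝ) ≤ k := Nat.cast_nonneg k
    linarith
  have h2e : (2:ℝ) ≤ Real.exp 1 := by have := Real.exp_one_gt_d9; linarith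
  have h2 : (2:ℝ) ^ (K * (k + 1)) ≤ exp (K * ((k:ℝ) + 1)) := by
    calc (2:ℝ) ^ (K * (k + 1)) ≤ (Real.exp 1) ^ (K * (k + 1)) := pow_le_pow_left₀ (by norm_num) h2e _
      _ = _ := by rw [← Real.exp_nat_mul]; congr 1; push_cast; ring
  have h3 : C ≤ exp |C| := by
    have := Real.add_one_le_exp |C|
    have := le_abs_self C
    linarith
  have h4 : exp (-(k:ℝ)) ≤ (3/4 : ℝ) ^ k := by
    have : exp (-(k:ℝ)) = (exp (-1)) ^ k := by rw [← Real.exp_nat_mul]; congr 1; ring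
    rw [this]
    apply pow_le_pow_left₀ (Real.exp_pos _).le
    rw [Real.exp_neg]
    calc (Real.exp 1)⁻¹ ≤ 2⁻¹ := inv_anti₀ (by norm_num) h2e
      _ ≤ 3/4 := by norm_num
  refine le_trans ?_ h4
  calc C * (exp (-(s * ((k:ℝ) + 1) ^ 2)) * 2 ^ (K * (k + 1))) ≤ exp |C| * (exp (-(s * ((k:ℝ) + 1) ^ 2)) * exp (K * ((k:ℝ) + 1))) := by
        gcongr
    _ = exp (|C| + (-(s * ((k:ℝ) + 1) ^ 2) + K * ((k:ℝ) + 1))) := by rw [← Real.exp_add, ← Real.exp_add]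
    _ ≤ exp (-(k:ℝ)) := by
        apply Real.exp_le_exp.mpr
        have h5 : ((K:ℝ) + 1 + |C|) * ((k:ℝ) + 1) ≤ s * ((k:ℝ) + 1) ^ 2 := by
          rw [sq, ← mul_assoc]
          exact mul_le_mul_of_nonneg_right hk (by linarith)
        have h6 : |C| ≤ |C| * ((k:ℝ) + 1) := le_mul_of_one_le_right (abs_nonneg _) hk1
        nlinarith

lemma ev2 : ∀ᶠ k : ℕ in atTop, ((k:ℝ) + 1) ^ 2 / 2 ^ k ≤ ((3/4 : ℝ) ^ k) ^ 2 := by
  have h1 := (poly_geo (r := 8/9) (by norm_num) (by norm_num)).tendsto_atTop_zero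
  filter_upwards [h1.eventually (gt_mem_nhds one_pos)] with k hk
  rw [div_le_iff₀ (by positivity), ← pow_mul, mul_comm k 2, pow_mul, ← mul_pow]
  have e1 : ((k:ℝ) + 1) ^ 2 = (((k:ℝ) + 1) ^ 2 * (8/9) ^ k) * (9/8) ^ k := by
    rw [mul_assoc, ← mul_pow]; norm_num
  rw [e1]
  have e2 : ((3/4 : ℝ) ^ 2 * 2) = 9/8 := by norm_num
  rw [e2]
  exact mul_le_of_le_one_left (by positivity) hk.le

/-- the leftover of a window -/
lemma left_est (hb : Bd af) (h : Sq a b δ) (hc : 0 < c) (hcd : c ≤ d) (φ : ℝ) (q : ℕ) :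
    ∃ C : ℝ, 0 < C ∧ ∀ R : Finset ℕ, ∀ θ ε : ℝ, 0 ≤ ε → θ ^ 2 * R.card ≤ ε ^ 2 →
      |θ| * ∫ y in c..d, |∑ n ∈ R, XX af φ a b (Mq q) n y| ≤ C * ε := by
  obtain ⟨C, hC, hX⟩ := X_sq hb h hc hcd φ q
  have hdc : 0 ≤ d - c := by linarith
  refine ⟨√((d - c) * C) + 1, by positivity, fun R θ ε hε hR => ?_⟩
  have h1 := cs_int hcd (f := fun y => ∑ n ∈ R, XX af φ a b (Mq q) n y)
    (continuous_finsetSum _ fun n _ => XX_cont af φ a b (Mq q) n)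
  have h2 := hX R
  set I := ∫ y in c..d, |∑ n ∈ R, XX af φ a b (Mq q) n y| with hI
  have hI0 : 0 ≤ I := intervalIntegral.integral_nonneg hcd fun _ _ => abs_nonneg _
  have h3 : (|θ| * I) ^ 2 ≤ (√((d - c) * C) * ε) ^ 2 := by
    rw [mul_pow, sq_abs, mul_pow, Real.sq_sqrt (by positivity)]
    calc θ ^ 2 * I ^ 2 ≤ θ ^ 2 * ((d - c) * (C * R.card)) := by
          apply mul_le_mul_of_nonneg_left _ (sq_nonneg _)
          exact h1.trans (mul_le_mul_of_nonneg_left h2 hdc)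
      _ = ((d - c) * C) * (θ ^ 2 * R.card) := by ring
      _ ≤ ((d - c) * C) * ε ^ 2 := mul_le_mul_of_nonneg_left hR (by positivity)
  have h4 : |θ| * I ≤ √((d - c) * C) * ε :=
    (abs_le_of_sq_le_sq' h3 (by positivity)).2
  linarith

lemma triv_case {Cs T : ℝ} {k : ℕ} (_hCs : 1 ≤ Cs) (_hT : 1 ≤ T) (htriv : (2:ℝ) ^ (18 * k) < T * (Cs * 8 ^ k)) :
    (1:ℝ) ≤ Cs ^ 3 * T ^ 3 * (3/4) ^ k := by
  have h2 : ((2:ℝ) ^ (18 * k)) ^ 3 < (T * (Cs * 8 ^ k)) ^ 3 := pow_lt_pow_left₀ htriv (by positivity) (by norm_num)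
  have h3 : ((2:ℝ) ^ (18 * k)) ^ 3 = 8 ^ (k * 3) * 2 ^ (45 * k) := by
    rw [← pow_mul, show (8:ℝ) = 2 ^ 3 by norm_num, ← pow_mul, ← pow_add]; congr 1; ring
  have h4 : (T * (Cs * 8 ^ k)) ^ 3 = 8 ^ (k * 3) * (Cs ^ 3 * T ^ 3) := by rw [mul_pow, mul_pow, ← pow_mul]; ring
  rw [h3, h4] at h2
  have h5 : (2:ℝ) ^ (45 * k) < Cs ^ 3 * T ^ 3 := lt_of_mul_lt_mul_left h2 (by positivity)
  have h6 : 1 ≤ (2:ℝ) ^ (45 * k) * (3/4) ^ k := by
    rw [pow_mul, ← mul_pow]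
    exact one_le_pow₀ (by norm_num)
  exact h6.trans (mul_le_mul_of_nonneg_right h5.le (by positivity))

lemma two_mul_le {x y : ℝ} (hx : 1 ≤ x) (hy : 1 ≤ y) : x + y ≤ 2 * (x * y) := by nlinarith

lemma three_four (x : ℝ) : 3 * x ^ 2 ≤ (2 * x) ^ 2 := by nlinarith [sq_nonneg x]

lemma hell_lem {H hh : ℕ} {T p P18 : ℝ} (hH1 : 1 ≤ H) (hh1 : 1 ≤ hh) (hT0 : 0 < T) (hP0 : 0 < P18)
    (hHP : (H:ℝ) * H ≤ P18 ^ 2) (hhp : (hh:ℝ) / H ≤ p ^ 2) {θ' : ℝ} {m' nn nn' : ℕ} {R : Finset ℕ}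
    (k1 : nn + m' * (H + hh) ≤ nn') (k2 : R.card ≤ m' * hh + (H + hh))
    (k3 : |θ'| * P18 ≤ T) (k4 : θ' ^ 2 * ((nn' - nn : ℕ) : ℝ) ≤ T ^ 2) : θ' ^ 2 * R.card ≤ (2 * T * p) ^ 2 := by
  have k5 : (R.card : ℝ) ≤ m' * hh + (H + hh) := by exact_mod_cast k2
  have k6 : (m' : ℝ) * H ≤ ((nn' - nn : ℕ) : ℝ) := by
    have : m' * H ≤ nn' - nn := by
      have : m' * (H + hh) = m' * H + m' * hh := by ring
      omega
    exact_mod_cast this
  have hhh1 : (1:ℝ) ≤ hh := by exact_mod_cast hh1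
  have hHr1 : (1:ℝ) ≤ H := by exact_mod_cast hH1
  have hHpos : (0:ℝ) < H := by linarith
  have hsq : 0 ≤ θ' ^ 2 := sq_nonneg _
  -- first part
  have k7 : θ' ^ 2 * (m' * hh) ≤ T ^ 2 * (hh / H) := by
    rw [mul_div_assoc', le_div_iff₀ hHpos]
    calc θ' ^ 2 * (m' * hh) * H = θ' ^ 2 * (m' * H) * hh := by ring
      _ ≤ θ' ^ 2 * ((nn' - nn : ℕ) : ℝ) * hh := by gcongr
      _ ≤ T ^ 2 * hh := by gcongr
  have k8 : θ' ^ 2 ≤ T ^ 2 / P18 ^ 2 := by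
    rw [le_div_iff₀ (by positivity)]
    calc θ' ^ 2 * P18 ^ 2 = (|θ'| * P18) ^ 2 := by rw [mul_pow, sq_abs]
      _ ≤ T ^ 2 := pow_le_pow_left₀ (by positivity) k3 2
  have k9 : θ' ^ 2 * ((H:ℝ) + hh) ≤ 2 * (T ^ 2 * (hh / H)) := by
    have l1 : ((H:ℝ) + hh) ≤ 2 * (H * hh) := two_mul_le hHr1 hhh1
    have l2 : (H:ℝ) * hh / P18 ^ 2 ≤ hh / H := by
      rw [div_le_div_iff₀ (by positivity) hHpos]
      calc (H:ℝ) * hh * H = hh * (H * H) := by ring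
        _ ≤ hh * P18 ^ 2 := mul_le_mul_of_nonneg_left hHP (by positivity)
    calc θ' ^ 2 * ((H:ℝ) + hh) ≤ T ^ 2 / P18 ^ 2 * (2 * (H * hh)) := mul_le_mul k8 l1 (by positivity) (by positivity)
      _ = 2 * (T ^ 2 * (H * hh / P18 ^ 2)) := by ring
      _ ≤ _ := by gcongr
  calc θ' ^ 2 * R.card ≤ θ' ^ 2 * (m' * hh + (H + hh)) := mul_le_mul_of_nonneg_left k5 hsq
    _ = θ' ^ 2 * (m' * hh) + θ' ^ 2 * (H + hh) := by ring
    _ ≤ T ^ 2 * (hh / H) + 2 * (T ^ 2 * (hh / H)) := add_le_add k7 k9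
    _ = 3 * (T ^ 2 * (hh / H)) := by ring
    _ ≤ 3 * (T ^ 2 * p ^ 2) := by gcongr
    _ = 3 * (T * p) ^ 2 := by rw [mul_pow]
    _ ≤ (2 * (T * p)) ^ 2 := three_four _
    _ = (2 * T * p) ^ 2 := by rw [mul_assoc]

lemma D3_lem {Cs : ℝ} {k : ℕ} (hCs : 1 ≤ Cs) : (Cs * 8 ^ k) ^ 3 ≤ Cs ^ 3 * (3/4) ^ k * 2 ^ (18 * k) := by
  rw [mul_pow, mul_assoc]
  apply mul_le_mul_of_nonneg_left _ (by positivity)
  rw [← pow_mul, mul_comm k 3, pow_mul, pow_mul, ← mul_pow]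
  exact pow_le_pow_left₀ (by norm_num) (by norm_num) k

lemma key_lem {H hh : ℕ} {T p P18 D Cs : ℝ} (hH1 : 1 ≤ H) (hT0 : 0 < T) (hP0 : 0 < P18) (hD3 : D ^ 3 ≤ Cs ^ 3 * p * P18)
    (hD0 : 0 ≤ D) {θ' : ℝ} {m' nn nn' : ℕ} (k1 : nn + m' * (H + hh) ≤ nn')
    (k2 : |θ'| * P18 ≤ T) (k3 : θ' ^ 2 * ((nn' - nn : ℕ) : ℝ) ≤ T ^ 2) : (m':ℝ) * (|θ'| * D) ^ 3 ≤ Cs ^ 3 * (T ^ 3 * p) := by
  have k4 : (m':ℝ) ≤ ((nn' - nn : ℕ) : ℝ) := by
    have : m' * 1 ≤ m' * (H + hh) := Nat.mul_le_mul_left _ (by omega)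
    have : m' ≤ nn' - nn := by omega
    exact_mod_cast this
  have k5 : (m':ℝ) * (|θ'| * D) ^ 3 = (θ' ^ 2 * m') * |θ'| * D ^ 3 := by
    rw [← sq_abs θ']; ring
  rw [k5]
  have k6 : |θ'| ≤ T / P18 := by rw [le_div_iff₀ hP0]; exact k2
  have k7 : D ^ 3 / P18 ≤ Cs ^ 3 * p := by rw [div_le_iff₀ hP0]; exact hD3
  calc (θ' ^ 2 * m') * |θ'| * D ^ 3 ≤ T ^ 2 * (T / P18) * D ^ 3 := by
        have : θ' ^ 2 * m' ≤ T ^ 2 := (mul_le_mul_of_nonneg_left k4 (sq_nonneg _)).trans k3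
        gcongr
    _ = T ^ 3 * (D ^ 3 / P18) := by ring
    _ ≤ T ^ 3 * (Cs ^ 3 * p) := mul_le_mul_of_nonneg_left k7 (by positivity)
    _ = _ := by ring

lemma B2b_lem {Cs T C Θ m ex : ℝ} {k : ℕ} (hCs : 1 ≤ Cs) (hT : 1 ≤ T) (hC : 0 ≤ C) (hΘ0 : 0 ≤ Θ) (hΘT : Θ ≤ T) (hm : 0 ≤ m)
    (hmn : m ≤ 2 ^ (72 * (k + 1))) (hex : 0 ≤ ex) :
    m * (2 * ((Cs * 8 ^ k) ^ 2 * (ex * (2 * 2 ^ k + 1) ^ 4 *
      (C * (m * (Θ * (2 ^ k * (2 * π * 2 ^ k * (Cs * 4 ^ k)))) + 1))))) ≤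
      T * (2 * (Cs ^ 2 * 81 * (C * (2 * π * Cs + 1))) * (ex * 2 ^ (158 * (k + 1)))) := by
  have hpi := Real.pi_pos
  have h2k : (1:ℝ) ≤ 2 ^ k := one_le_pow₀ (by norm_num)
  have h2k1 : (2:ℝ) * 2 ^ k + 1 ≤ 3 * 2 ^ k := by linarith
  obtain ⟨N, hN⟩ : ∃ N : ℝ, N = 2 ^ (72 * (k + 1)) := ⟨_, rfl⟩
  rw [← hN] at hmn
  have hN1 : 1 ≤ N := by rw [hN]; exact one_le_pow₀ (by norm_num)
  have hinner : (m * (Θ * (2 ^ k * (2 * π * 2 ^ k * (Cs * 4 ^ k)))) + 1) ≤ (2 * π * Cs + 1) * T * (N * 2 ^ (4 * k)) := by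
    have k1 : m * (Θ * (2 ^ k * (2 * π * 2 ^ k * (Cs * 4 ^ k)))) ≤ N * (T * (2 ^ k * (2 * π * 2 ^ k * (Cs * 4 ^ k)))) := by
      gcongr
    have k2 : N * (T * (2 ^ k * (2 * π * 2 ^ k * (Cs * 4 ^ k)))) = 2 * π * Cs * T * (N * 2 ^ (4 * k)) := by
      have : (2:ℝ) ^ (4 * k) = 2 ^ k * 2 ^ k * 4 ^ k := by
        rw [show (4:ℝ) = 2 ^ 2 by norm_num, ← pow_mul, ← pow_add, ← pow_add]; congr 1; ring
      rw [this]; ring
    have k3 : (1:ℝ) ≤ T * (N * 2 ^ (4 * k)) := by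
      have k31 : (1:ℝ) ≤ 2 ^ (4 * k) := one_le_pow₀ (by norm_num)
      exact one_le_mul_of_one_le_of_one_le hT (one_le_mul_of_one_le_of_one_le hN1 k31)
    calc _ ≤ 2 * π * Cs * T * (N * 2 ^ (4 * k)) + T * (N * 2 ^ (4 * k)) := by linarith
      _ = _ := by ring
  have hAbig : m * (2 * ((Cs * 8 ^ k) ^ 2 * (ex * (2 * 2 ^ k + 1) ^ 4 *
      (C * (m * (Θ * (2 ^ k * (2 * π * 2 ^ k * (Cs * 4 ^ k)))) + 1))))) ≤
      N * (2 * ((Cs * 8 ^ k) ^ 2 * (ex * (3 * 2 ^ k) ^ 4 *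
      (C * ((2 * π * Cs + 1) * T * (N * 2 ^ (4 * k))))))) := by
    gcongr
  have hcomp : N * (2 * ((Cs * 8 ^ k) ^ 2 * (ex * (3 * 2 ^ k) ^ 4 *
      (C * ((2 * π * Cs + 1) * T * (N * 2 ^ (4 * k))))))) =
      T * (2 * (Cs ^ 2 * 81 * (C * (2 * π * Cs + 1))) * (ex * 2 ^ (144 * (k + 1) + 14 * k))) := by
    have q1 : (2:ℝ) ^ (144 * (k + 1) + 14 * k) = N * N * ((8 ^ k) ^ 2 * (2 ^ k) ^ 4 * 2 ^ (4 * k)) := by
      rw [hN, show (8:ℝ) = 2 ^ 3 by norm_num]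
      simp only [← pow_mul, ← pow_add]
      congr 1
      ring
    rw [q1]
    ring
  refine hAbig.trans ?_
  rw [hcomp]
  have h1 : (2:ℝ) ^ (144 * (k + 1) + 14 * k) ≤ 2 ^ (158 * (k + 1)) := pow_le_pow_right₀ (by norm_num) (by omega)
  gcongr

/-- the characteristic function of the sum over two windows -/
theorem win2 (hb : Bd af) (h : Sq a b δ) (hc : 0 < c) (hcd : c ≤ d) (φ : ℝ) (hw : Wg c d W0 W1 w) :
    ∃ C : ℝ, 0 < C ∧ ∃ k0 : ℕ, ∀ k : ℕ, k0 ≤ k → ∀ n1 n2 n3 n4 : ℕ, (k + 1) ^ 2 ≤ n1 → n1 ≤ n2 → n2 ≤ n3 → n3 ≤ n4 →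
      n4 ≤ 2 ^ (72 * (k + 1)) → ∀ θ1 θ2 T : ℝ, 1 ≤ T → |θ1| * 2 ^ (18 * k) ≤ T → |θ2| * 2 ^ (18 * k) ≤ T →
      θ1 ^ 2 * ((n2 - n1 : ℕ) : ℝ) ≤ T ^ 2 → θ2 ^ 2 * ((n4 - n3 : ℕ) : ℝ) ≤ T ^ 2 →
      ‖(∫ y in c..d, w y * Complex.exp (((θ1 * WS af φ a b 72 n1 n2 y + θ2 * WS af φ a b 72 n3 n4 y : ℝ) : ℂ) * Complex.I)) -
        ((exp (-((θ1 ^ 2 * WV af 72 n1 n2 + θ2 ^ 2 * WV af 72 n3 n4) / 2)) : ℝ) : ℂ) * ∫ y in c..d, w y‖ ≤
        C * T ^ 3 * (3/4) ^ k := by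
  obtain ⟨Cs, hCs, hAA⟩ := AA_le hb
  obtain ⟨V, hV, hVb⟩ := vv_bd hb
  obtain ⟨CL, hCL, hLe⟩ := left_est hb h hc hcd φ 72
  have hW0 := hw.n0 hcd
  have hW1 := hw.n1
  have hdc : 0 ≤ d - c := by linarith
  have hC3 := C3_nonneg h hcd hW0 hW1
  have hpi := Real.pi_pos
  have hsc : 0 < δ * c / 2 := by
    have := h.dpos
    positivity
  set KA : ℝ := 2 * (Cs ^ 2 * 81 * (C3 W0 W1 δ c d (b 0) * (2 * π * Cs + 1))) with hKA
  have hKA0 : 0 ≤ KA := by positivity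
  obtain ⟨k0, hk0⟩ := eventually_atTop.mp ((ev1 hsc KA 158).and (ev2.and (eventually_ge_atTop 1)))
  refine ⟨2 * ((d - c) * W0) * Cs ^ 3 + (4 * ((d - c) * W0 * Cs ^ 3) + 1) + W0 * (2 * (CL * 2)) + 4 * V * ((d - c) * W0) + 1, by positivity, k0, ?_⟩
  intro k hk n1 n2 n3 n4 hn1 hn12 hn23 hn34 hn4 θ1 θ2 T hT hθ1 hθ2 hT1 hT2
  have hkk := hk0 k hk
  have hT0 : 0 < T := by linarith
  obtain ⟨p, hp⟩ : ∃ p : ℝ, p = (3/4 : ℝ) ^ k := ⟨_, rfl⟩
  rw [← hp] at hkk ⊢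
  have hp0 : 0 < p := by rw [hp]; positivity
  have hp1 : p ≤ 1 := by rw [hp]; exact pow_le_one₀ (by norm_num) (by norm_num)
  obtain ⟨H, hH⟩ : ∃ H : ℕ, H = 2 ^ k := ⟨_, rfl⟩
  obtain ⟨hh, hhd⟩ : ∃ hh : ℕ, hh = (k + 1) ^ 2 := ⟨_, rfl⟩
  obtain ⟨NN, hNN⟩ : ∃ NN : ℕ, NN = 2 ^ (72 * (k + 1)) := ⟨_, rfl⟩
  rw [← hhd] at hn1
  rw [← hNN] at hn4
  have hHr : ((H:ℕ):ℝ) = 2 ^ k := by rw [hH]; push_cast; rfl
  have hhr : ((hh:ℕ):ℝ) = ((k:ℝ) + 1) ^ 2 := by rw [hhd]; push_cast; rfl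
  have hH1 : 1 ≤ H := by rw [hH]; exact Nat.one_le_two_pow
  have hh1 : 1 ≤ hh := by rw [hhd]; exact Nat.one_le_pow _ _ (Nat.succ_pos k)
  obtain ⟨A, hA⟩ : ∃ A : ℝ, A = Cs * 4 ^ k := ⟨_, rfl⟩
  obtain ⟨D, hD⟩ : ∃ D : ℝ, D = Cs * 8 ^ k := ⟨_, rfl⟩
  obtain ⟨P18, hP18⟩ : ∃ P18 : ℝ, P18 = 2 ^ (18 * k) := ⟨_, rfl⟩
  rw [← hP18] at hθ1 hθ2
  have h4k : (1:ℝ) ≤ 4 ^ k := one_le_pow₀ (by norm_num)
  have h8k : (1:ℝ) ≤ 8 ^ k := one_le_pow₀ (by norm_num)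
  have h2k : (1:ℝ) ≤ 2 ^ k := one_le_pow₀ (by norm_num)
  have hA1 : 1 ≤ A := by rw [hA]; exact one_le_mul_of_one_le_of_one_le hCs h4k
  have hD1 : 1 ≤ D := by rw [hD]; exact one_le_mul_of_one_le_of_one_le hCs h8k
  have hHA : (H:ℝ) * A ≤ D := by
    rw [hHr, hA, hD]
    have : (2:ℝ) ^ k * (Cs * 4 ^ k) = Cs * 8 ^ k := by
      rw [show (8:ℝ) = 2 * 4 by norm_num, mul_pow]; ring
    exact this.le
  -- degrees
  have hMqk : ∀ n : ℕ, n < NN → Mq 72 n ≤ 2 ^ k := by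
    intro n hn
    unfold Mq
    apply Nat.pow_le_pow_right (by norm_num)
    have h1 : Nat.log 2 n < 72 * (k + 1) := by
      rcases Nat.eq_zero_or_pos n with h0 | h0
      · subst h0; simp
      · rw [hNN] at hn
        exact Nat.log_lt_of_lt_pow h0.ne' hn
    have h2 : Nat.log 2 n / 72 < k + 1 := Nat.div_lt_of_lt_mul h1
    exact Nat.lt_succ_iff.mp h2
  have hMr : ∀ n : ℕ, n < NN → ((Mq 72 n : ℕ) : ℝ) ≤ 2 ^ k := by
    intro n hn
    exact_mod_cast hMqk n hn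
  have hAn : ∀ n : ℕ, n < NN → AA af (Mq 72 n) ≤ A := by
    intro n hn
    refine (hAA _).trans ?_
    rw [hA]
    apply mul_le_mul_of_nonneg_left _ (by linarith)
    calc ((Mq 72 n : ℕ) : ℝ) ^ 2 ≤ (2 ^ k) ^ 2 := pow_le_pow_left₀ (Nat.cast_nonneg _) (hMr n hn) 2
      _ = 4 ^ k := by rw [← pow_mul, mul_comm k 2, pow_mul]; norm_num
  -- trivial case
  by_cases htriv : P18 < T * D
  · have hX0 : 0 ≤ (θ1 ^ 2 * WV af 72 n1 n2 + θ2 ^ 2 * WV af 72 n3 n4) / 2 := by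
      have := WV_nonneg (af := af) 72 n1 n2
      have := WV_nonneg (af := af) 72 n3 n4
      positivity
    refine (triv hcd hw _ hX0).trans ?_
    have h1 : (1:ℝ) ≤ Cs ^ 3 * T ^ 3 * p := by
      rw [hP18, hD] at htriv
      rw [hp]
      exact triv_case hCs hT htriv
    have h2 : 2 * ((d - c) * W0) ≤ 2 * ((d - c) * W0) * (Cs ^ 3 * T ^ 3 * p) := le_mul_of_one_le_right (by positivity) h1
    have h3 : 0 ≤ ((4 * ((d - c) * W0 * Cs ^ 3) + 1) + W0 * (2 * (CL * 2)) + 4 * V * ((d - c) * W0) + 1) * T ^ 3 * p := by positivity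
    calc 2 * ((d - c) * W0) ≤ 2 * ((d - c) * W0) * (Cs ^ 3 * T ^ 3 * p) := h2
      _ ≤ 2 * ((d - c) * W0) * (Cs ^ 3 * T ^ 3 * p) + ((4 * ((d - c) * W0 * Cs ^ 3) + 1) + W0 * (2 * (CL * 2)) + 4 * V * ((d - c) * W0) + 1) * T ^ 3 * p := by linarith
      _ = _ := by ring
  · push Not at htriv
    obtain ⟨m1, R1, g1, g2, g3, g4⟩ := split_window (n1 := n1) (n2 := n2) (H := H) (h := hh) (by omega) hn12
    obtain ⟨m2, R2, f1, f2, f3, f4⟩ := split_window (n1 := n3) (n2 := n4) (H := H) (h := hh) (by omega) hn34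
    -- blocks
    set s : ℕ → ℕ := fun i => if i < m1 then n1 + i * (H + hh) else n3 + (i - m1) * (H + hh) with hs
    set θ : ℕ → ℝ := fun i => if i < m1 then θ1 else θ2 with hθ
    set m : ℕ := m1 + m2 with hm
    have hs0 : hh ≤ s 0 := by
      rw [hs]
      simp only
      split_ifs <;> omega
    have hss : ∀ i, s i + H + hh ≤ s (i + 1) := by
      intro i
      rw [hs]
      simp only
      split_ifs with c1 c2 c2
      · have : (i + 1) * (H + hh) = i * (H + hh) + (H + hh) := by ring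
        omega
      · have h1 : (i + 1) * (H + hh) = i * (H + hh) + (H + hh) := by ring
        have h2 : i + 1 = m1 := by omega
        rw [← h2] at g1
        have h3 : i + 1 - m1 = 0 := by omega
        rw [h3]
        omega
      · omega
      · have h1 : i + 1 - m1 = (i - m1) + 1 := by omega
        rw [h1]
        have : (i - m1 + 1) * (H + hh) = (i - m1) * (H + hh) + (H + hh) := by ring
        omega
    have hblk : ∀ i < m, ∀ n ∈ Finset.Ico (s i) (s i + H), n < NN := by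
      intro i hi n hn
      have h1 := (Finset.mem_Ico.mp hn).2
      rw [hs] at h1
      simp only at h1
      split_ifs at h1 with c1
      · have h2 : (i + 1) * (H + hh) ≤ m1 * (H + hh) := Nat.mul_le_mul_right _ (by omega)
        have h3 : (i + 1) * (H + hh) = i * (H + hh) + (H + hh) := by ring
        omega
      · have h2 : (i - m1 + 1) * (H + hh) ≤ m2 * (H + hh) := Nat.mul_le_mul_right _ (by omega)
        have h3 : (i - m1 + 1) * (H + hh) = (i - m1) * (H + hh) + (H + hh) := by ring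
        omega
    have hP0 : 0 < P18 := by rw [hP18]; positivity
    obtain ⟨Θ, hΘ⟩ : ∃ Θ : ℝ, Θ = T / P18 := ⟨_, rfl⟩
    have hΘ0 : 0 ≤ Θ := by rw [hΘ]; positivity
    have hθ1' : |θ1| ≤ Θ := by rw [hΘ, le_div_iff₀ hP0]; exact hθ1
    have hθ2' : |θ2| ≤ Θ := by rw [hΘ, le_div_iff₀ hP0]; exact hθ2
    have hθi : ∀ i, |θ i| ≤ Θ := by
      intro i
      rw [hθ]
      simp only
      split_ifs
      · exact hθ1'
      · exact hθ2'
    have hΘD : Θ * D ≤ 1 := by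
      rw [hΘ, div_mul_eq_mul_div, div_le_one hP0]
      exact htriv
    have hmas := master (ag := af) (φ := φ) (Mf := Mq 72) h hc hcd hw (s := s) (H := H) (hh := hh) (m := m) hh1 hs0 hss
      (A := A) (Mr := 2 ^ k) (fun i hi n hn => hAn n (hblk i hi n hn)) hA1 (fun i hi n hn => hMr n (hblk i hi n hn))
      (by positivity) (θ := θ) (Θ := Θ) (D := D) hθi hHA hD1 hΘD m le_rfl
    -- identification of the block sum
    have hsum2 : ∀ f : ℕ → ℝ → ℝ, ∑ i ∈ Finset.range m, f (s i) (θ i) =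
        ∑ i ∈ Finset.range m1, f (n1 + i * (H + hh)) θ1 + ∑ i ∈ Finset.range m2, f (n3 + i * (H + hh)) θ2 := by
      intro f
      rw [hm, Finset.sum_range_add]
      congr 1
      · apply Finset.sum_congr rfl
        intro i hi
        have := Finset.mem_range.mp hi
        rw [hs, hθ]
        simp only
        rw [if_pos this, if_pos this]
      · apply Finset.sum_congr rfl
        intro i _
        rw [hs, hθ]
        simp only
        rw [if_neg (by omega), if_neg (by omega)]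
        congr 3
        omega
    have hSB : ∀ y, SB af φ a b (Mq 72) s H θ m y = θ1 * WS af φ a b 72 n1 n2 y + θ2 * WS af φ a b 72 n3 n4 y -
        (θ1 * (∑ n ∈ R1, XX af φ a b (Mq 72) n y) + θ2 * (∑ n ∈ R2, XX af φ a b (Mq 72) n y)) := by
      intro y
      unfold SB
      rw [hsum2 (fun s' θ' => θ' * BS af φ a b (Mq 72) s' H y)]
      unfold WS
      rw [g4 (fun n => XX af φ a b (Mq 72) n y), f4 (fun n => XX af φ a b (Mq 72) n y)]
      simp only [BS, ← Finset.mul_sum]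
      ring
    -- bounds for the leftovers
    have hHP : (H:ℝ) * H ≤ P18 ^ 2 := by
      rw [hHr, hP18, ← pow_mul, ← pow_add]
      exact pow_le_pow_right₀ (by norm_num) (by omega)
    have hhp : (hh:ℝ) / H ≤ p ^ 2 := by rw [hHr, hhr]; exact hkk.2.1
    have hell := fun (θ' : ℝ) (m' nn nn' : ℕ) (R : Finset ℕ) => hell_lem (θ' := θ') (m' := m') (nn := nn) (nn' := nn')
      (R := R) hH1 hh1 hT0 hP0 hHP hhp
    have L1 := hell θ1 m1 n1 n2 R1 g1 g3 hθ1 hT1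
    have L2 := hell θ2 m2 n3 n4 R2 f1 f3 hθ2 hT2
    have hTp : 0 ≤ 2 * T * p := by positivity
    have I1 := hLe R1 θ1 (2 * T * p) hTp L1
    have I2 := hLe R2 θ2 (2 * T * p) hTp L2
    -- first comparison
    set S : ℝ → ℝ := fun y => θ1 * WS af φ a b 72 n1 n2 y + θ2 * WS af φ a b 72 n3 n4 y with hS
    have hSc : Continuous S := by
      rw [hS]
      exact (continuous_const.mul (WS_cont 72 n1 n2)).add (continuous_const.mul (WS_cont 72 n3 n4))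
    have hr1c : Continuous fun y => ∑ n ∈ R1, XX af φ a b (Mq 72) n y := continuous_finsetSum _ fun n _ => XX_cont af φ a b (Mq 72) n
    have hr2c : Continuous fun y => ∑ n ∈ R2, XX af φ a b (Mq 72) n y := continuous_finsetSum _ fun n _ => XX_cont af φ a b (Mq 72) n
    have hSBc : Continuous (SB af φ a b (Mq 72) s H θ m) := by
      unfold SB
      exact continuous_finsetSum _ fun i _ => continuous_const.mul (BS_cont _ _)
    have hcmp := chg hcd hw hSc hSBc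
    have hdiff : ∫ y in c..d, |S y - SB af φ a b (Mq 72) s H θ m y| ≤ 2 * (CL * (2 * T * p)) := by
      have k1 : ∀ y, |S y - SB af φ a b (Mq 72) s H θ m y| ≤
          |θ1| * |∑ n ∈ R1, XX af φ a b (Mq 72) n y| + |θ2| * |∑ n ∈ R2, XX af φ a b (Mq 72) n y| := by
        intro y
        rw [hSB y, hS]
        simp only
        rw [sub_sub_cancel]
        refine (abs_add_le _ _).trans ?_
        rw [abs_mul, abs_mul]
      calc ∫ y in c..d, |S y - SB af φ a b (Mq 72) s H θ m y|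
          ≤ ∫ y in c..d, (|θ1| * |∑ n ∈ R1, XX af φ a b (Mq 72) n y| + |θ2| * |∑ n ∈ R2, XX af φ a b (Mq 72) n y|) := by
            apply intervalIntegral.integral_mono_on hcd ((hSc.sub hSBc).abs.intervalIntegrable _ _)
              (((continuous_const.mul hr1c.abs).add (continuous_const.mul hr2c.abs)).intervalIntegrable _ _)
            intro y _
            exact k1 y
        _ = |θ1| * (∫ y in c..d, |∑ n ∈ R1, XX af φ a b (Mq 72) n y|) + |θ2| * ∫ y in c..d, |∑ n ∈ R2, XX af φ a b (Mq 72) n y| := by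
            have j1 : IntervalIntegrable (fun y => |θ1| * |∑ n ∈ R1, XX af φ a b (Mq 72) n y|) volume c d :=
              (continuous_const.mul hr1c.abs).intervalIntegrable _ _
            have j2 : IntervalIntegrable (fun y => |θ2| * |∑ n ∈ R2, XX af φ a b (Mq 72) n y|) volume c d :=
              (continuous_const.mul hr2c.abs).intervalIntegrable _ _
            rw [intervalIntegral.integral_add j1 j2, intervalIntegral.integral_const_mul,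
              intervalIntegral.integral_const_mul]
        _ ≤ _ := by linarith
    have B1 : ‖(∫ y in c..d, w y * Complex.exp ((S y : ℂ) * Complex.I)) -
        ∫ y in c..d, w y * Complex.exp ((SB af φ a b (Mq 72) s H θ m y : ℂ) * Complex.I)‖ ≤ W0 * (2 * (CL * 2)) * (T ^ 3 * p) := by
      refine hcmp.trans ?_
      have hT3 : T ≤ T ^ 3 := by
        calc T = T ^ 1 := (pow_one T).symm
          _ ≤ T ^ 3 := pow_le_pow_right₀ hT (by norm_num)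
      calc W0 * ∫ y in c..d, |S y - SB af φ a b (Mq 72) s H θ m y| ≤ W0 * (2 * (CL * (2 * T * p))) :=
            mul_le_mul_of_nonneg_left hdiff hW0
        _ = W0 * (2 * (CL * 2)) * (T * p) := by ring
        _ ≤ _ := by gcongr
    -- the error of the block sum
    have hB2a : ∑ i' ∈ Finset.range m, 2 * ((d - c) * W0 * (|θ i'| * D) ^ 3) ≤ 4 * ((d - c) * W0 * Cs ^ 3) * (T ^ 3 * p) := by
      rw [hsum2 (fun _ θ' => 2 * ((d - c) * W0 * (|θ'| * D) ^ 3)), Finset.sum_const, Finset.sum_const, Finset.card_range,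
        Finset.card_range, nsmul_eq_mul, nsmul_eq_mul]
      have hD3 : D ^ 3 ≤ Cs ^ 3 * p * P18 := by
        rw [hD, hp, hP18]
        exact D3_lem hCs
      have key := fun (θ' : ℝ) (m' nn nn' : ℕ) => key_lem (θ' := θ') (m' := m') (nn := nn) (nn' := nn') (H := H) (hh := hh)
        hH1 hT0 hP0 hD3 (by linarith : 0 ≤ D)
      have j1 := key θ1 m1 n1 n2 g1 hθ1 hT1
      have j2 := key θ2 m2 n3 n4 f1 hθ2 hT2
      have hdW : 0 ≤ 2 * ((d - c) * W0) := by positivity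
      have j3 := mul_le_mul_of_nonneg_left (add_le_add j1 j2) hdW
      calc (m1:ℝ) * (2 * ((d - c) * W0 * (|θ1| * D) ^ 3)) + m2 * (2 * ((d - c) * W0 * (|θ2| * D) ^ 3))
          = 2 * ((d - c) * W0) * (m1 * (|θ1| * D) ^ 3 + m2 * (|θ2| * D) ^ 3) := by ring
        _ ≤ _ := j3
        _ = _ := by ring
    have hB2b : (m:ℝ) * (2 * (D ^ 2 * (exp (-(δ * c * hh / 2)) * (2 * 2 ^ k + 1) ^ 4 *
        (C3 W0 W1 δ c d (b 0) * (m * (Θ * (H * (2 * π * 2 ^ k * A))) + 1))))) ≤ T ^ 3 * p := by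
      have hmn : (m:ℝ) ≤ 2 ^ (72 * (k + 1)) := by
        have k1 : m1 * 1 ≤ m1 * (H + hh) := Nat.mul_le_mul_left _ (by omega)
        have k2 : m2 * 1 ≤ m2 * (H + hh) := Nat.mul_le_mul_left _ (by omega)
        have k3 : m ≤ NN := by omega
        rw [hNN] at k3
        exact_mod_cast k3
      have hΘT : Θ ≤ T := by
        rw [hΘ]
        apply div_le_self hT0.le
        rw [hP18]
        exact one_le_pow₀ (by norm_num)
      have hexp : exp (-(δ * c * hh / 2)) = exp (-(δ * c / 2 * ((k:ℝ) + 1) ^ 2)) := by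
        rw [hhr]; congr 1; ring
      rw [hexp, hHr, hA, hD]
      refine (B2b_lem hCs hT hC3 hΘ0 hΘT (Nat.cast_nonneg m) hmn (Real.exp_pos _).le).trans ?_
      rw [← hKA]
      have hlast := hkk.1
      have hT3 : T ≤ T ^ 3 := le_self_pow₀ hT (by norm_num)
      exact mul_le_mul hT3 hlast (by positivity) (by positivity)
    -- the variances
    set VB : ℝ := ∑ i' ∈ Finset.range m, θ i' ^ 2 * BV af (Mq 72) (s i') H / 2 with hVB
    have hVB' : (θ1 ^ 2 * WV af 72 n1 n2 + θ2 ^ 2 * WV af 72 n3 n4) / 2 = VB +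
        (θ1 ^ 2 * (∑ n ∈ R1, vv af (Mq 72 n)) + θ2 ^ 2 * (∑ n ∈ R2, vv af (Mq 72 n))) / 2 := by
      rw [hVB, hsum2 (fun s' θ' => θ' ^ 2 * BV af (Mq 72) s' H / 2)]
      unfold WV
      rw [g4 (fun n => vv af (Mq 72 n)), f4 (fun n => vv af (Mq 72 n))]
      simp only [BV, ← Finset.mul_sum, ← Finset.sum_div]
      ring
    set VR : ℝ := (θ1 ^ 2 * (∑ n ∈ R1, vv af (Mq 72 n)) + θ2 ^ 2 * (∑ n ∈ R2, vv af (Mq 72 n))) / 2 with hVR
    have hVB0 : 0 ≤ VB := Finset.sum_nonneg fun i' _ => by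
      have := BV_nonneg (ag := af) (Mf := Mq 72) (s i') H
      positivity
    have hVRle : VR ≤ 4 * V * (T ^ 3 * p) := by
      have k1 : ∀ R : Finset ℕ, ∑ n ∈ R, vv af (Mq 72 n) ≤ V * R.card := by
        intro R
        calc ∑ n ∈ R, vv af (Mq 72 n) ≤ ∑ _n ∈ R, V := Finset.sum_le_sum fun n _ => hVb _
          _ = _ := by rw [Finset.sum_const, nsmul_eq_mul]; ring
      have k2 : θ1 ^ 2 * (∑ n ∈ R1, vv af (Mq 72 n)) ≤ V * (2 * T * p) ^ 2 := by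
        calc θ1 ^ 2 * (∑ n ∈ R1, vv af (Mq 72 n)) ≤ θ1 ^ 2 * (V * R1.card) := mul_le_mul_of_nonneg_left (k1 R1) (sq_nonneg _)
          _ = V * (θ1 ^ 2 * R1.card) := by ring
          _ ≤ _ := mul_le_mul_of_nonneg_left L1 hV.le
      have k3 : θ2 ^ 2 * (∑ n ∈ R2, vv af (Mq 72 n)) ≤ V * (2 * T * p) ^ 2 := by
        calc θ2 ^ 2 * (∑ n ∈ R2, vv af (Mq 72 n)) ≤ θ2 ^ 2 * (V * R2.card) := mul_le_mul_of_nonneg_left (k1 R2) (sq_nonneg _)
          _ = V * (θ2 ^ 2 * R2.card) := by ring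
          _ ≤ _ := mul_le_mul_of_nonneg_left L2 hV.le
      have k4 : (2 * T * p) ^ 2 ≤ 4 * (T ^ 3 * p) := by
        have l1 : p ^ 2 ≤ p := pow_le_of_le_one hp0.le hp1 (by norm_num)
        have l2 : T ^ 2 ≤ T ^ 3 := pow_le_pow_right₀ hT (by norm_num)
        calc (2 * T * p) ^ 2 = 4 * (T ^ 2 * p ^ 2) := by ring
          _ ≤ 4 * (T ^ 3 * p) := by gcongr
      have k5 := mul_le_mul_of_nonneg_left k4 hV.le
      rw [hVR]
      linarith
    have hVR0 : 0 ≤ VR := by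
      rw [hVR]
      have k1 : 0 ≤ ∑ n ∈ R1, vv af (Mq 72 n) := Finset.sum_nonneg fun n _ => vv_nonneg _ _
      have k2 : 0 ≤ ∑ n ∈ R2, vv af (Mq 72 n) := Finset.sum_nonneg fun n _ => vv_nonneg _ _
      positivity
    have hexpd : |exp (-VB) - exp (-(VB + VR))| ≤ VR := by
      have k1 : exp (-(VB + VR)) = exp (-VB) * exp (-VR) := by rw [← Real.exp_add]; congr 1; ring
      rw [k1]
      have k2 : exp (-VB) - exp (-VB) * exp (-VR) = exp (-VB) * (1 - exp (-VR)) := by ring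
      have k3 : 0 ≤ 1 - exp (-VR) := by
        have : exp (-VR) ≤ 1 := Real.exp_le_one_iff.mpr (by linarith)
        linarith
      rw [k2, abs_of_nonneg (by positivity)]
      have k4 : 1 - exp (-VR) ≤ VR := by
        have := Real.add_one_le_exp (-VR)
        linarith
      have k5 : exp (-VB) ≤ 1 := Real.exp_le_one_iff.mpr (by linarith)
      calc exp (-VB) * (1 - exp (-VR)) ≤ 1 * VR := mul_le_mul k5 k4 k3 zero_le_one
        _ = VR := one_mul _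
    have hwint : ‖∫ y in c..d, w y‖ ≤ (d - c) * W0 := by
      have := intervalIntegral.norm_integral_le_of_norm_le_const (a := c) (b := d) (C := W0)
        (f := w) (by
          intro y hy
          rw [uIoc_of_le hcd] at hy
          exact hw.bd y ⟨hy.1.le, hy.2⟩)
      rw [abs_of_nonneg hdc] at this
      linarith
    have B3 : ‖((exp (-VB) : ℝ) : ℂ) * (∫ y in c..d, w y) - ((exp (-(VB + VR)) : ℝ) : ℂ) * ∫ y in c..d, w y‖ ≤
        4 * V * ((d - c) * W0) * (T ^ 3 * p) := by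
      rw [← sub_mul, ← Complex.ofReal_sub, norm_mul, Complex.norm_real, Real.norm_eq_abs]
      calc |exp (-VB) - exp (-(VB + VR))| * ‖∫ y in c..d, w y‖ ≤ (4 * V * (T ^ 3 * p)) * ((d - c) * W0) :=
            mul_le_mul (hexpd.trans hVRle) hwint (norm_nonneg _) (by positivity)
        _ = _ := by ring
    have B2 : ‖(∫ y in c..d, w y * Complex.exp ((SB af φ a b (Mq 72) s H θ m y : ℂ) * Complex.I)) -
        ((exp (-VB) : ℝ) : ℂ) * ∫ y in c..d, w y‖ ≤ (4 * ((d - c) * W0 * Cs ^ 3) + 1) * (T ^ 3 * p) := by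
      refine hmas.trans ?_
      linarith
    rw [hVB']
    have hfin : (∫ y in c..d, w y * Complex.exp (((θ1 * WS af φ a b 72 n1 n2 y + θ2 * WS af φ a b 72 n3 n4 y : ℝ) : ℂ) * Complex.I)) -
        ((exp (-(VB + VR)) : ℝ) : ℂ) * ∫ y in c..d, w y =
        ((∫ y in c..d, w y * Complex.exp ((S y : ℂ) * Complex.I)) -
          ∫ y in c..d, w y * Complex.exp ((SB af φ a b (Mq 72) s H θ m y : ℂ) * Complex.I)) +
        ((∫ y in c..d, w y * Complex.exp ((SB af φ a b (Mq 72) s H θ m y : ℂ) * Complex.I)) -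
          ((exp (-VB) : ℝ) : ℂ) * ∫ y in c..d, w y) +
        (((exp (-VB) : ℝ) : ℂ) * (∫ y in c..d, w y) - ((exp (-(VB + VR)) : ℝ) : ℂ) * ∫ y in c..d, w y) := by
      rw [hS]; ring
    rw [hfin]
    refine (norm_add_le _ _).trans ((add_le_add ((norm_add_le _ _).trans (add_le_add B1 B2)) B3).trans ?_)
    have hTp3 : 0 ≤ T ^ 3 * p := by positivity
    have hc1 : 0 ≤ 2 * ((d - c) * W0) * Cs ^ 3 * (T ^ 3 * p) := by positivity
    calc W0 * (2 * (CL * 2)) * (T ^ 3 * p) + (4 * ((d - c) * W0 * Cs ^ 3) + 1) * (T ^ 3 * p) + 4 * V * ((d - c) * W0) * (T ^ 3 * p)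
        ≤ (2 * ((d - c) * W0) * Cs ^ 3 * (T ^ 3 * p) + T ^ 3 * p) + (W0 * (2 * (CL * 2)) * (T ^ 3 * p) + (4 * ((d - c) * W0 * Cs ^ 3) + 1) * (T ^ 3 * p) + 4 * V * ((d - c) * W0) * (T ^ 3 * p)) := by linarith
      _ = _ := by ring

end Pool.Agent.D0H48.Cl
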