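import Mathlib
import Pool.Agent.D0H48.Cl.Cf
import Pool.Agent.D0H48.Gr.Fin

/-!
The characteristic functions of the normalised sums of the model variables.
-/

set_option autoImplicit false

open MeasureTheory Filter Topology Set Real
open Pool.Agent.H469R2.NK (e norm_e e_add conj_e e_zero)
open Pool.Agent.H383.Gen (U Bd)
open Pool.Agent.Y969.TM
open Pool.Agent.R306.GP

namespace Pool.Agent.D0H48.Cl

variable {a b : ℕ → ℝ} {δ c d : ℝ} {W0 W1 : ℝ} {w : ℝ → ℂ} {af : ℕ → ℝ} {φ : ℝ}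

/-- the limit variance -/
noncomputable def VV (af : ℕ → ℝ) : ℝ := ∑' m : ℕ, af (m + 1) ^ 2 / 2

lemma vv_range (af : ℕ → ℝ) (M : ℕ) : vv af M = ∑ m ∈ Finset.range (M ^ 2), af (m + 1) ^ 2 / 2 := by
  unfold vv
  rw [Finset.range_eq_Ico, Finset.sum_Ico_add' (fun m => af m ^ 2 / 2) 0 (M ^ 2) 1]
  rfl

lemma VV_summable (hb : Bd af) : Summable fun m : ℕ => af (m + 1) ^ 2 / 2 := by
  obtain ⟨V, hV, hVb⟩ := vv_bd hb
  apply summable_of_sum_range_le (c := V) (fun m => by positivity)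
  intro n
  refine le_trans ?_ (hVb n)
  rw [vv_range]
  apply Finset.sum_le_sum_of_subset_of_nonneg
  · intro x hx
    rw [Finset.mem_range] at hx ⊢
    nlinarith
  · intro _ _ _; positivity

lemma vv_le (hb : Bd af) (M : ℕ) : vv af M ≤ VV af := by
  rw [vv_range]
  exact (VV_summable hb).sum_le_tsum _ (fun _ _ => by positivity)

lemma VV_nonneg (af : ℕ → ℝ) : 0 ≤ VV af := tsum_nonneg fun _ => by positivity

lemma vv_lim (hb : Bd af) : Tendsto (fun M => vv af M) atTop (𝓝 (VV af)) := by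
  have h1 := (VV_summable hb).hasSum.tendsto_sum_nat
  have h2 : Tendsto (fun M : ℕ => M ^ 2) atTop atTop := tendsto_pow_atTop (by norm_num)
  refine (h1.comp h2).congr fun M => ?_
  rw [vv_range]
  rfl

lemma log2_tendsto : Tendsto (fun n : ℕ => Nat.log 2 n) atTop atTop := by
  have := Pool.Agent.D0H48.Gr.natlog_tendsto 0
  simpa using this

lemma div_tendsto {q : ℕ} (hq : 1 ≤ q) : Tendsto (fun n : ℕ => Nat.log 2 n / q) atTop atTop := by
  rw [tendsto_atTop]
  intro K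
  filter_upwards [log2_tendsto.eventually_ge_atTop (K * q)] with n hn
  exact (Nat.le_div_iff_mul_le (by omega)).mpr hn

lemma Mq_tendsto {q : ℕ} (hq : 1 ≤ q) : Tendsto (fun n => Mq q n) atTop atTop := by
  unfold Mq
  exact (tendsto_pow_atTop_atTop_of_one_lt (by norm_num)).comp (div_tendsto hq)

lemma vq_lim (hb : Bd af) {q : ℕ} (hq : 1 ≤ q) : Tendsto (fun n => vv af (Mq q n)) atTop (𝓝 (VV af)) :=
  (vv_lim hb).comp (Mq_tendsto hq)

lemma polylog_small (K : ℕ) : Tendsto (fun N : ℕ => (((Nat.log 2 N : ℕ) : ℝ) + 1) ^ K / √(N:ℝ)) atTop (𝓝 0) := by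
  set r : ℝ := (√2)⁻¹ with hr
  have hs2 : 1 < √2 := by
    rw [Real.lt_sqrt (by norm_num)]; norm_num
  have hr0 : 0 < r := by positivity
  have hr1 : r < 1 := inv_lt_one_of_one_lt₀ hs2
  have h1 : Tendsto (fun j : ℕ => ((j:ℝ) + 1) ^ K * r ^ j) atTop (𝓝 0) := by
    have h2 : Tendsto (fun j : ℕ => ((j:ℝ)) ^ K * r ^ j) atTop (𝓝 0) :=
      tendsto_pow_const_mul_const_pow_of_abs_lt_one K (by rw [abs_of_pos hr0]; exact hr1)
    have h3 := (h2.comp (tendsto_add_atTop_nat 1)).mul_const r⁻¹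
    rw [zero_mul] at h3
    refine h3.congr fun j => ?_
    simp only [Function.comp_apply]
    push_cast
    rw [pow_succ r j]
    field_simp
  have h4 := h1.comp log2_tendsto
  refine squeeze_zero' (Eventually.of_forall fun N => by positivity) ?_ h4
  filter_upwards [eventually_ge_atTop 1] with N hN
  simp only [Function.comp_apply]
  set j := Nat.log 2 N with hj
  have h5 : 2 ^ j ≤ N := Nat.pow_log_le_self 2 (by omega)
  have h6 : (2:ℝ) ^ j ≤ N := by exact_mod_cast h5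
  have h7 : (√2) ^ j ≤ √(N:ℝ) := by
    apply Real.le_sqrt_of_sq_le
    rw [← pow_mul, mul_comm j 2, pow_mul, Real.sq_sqrt (by norm_num)]
    exact h6
  rw [hr, inv_pow, ← div_eq_mul_inv]
  exact div_le_div_of_nonneg_left (by positivity) (by positivity) h7

/-- the level of `N` -/
def kk (N : ℕ) : ℕ := Nat.log 2 N / 72

/-- the start of the window -/
def nn (N : ℕ) : ℕ := (kk N + 1) ^ 2

lemma kk_tendsto : Tendsto kk atTop atTop := div_tendsto (by norm_num)

lemma N_le (N : ℕ) : N ≤ 2 ^ (72 * (kk N + 1)) := by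
  unfold kk
  have h1 : N < 2 ^ (Nat.log 2 N + 1) := Nat.lt_pow_succ_log_self (by norm_num) N
  have h2 : Nat.log 2 N + 1 ≤ 72 * (Nat.log 2 N / 72 + 1) := by omega
  exact h1.le.trans (Nat.pow_le_pow_right (by norm_num) h2)

lemma N_ge {N : ℕ} (hN : 1 ≤ N) : (2:ℝ) ^ (18 * kk N) ≤ √(N:ℝ) := by
  apply Real.le_sqrt_of_sq_le
  rw [← pow_mul]
  have h1 : 18 * kk N * 2 ≤ Nat.log 2 N := by unfold kk; omega
  have h2 : 2 ^ Nat.log 2 N ≤ N := Nat.pow_log_le_self 2 (by omega)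
  calc (2:ℝ) ^ (18 * kk N * 2) ≤ 2 ^ Nat.log 2 N := pow_le_pow_right₀ (by norm_num) h1
    _ ≤ N := by exact_mod_cast h2

lemma nn_le (N : ℕ) : ((nn N : ℕ) : ℝ) ≤ (((Nat.log 2 N : ℕ) : ℝ) + 1) ^ 2 := by
  unfold nn kk
  push_cast
  have h1 : ((Nat.log 2 N / 72 : ℕ) : ℝ) ≤ Nat.log 2 N := by exact_mod_cast Nat.div_le_self _ _
  gcongr

lemma nn_ev : ∀ᶠ N : ℕ in atTop, nn N ≤ N := by
  filter_upwards [(polylog_small 2).eventually (gt_mem_nhds one_pos), eventually_ge_atTop 1] with N hN hN1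
  have hNr : (1:ℝ) ≤ N := by exact_mod_cast hN1
  have hs : 0 < √(N:ℝ) := Real.sqrt_pos.mpr (by linarith)
  rw [div_lt_one hs] at hN
  have h1 : √(N:ℝ) ≤ N := by
    rw [Real.sqrt_le_left (by linarith)]
    nlinarith
  have := nn_le N
  have h2 : ((nn N : ℕ) : ℝ) ≤ N := by linarith
  exact_mod_cast h2

lemma WV_lim (hb : Bd af) : Tendsto (fun N : ℕ => WV af 72 (nn N) N / N) atTop (𝓝 (VV af)) := by
  obtain ⟨V, hV, hVb⟩ := vv_bd hb
  have h1 := (vq_lim hb (q := 72) (by norm_num)).cesaro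
  have h2 : Tendsto (fun N : ℕ => V * ((((Nat.log 2 N : ℕ) : ℝ) + 1) ^ 2 / √(N:ℝ))) atTop (𝓝 (V * 0)) :=
    (polylog_small 2).const_mul V
  rw [mul_zero] at h2
  have h3 : Tendsto (fun N : ℕ => (∑ n ∈ Finset.range (nn N), vv af (Mq 72 n)) / (N:ℝ)) atTop (𝓝 0) := by
    refine squeeze_zero' (Eventually.of_forall fun N => ?_) ?_ h2
    · have : 0 ≤ ∑ n ∈ Finset.range (nn N), vv af (Mq 72 n) := Finset.sum_nonneg fun _ _ => vv_nonneg _ _
      positivity
    · filter_upwards [eventually_ge_atTop 1] with N hN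
      have hNr : (1:ℝ) ≤ N := by exact_mod_cast hN
      have hs : 0 < √(N:ℝ) := Real.sqrt_pos.mpr (by linarith)
      have hs2 : √(N:ℝ) ≤ N := by
        rw [Real.sqrt_le_left (by linarith)]
        nlinarith
      have h4 : ∑ n ∈ Finset.range (nn N), vv af (Mq 72 n) ≤ V * (((Nat.log 2 N : ℕ) : ℝ) + 1) ^ 2 := by
        calc ∑ n ∈ Finset.range (nn N), vv af (Mq 72 n) ≤ ∑ _n ∈ Finset.range (nn N), V := Finset.sum_le_sum fun n _ => hVb _
          _ = V * nn N := by rw [Finset.sum_const, Finset.card_range, nsmul_eq_mul]; ring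
          _ ≤ _ := mul_le_mul_of_nonneg_left (nn_le N) hV.le
      rw [mul_div_assoc']
      exact div_le_div₀ (by positivity) h4 hs hs2
  have h5 := h1.sub h3
  rw [sub_zero] at h5
  refine h5.congr' ?_
  filter_upwards [nn_ev] with N hN
  unfold WV
  rw [Finset.sum_Ico_eq_sub _ hN]
  rw [sub_div]
  congr 1
  rw [div_eq_inv_mul]

/-- the sum of the model variables -/
noncomputable def SS (af : ℕ → ℝ) (φ : ℝ) (a b : ℕ → ℝ) (N : ℕ) (y : ℝ) : ℝ :=
  ∑ n ∈ Finset.range N, XX af φ a b (Mq 72) n y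

lemma SS_cont (N : ℕ) : Continuous (SS af φ a b N) :=
  continuous_finsetSum _ fun n _ => XX_cont af φ a b (Mq 72) n

/-- size of the initial part -/
lemma init_le (hb : Bd af) : ∃ C : ℝ, 0 < C ∧ ∀ (a b : ℕ → ℝ) (φ : ℝ) (m : ℕ) (y : ℝ),
    |∑ n ∈ Finset.range m, XX af φ a b (Mq 72) n y| ≤ C * (m:ℝ) ^ 3 := by
  obtain ⟨Cs, hCs, hAA⟩ := AA_le hb
  refine ⟨Cs, by linarith, fun a b φ m y => ?_⟩
  refine (Finset.abs_sum_le_sum_abs _ _).trans ?_
  calc ∑ n ∈ Finset.range m, |XX af φ a b (Mq 72) n y| ≤ ∑ _n ∈ Finset.range m, Cs * (m:ℝ) ^ 2 := by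
        apply Finset.sum_le_sum
        intro n hn
        have hnm := Finset.mem_range.mp hn
        refine XX_le ?_ y
        refine (hAA _).trans ?_
        have : ((Mq 72 n : ℕ) : ℝ) ≤ m := by
          have := Mq_le 72 n
          exact_mod_cast (by omega : Mq 72 n ≤ m)
        gcongr
    _ = _ := by rw [Finset.sum_const, Finset.card_range, nsmul_eq_mul]; ring

/-- the characteristic functions of the normalised sums of the model variables -/
theorem model_cf (hb : Bd af) (h : Sq a b δ) (hc : 0 < c) (hcd : c ≤ d) (hw : Wg c d W0 W1 w) {t : ℕ → ℝ} {t0 : ℝ}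
    (ht : Tendsto t atTop (𝓝 t0)) :
    Tendsto (fun N : ℕ => ∫ y in c..d, w y * Complex.exp (((t N * (SS af φ a b N y / √(N:ℝ)) : ℝ) : ℂ) * Complex.I)) atTop
      (𝓝 (((exp (-(t0 ^ 2 * VV af / 2)) : ℝ) : ℂ) * ∫ y in c..d, w y)) := by
  obtain ⟨C, hC, k0, hwin⟩ := win2 hb h hc hcd φ hw
  obtain ⟨Ci, hCi, hinit⟩ := init_le hb
  have hW0 := hw.n0 hcd
  have hdc : 0 ≤ d - c := by linarith
  set F : ℕ → ℂ := fun N => ∫ y in c..d, w y * Complex.exp (((t N * (SS af φ a b N y / √(N:ℝ)) : ℝ) : ℂ) * Complex.I) with hF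
  set F1 : ℕ → ℂ := fun N => ∫ y in c..d, w y * Complex.exp ((((t N / √(N:ℝ)) * WS af φ a b 72 (nn N) N y : ℝ) : ℂ) * Complex.I) with hF1
  set F2 : ℕ → ℂ := fun N => ((exp (-(t N ^ 2 * (WV af 72 (nn N) N / N) / 2)) : ℝ) : ℂ) * ∫ y in c..d, w y with hF2
  have hexp : Continuous fun x : ℝ => ((exp (-(x / 2)) : ℝ) : ℂ) := by fun_prop
  -- the last part
  have l3 : Tendsto F2 atTop (𝓝 (((exp (-(t0 ^ 2 * VV af / 2)) : ℝ) : ℂ) * ∫ y in c..d, w y)) := by
    have h1 : Tendsto (fun N => t N ^ 2 * (WV af 72 (nn N) N / N)) atTop (𝓝 (t0 ^ 2 * VV af)) :=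
      (ht.pow 2).mul (WV_lim hb)
    exact ((hexp.tendsto _).comp h1).mul_const _
  -- the second part
  have l2 : Tendsto (fun N => F1 N - F2 N) atTop (𝓝 0) := by
    have h1 : Tendsto (fun N : ℕ => C * (1 + |t N|) ^ 3 * (3/4 : ℝ) ^ (kk N)) atTop (𝓝 (C * (1 + |t0|) ^ 3 * 0)) := by
      apply Tendsto.mul
      · exact (((ht.abs.const_add 1).pow 3).const_mul C)
      · exact (tendsto_pow_atTop_nhds_zero_of_lt_one (by norm_num) (by norm_num)).comp kk_tendsto
    rw [mul_zero] at h1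
    rw [tendsto_zero_iff_norm_tendsto_zero]
    refine squeeze_zero' (Eventually.of_forall fun N => norm_nonneg _) ?_ h1
    filter_upwards [nn_ev, eventually_ge_atTop 1, kk_tendsto.eventually_ge_atTop k0] with N hN hN1 hNk
    have hNr : (1:ℝ) ≤ N := by exact_mod_cast hN1
    have hs : 0 < √(N:ℝ) := Real.sqrt_pos.mpr (by linarith)
    have h2 := hwin (kk N) hNk (nn N) N N N le_rfl hN le_rfl le_rfl (N_le N) (t N / √(N:ℝ)) 0 (1 + |t N|)
      (by have := abs_nonneg (t N); linarith) ?_ ?_ ?_ ?_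
    · have e1 : ∀ y, (t N / √(N:ℝ)) * WS af φ a b 72 (nn N) N y + 0 * WS af φ a b 72 N N y =
          (t N / √(N:ℝ)) * WS af φ a b 72 (nn N) N y := fun y => by ring
      have e2 : ((t N / √(N:ℝ)) ^ 2 * WV af 72 (nn N) N + 0 ^ 2 * WV af 72 N N) / 2 =
          t N ^ 2 * (WV af 72 (nn N) N / N) / 2 := by
        rw [div_pow, Real.sq_sqrt (by linarith)]; ring
      simp only [e1] at h2
      rw [e2] at h2
      exact h2
    · rw [abs_div, abs_of_pos hs, div_mul_eq_mul_div, div_le_iff₀ hs]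
      calc |t N| * 2 ^ (18 * kk N) ≤ |t N| * √(N:ℝ) := mul_le_mul_of_nonneg_left (N_ge hN1) (abs_nonneg _)
        _ ≤ (1 + |t N|) * √(N:ℝ) := by
            apply mul_le_mul_of_nonneg_right _ hs.le
            linarith
    · rw [abs_zero, zero_mul]
      positivity
    · rw [div_pow, Real.sq_sqrt (by linarith), div_mul_eq_mul_div, div_le_iff₀ (by linarith)]
      have h3 : ((N - nn N : ℕ) : ℝ) ≤ N := by exact_mod_cast Nat.sub_le _ _
      have h4 : t N ^ 2 ≤ (1 + |t N|) ^ 2 := by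
        rw [← sq_abs (t N)]
        have := abs_nonneg (t N)
        gcongr
        linarith
      calc t N ^ 2 * ((N - nn N : ℕ) : ℝ) ≤ (1 + |t N|) ^ 2 * N := by gcongr
        _ = _ := rfl
    · simp
      positivity
  -- the first part
  have l1 : Tendsto (fun N => F N - F1 N) atTop (𝓝 0) := by
    have h1 : Tendsto (fun N : ℕ => W0 * ((d - c) * (|t N| * (Ci * ((((Nat.log 2 N : ℕ) : ℝ) + 1) ^ 6 / √(N:ℝ)))))) atTop
        (𝓝 (W0 * ((d - c) * (|t0| * (Ci * 0))))) :=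
      ((ht.abs.mul ((polylog_small 6).const_mul Ci)).const_mul (d - c)).const_mul W0
    rw [mul_zero, mul_zero, mul_zero, mul_zero] at h1
    rw [tendsto_zero_iff_norm_tendsto_zero]
    refine squeeze_zero' (Eventually.of_forall fun N => norm_nonneg _) ?_ h1
    filter_upwards [nn_ev, eventually_ge_atTop 1] with N hN hN1
    have hNr : (1:ℝ) ≤ N := by exact_mod_cast hN1
    have hs : 0 < √(N:ℝ) := Real.sqrt_pos.mpr (by linarith)
    have c1 : Continuous fun y => t N * (SS af φ a b N y / √(N:ℝ)) := continuous_const.mul ((SS_cont N).div_const _)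
    have c2 : Continuous fun y => (t N / √(N:ℝ)) * WS af φ a b 72 (nn N) N y := continuous_const.mul (WS_cont 72 _ _)
    refine (chg hcd hw c1 c2).trans ?_
    apply mul_le_mul_of_nonneg_left _ hW0
    have h2 : ∀ y ∈ Set.uIoc c d, ‖|t N * (SS af φ a b N y / √(N:ℝ)) - (t N / √(N:ℝ)) * WS af φ a b 72 (nn N) N y|‖ ≤
        |t N| * (Ci * ((((Nat.log 2 N : ℕ) : ℝ) + 1) ^ 6 / √(N:ℝ))) := by
      intro y _
      rw [Real.norm_eq_abs, abs_abs]
      have e1 : SS af φ a b N y = (∑ n ∈ Finset.range (nn N), XX af φ a b (Mq 72) n y) + WS af φ a b 72 (nn N) N y := by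
        unfold SS WS
        rw [Finset.range_eq_Ico, Finset.range_eq_Ico, Finset.sum_Ico_consecutive _ (Nat.zero_le _) hN]
      have e2 : t N * (SS af φ a b N y / √(N:ℝ)) - (t N / √(N:ℝ)) * WS af φ a b 72 (nn N) N y =
          t N * ((∑ n ∈ Finset.range (nn N), XX af φ a b (Mq 72) n y) / √(N:ℝ)) := by
        rw [e1]; ring
      rw [e2, abs_mul, abs_div, abs_of_pos hs]
      apply mul_le_mul_of_nonneg_left _ (abs_nonneg _)
      rw [mul_div_assoc']
      apply div_le_div_of_nonneg_right _ hs.le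
      refine (hinit a b φ (nn N) y).trans ?_
      apply mul_le_mul_of_nonneg_left _ hCi.le
      calc ((nn N : ℕ) : ℝ) ^ 3 ≤ ((((Nat.log 2 N : ℕ) : ℝ) + 1) ^ 2) ^ 3 :=
            pow_le_pow_left₀ (Nat.cast_nonneg _) (nn_le N) 3
        _ = _ := by rw [← pow_mul]
    have h3 := intervalIntegral.norm_integral_le_of_norm_le_const h2
    rw [abs_of_nonneg hdc] at h3
    refine (Real.le_norm_self _).trans (h3.trans (le_of_eq ?_))
    ring
  have hsum := (l1.add l2).add l3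
  rw [add_zero, zero_add] at hsum
  refine hsum.congr fun N => ?_
  ring

end Pool.Agent.D0H48.Cl
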