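import Mathlib
import Pool.Agent.D0H48.Cl.Clt
import Pool.Agent.R306.GP.IIDa

/-!
The central limit theorem with respect to every absolutely continuous probability measure.
-/

set_option autoImplicit false

open MeasureTheory Filter Topology Set Real ProbabilityTheory
open scoped ENNReal NNReal
open Pool.Agent.H469R2.NK (e norm_e e_add conj_e e_zero)
open Pool.Agent.H383.Gen (U Bd)
open Pool.Agent.Y969.TM
open Pool.Agent.R306.GP

namespace Pool.Agent.D0H48.Cl

variable {a b : ℕ → ℝ} {δ c d : ℝ} {W0 W1 : ℝ} {w : ℝ → ℂ} {af : ℕ → ℝ} {φ : ℝ} {E : ℝ → ℝ}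

/-- polynomial weights -/
lemma Wg_poly (c d : ℝ) (p : Polynomial ℝ) : ∃ W0 W1 : ℝ, Wg c d W0 W1 (fun y => ((p.eval y : ℝ) : ℂ)) := by
  have h1 : ContinuousOn (fun y => p.eval y) (Icc c d) := p.continuous.continuousOn
  have h2 : ContinuousOn (fun y => p.derivative.eval y) (Icc c d) := p.derivative.continuous.continuousOn
  obtain ⟨C1, hC1⟩ := isCompact_Icc.exists_bound_of_continuousOn h1
  obtain ⟨C2, hC2⟩ := isCompact_Icc.exists_bound_of_continuousOn h2
  refine ⟨C1, max C2 0, le_max_right _ _, fun y hy => ?_, ⟨fun y => ((p.derivative.eval y : ℝ) : ℂ), fun y => ?_, ?_, fun y hy => ?_⟩⟩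
  · rw [Complex.norm_real]; exact hC1 y hy
  · exact (p.hasDerivAt y).ofReal_comp
  · exact Complex.continuous_ofReal.comp p.derivative.continuous
  · rw [Complex.norm_real]; exact (hC2 y hy).trans (le_max_left _ _)

/-- from polynomial densities on intervals to all absolutely continuous measures -/
theorem dens {F : ℕ → ℝ → ℂ} {B : ℝ} (hB : ∀ N y, ‖F N y‖ ≤ B) (hF : ∀ N, Continuous (F N))
    (hp : ∀ c d : ℝ, 0 < c → c ≤ d → ∀ p : Polynomial ℝ,
      Tendsto (fun N => ∫ y in c..d, ((p.eval y : ℝ) : ℂ) * F N y) atTop (𝓝 0))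
    (ν : Measure ℝ) [IsProbabilityMeasure ν] (hν : ν ≪ volume) (hν0 : ν (Iic 0) = 0) :
    Tendsto (fun N => ∫ y, F N y ∂ν) atTop (𝓝 0) := by
  have hB0 : 0 ≤ B := (norm_nonneg _).trans (hB 0 0)
  set f : ℝ → ℝ := fun y => (ν.rnDeriv volume y).toReal with hf
  have hfi : Integrable f volume := Measure.integrable_toReal_rnDeriv
  rw [Metric.tendsto_atTop]
  intro ε hε
  -- choice of the interval
  set η : ℝ := ε / (4 * (B + 1)) with hη
  have hη0 : 0 < η := by positivity
  have hBη : B * η ≤ ε / 4 := by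
    rw [hη, mul_div_assoc', div_le_div_iff₀ (by positivity) (by norm_num)]
    nlinarith
  obtain ⟨k, hk⟩ : ∃ k : ℕ, (ν (Icc (1 / ((k:ℝ) + 1)) ((k:ℝ) + 1))ᶜ).toReal < η := by
    have hmono : Monotone fun k : ℕ => Icc (1 / ((k:ℝ) + 1)) ((k:ℝ) + 1) := by
      intro k l hkl
      have : (k:ℝ) ≤ l := by exact_mod_cast hkl
      apply Icc_subset_Icc
      · apply one_div_le_one_div_of_le (by positivity)
        linarith
      · linarith
    have hU : ⋃ k : ℕ, Icc (1 / ((k:ℝ) + 1)) ((k:ℝ) + 1) = Ioi 0 := by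
      ext x
      simp only [mem_iUnion, mem_Icc, mem_Ioi]
      constructor
      · rintro ⟨k, h1, _⟩
        have : 0 < 1 / ((k:ℝ) + 1) := by positivity
        linarith
      · intro hx
        obtain ⟨k, hk⟩ := exists_nat_ge (max x (1 / x))
        refine ⟨k, ?_, ?_⟩
        · have h1 : 1 / x ≤ k := (le_max_right _ _).trans hk
          rw [div_le_iff₀ (by positivity)]
          rw [div_le_iff₀ hx] at h1
          nlinarith
        · have h1 : x ≤ k := (le_max_left _ _).trans hk
          linarith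
    have h1 := tendsto_measure_iUnion_atTop (μ := ν) hmono
    rw [hU] at h1
    have h2 : ν (Ioi 0) = 1 := by
      have h3 : ν (Iic 0)ᶜ = 1 := by
        rw [prob_compl_eq_one_sub measurableSet_Iic, hν0, tsub_zero]
      rwa [compl_Iic] at h3
    rw [h2] at h1
    have h4 : Tendsto (fun k : ℕ => (ν (Icc (1 / ((k:ℝ) + 1)) ((k:ℝ) + 1))ᶜ).toReal) atTop (𝓝 0) := by
      have h5 : ∀ k : ℕ, (ν (Icc (1 / ((k:ℝ) + 1)) ((k:ℝ) + 1))ᶜ).toReal = 1 - (ν (Icc (1 / ((k:ℝ) + 1)) ((k:ℝ) + 1))).toReal := by
        intro k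
        rw [prob_compl_eq_one_sub measurableSet_Icc, ENNReal.toReal_sub_of_le prob_le_one ENNReal.one_ne_top,
          ENNReal.toReal_one]
      simp only [h5]
      have h6 := (ENNReal.tendsto_toReal ENNReal.one_ne_top).comp h1
      have h7 := h6.const_sub 1
      rw [ENNReal.toReal_one, sub_self] at h7
      exact h7
    exact (h4.eventually (gt_mem_nhds hη0)).exists
  set c : ℝ := 1 / ((k:ℝ) + 1) with hc
  set d : ℝ := (k:ℝ) + 1 with hd
  have hc0 : 0 < c := by positivity
  have hcd : c ≤ d := by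
    rw [hc, hd, div_le_iff₀ (by positivity)]
    have : (0:ℝ) ≤ k := Nat.cast_nonneg k
    nlinarith
  have hdc : 0 ≤ d - c := by linarith
  -- continuous and polynomial approximation
  obtain ⟨g, _, hg, hgc, hgi⟩ := hfi.exists_hasCompactSupport_integral_sub_le hη0
  obtain ⟨p, hpg⟩ := exists_polynomial_near_of_continuousOn c d g hgc.continuousOn (η / (d - c + 1)) (by positivity)
  obtain ⟨N0, hN0⟩ := Metric.tendsto_atTop.mp (hp c d hc0 hcd p) (ε / 4) (by positivity)
  refine ⟨N0, fun N hN => ?_⟩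
  have h1 := hN0 N hN
  rw [dist_zero_right] at h1 ⊢
  have hFi : Integrable (F N) ν := by
    refine Integrable.of_bound (hF N).aestronglyMeasurable B (Eventually.of_forall (hB N))
  set A := Icc c d with hA
  have hsplit : ∫ y, F N y ∂ν = (∫ y in A, F N y ∂ν) + ∫ y in Aᶜ, F N y ∂ν :=
    (integral_add_compl measurableSet_Icc hFi).symm
  have hout : ‖∫ y in Aᶜ, F N y ∂ν‖ ≤ B * η := by
    have h2 := norm_setIntegral_le_of_norm_le_const (μ := ν) (s := Aᶜ) (f := F N) (C := B) (measure_lt_top _ _)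
      (fun y _ => hB N y)
    refine h2.trans ?_
    apply mul_le_mul_of_nonneg_left _ hB0
    exact hk.le
  have hin : ∫ y in A, F N y ∂ν = ∫ y in A, f y • F N y := (setIntegral_rnDeriv_smul hν measurableSet_Icc).symm
  have hfFi : IntegrableOn (fun y => f y • F N y) A volume := by
    have h3 : Integrable (fun y => ((f y : ℝ) : ℂ) * F N y) volume :=
      hfi.ofReal.mul_bdd (hF N).aestronglyMeasurable (Eventually.of_forall (hB N))
    have e0 : (fun y => f y • F N y) = fun y => ((f y : ℝ) : ℂ) * F N y := by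
      funext y; rw [Complex.real_smul]
    rw [e0]
    exact h3.integrableOn
  have hpFc : Continuous fun y => ((p.eval y : ℝ) : ℂ) * F N y := (Complex.continuous_ofReal.comp p.continuous).mul (hF N)
  have hpFi : IntegrableOn (fun y => ((p.eval y : ℝ) : ℂ) * F N y) A volume := hpFc.integrableOn_Icc
  have hdiff : ‖(∫ y in A, f y • F N y) - ∫ y in A, ((p.eval y : ℝ) : ℂ) * F N y‖ ≤ B * η + B * η := by
    rw [← integral_sub hfFi hpFi]
    have i1 : IntegrableOn (fun y => ‖f y - g y‖) A volume := (hfi.sub hgi).norm.integrableOn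
    have i2 : IntegrableOn (fun y => |g y - p.eval y|) A volume := by
      exact (hgc.sub p.continuous).abs.integrableOn_Icc
    calc ‖∫ y in A, (f y • F N y - ((p.eval y : ℝ) : ℂ) * F N y)‖
        ≤ ∫ y in A, (B * ‖f y - g y‖ + B * |g y - p.eval y|) := by
          apply norm_integral_le_of_norm_le ((i1.const_mul B).add (i2.const_mul B))
          refine Eventually.of_forall fun y => ?_
          show ‖f y • F N y - ((p.eval y : ℝ) : ℂ) * F N y‖ ≤ B * ‖f y - g y‖ + B * |g y - p.eval y|
          have e1 : f y • F N y - ((p.eval y : ℝ) : ℂ) * F N y = ((f y - p.eval y : ℝ) : ℂ) * F N y := by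
            rw [Complex.real_smul]; push_cast; ring
          rw [e1, norm_mul, Complex.norm_real, Real.norm_eq_abs]
          have e2 : |f y - p.eval y| ≤ ‖f y - g y‖ + |g y - p.eval y| := by
            rw [Real.norm_eq_abs]; exact abs_sub_le _ _ _
          calc |f y - p.eval y| * ‖F N y‖ ≤ (‖f y - g y‖ + |g y - p.eval y|) * B :=
                mul_le_mul e2 (hB N y) (norm_nonneg _) (by positivity)
            _ = _ := by ring
      _ = B * (∫ y in A, ‖f y - g y‖) + B * ∫ y in A, |g y - p.eval y| := by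
          rw [integral_add (i1.const_mul B) (i2.const_mul B), integral_const_mul, integral_const_mul]
      _ ≤ B * η + B * η := by
          have j1 : ∫ y in A, ‖f y - g y‖ ≤ η := by
            refine le_trans ?_ hg
            exact setIntegral_le_integral (hfi.sub hgi).norm (Eventually.of_forall fun _ => norm_nonneg _)
          have j2 : ∫ y in A, |g y - p.eval y| ≤ η := by
            have j3 : ∫ y in A, |g y - p.eval y| ≤ ∫ _y in A, η / (d - c + 1) := by
              apply setIntegral_mono_on i2 (by simp [hA]) measurableSet_Icc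
              intro y hy
              rw [abs_sub_comm]
              exact (hpg y hy).le
            refine j3.trans ?_
            rw [setIntegral_const, smul_eq_mul, hA, Real.volume_real_Icc_of_le hcd, mul_div_assoc', div_le_iff₀ (by positivity)]
            nlinarith
          gcongr
  have hpI : ‖∫ y in A, ((p.eval y : ℝ) : ℂ) * F N y‖ < ε / 4 := by
    rw [hA, integral_Icc_eq_integral_Ioc, ← intervalIntegral.integral_of_le hcd]
    exact h1
  rw [hsplit, hin]
  have hfin : (∫ y in A, f y • F N y) = ((∫ y in A, f y • F N y) - ∫ y in A, ((p.eval y : ℝ) : ℂ) * F N y) +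
      ∫ y in A, ((p.eval y : ℝ) : ℂ) * F N y := by ring
  rw [hfin]
  calc _ ≤ ‖((∫ y in A, f y • F N y) - ∫ y in A, ((p.eval y : ℝ) : ℂ) * F N y) + ∫ y in A, ((p.eval y : ℝ) : ℂ) * F N y‖ +
        ‖∫ y in Aᶜ, F N y ∂ν‖ := norm_add_le _ _
    _ ≤ (‖(∫ y in A, f y • F N y) - ∫ y in A, ((p.eval y : ℝ) : ℂ) * F N y‖ + ‖∫ y in A, ((p.eval y : ℝ) : ℂ) * F N y‖) +
        ‖∫ y in Aᶜ, F N y ∂ν‖ := add_le_add (norm_add_le _ _) le_rfl
    _ < ((B * η + B * η) + ε / 4) + B * η := by linarith
    _ ≤ ε := by linarith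

/-- the characteristic functions under an absolutely continuous measure: model -/
theorem model_ac (hb : Bd af) (h : Sq a b δ) (ν : Measure ℝ) [IsProbabilityMeasure ν] (hν : ν ≪ volume) (hν0 : ν (Iic 0) = 0)
    {t : ℕ → ℝ} {t0 : ℝ} (ht : Tendsto t atTop (𝓝 t0)) :
    Tendsto (fun N : ℕ => ∫ y, Complex.exp (((t N * (SS af φ a b N y / √(N:ℝ)) : ℝ) : ℂ) * Complex.I) ∂ν) atTop
      (𝓝 ((exp (-(t0 ^ 2 * VV af / 2)) : ℝ) : ℂ)) := by
  set L : ℂ := ((exp (-(t0 ^ 2 * VV af / 2)) : ℝ) : ℂ) with hL
  have hLn : ‖L‖ ≤ 1 := by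
    rw [hL, Complex.norm_real, Real.norm_eq_abs, abs_of_pos (Real.exp_pos _), Real.exp_le_one_iff]
    have := VV_nonneg af
    have : 0 ≤ t0 ^ 2 * VV af / 2 := by positivity
    linarith
  have hc1 : ∀ N : ℕ, Continuous fun y => Complex.exp (((t N * (SS af φ a b N y / √(N:ℝ)) : ℝ) : ℂ) * Complex.I) := by
    intro N
    have := SS_cont (af := af) (φ := φ) (a := a) (b := b) N
    fun_prop
  have h1 := dens (F := fun N y => Complex.exp (((t N * (SS af φ a b N y / √(N:ℝ)) : ℝ) : ℂ) * Complex.I) - L) (B := 2)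
    (fun N y => by
      refine (norm_sub_le _ _).trans ?_
      rw [Complex.norm_exp_ofReal_mul_I]
      linarith) (fun N => (hc1 N).sub continuous_const) (fun c d hc hcd p => by
      obtain ⟨W0, W1, hw⟩ := Wg_poly c d p
      have h2 := model_cf (φ := φ) hb h hc hcd hw ht
      have h3 := h2.sub_const (L * ∫ y in c..d, ((p.eval y : ℝ) : ℂ))
      rw [← hL, sub_self] at h3
      refine h3.congr fun N => ?_
      have hpc : Continuous fun y => ((p.eval y : ℝ) : ℂ) := Complex.continuous_ofReal.comp p.continuous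
      have i1 : IntervalIntegrable (fun y => ((p.eval y : ℝ) : ℂ) * Complex.exp (((t N * (SS af φ a b N y / √(N:ℝ)) : ℝ) : ℂ) * Complex.I))
        volume c d := (hpc.mul (hc1 N)).intervalIntegrable _ _
      have i2 : IntervalIntegrable (fun y => L * ((p.eval y : ℝ) : ℂ)) volume c d := (continuous_const.mul hpc).intervalIntegrable _ _
      rw [← intervalIntegral.integral_const_mul, ← intervalIntegral.integral_sub i1 i2]
      apply intervalIntegral.integral_congr
      intro y _
      simp only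
      ring) ν hν hν0
  have h2 := h1.add_const L
  rw [zero_add] at h2
  refine h2.congr fun N => ?_
  have hi : Integrable (fun y => Complex.exp (((t N * (SS af φ a b N y / √(N:ℝ)) : ℝ) : ℂ) * Complex.I)) ν :=
    Integrable.of_bound (hc1 N).aestronglyMeasurable 1 (Eventually.of_forall fun y => by
      rw [Complex.norm_exp_ofReal_mul_I])
  rw [integral_sub hi (integrable_const _)]
  simp

end Pool.Agent.D0H48.Cl
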