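import Mathlib
import Pool.Agent.D0H48.Cl.Meas

/-!
The central limit theorem for the error term along powers.
-/

set_option autoImplicit false

open MeasureTheory Filter Topology Set Real ProbabilityTheory
open scoped ENNReal NNReal
open Pool.Agent.H469R2.NK (e norm_e e_add conj_e e_zero)
open Pool.Agent.H383.Gen (U Bd)
open Pool.Agent.Y969.TM
open Pool.Agent.R306.GP

namespace Pool.Agent.D0H48.Cl

variable {a b : ℕ → ℝ} {δ c d : ℝ} {af : ℕ → ℝ} {φ : ℝ} {E : ℝ → ℝ}

/-- a shift makes general sequences admissible -/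
lemma exists_shift {a b : ℕ → ℝ} {δ : ℝ} (hδ : 0 < δ) (hgap : ∀ n, a n + δ ≤ a (n + 1)) (hb : ∀ n, 0 < b n)
    (hmono : Monotone b) : ∃ n0 : ℕ, Sq (fun n => a (n + n0)) (fun n => b (n + n0)) (min δ 1) := by
  have hlow : ∀ n : ℕ, a 0 + δ * n ≤ a n := by
    intro n
    induction n with
    | zero => simp
    | succ n ih =>
      have := hgap n
      push_cast
      linarith
  obtain ⟨n0, hn0⟩ := exists_nat_ge ((1 - a 0) / δ)
  have hone : ∀ n : ℕ, 1 ≤ a (n + n0) := by
    intro n
    have h1 := hlow (n + n0)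
    rw [div_le_iff₀ hδ] at hn0
    push_cast at h1
    have h2 : (0:ℝ) ≤ n := Nat.cast_nonneg n
    nlinarith
  exact ⟨n0, lt_min hδ one_pos, min_le_right _ _, hone, fun n => by
      have h1 := hgap (n + n0)
      have h2 := min_le_left δ 1
      show a (n + n0) + min δ 1 ≤ a (n + 1 + n0)
      have h3 : n + 1 + n0 = n + n0 + 1 := by ring
      rw [h3]
      linarith, fun n => hb _, fun n m hnm => hmono (by omega)⟩

/-- the sums of the error term -/
noncomputable def TT0 (E : ℝ → ℝ) (a b : ℕ → ℝ) (N : ℕ) (y : ℝ) : ℝ := ∑ n ∈ Finset.range N, E (b n * exp (a n * y))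

lemma TT0_meas (hE : Measurable E) (a b : ℕ → ℝ) (N : ℕ) : Measurable (TT0 E a b N) := by
  unfold TT0
  exact Finset.measurable_fun_sum _ fun n _ => hE.comp (by fun_prop)

/-- comparison with the model variables of the shifted sequence, for almost every `y` -/
lemma ae_cmp (hX : Ctx E af φ) {n0 : ℕ} (h : Sq (fun n => a (n + n0)) (fun n => b (n + n0)) δ) :
    ∀ᵐ y : ℝ, 0 < y → Tendsto (fun N : ℕ => (TT0 E a b (N + n0) y -
      SS af φ (fun n => a (n + n0)) (fun n => b (n + n0)) N y) / √(N:ℝ)) atTop (𝓝 0) := by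
  apply ae_pos
  intro c d hc hcd
  filter_upwards [reduce hX h hc hcd.le (q := 72) (by norm_num)] with y hy
  have h1 : Tendsto (fun N : ℕ => (√(N:ℝ))⁻¹) atTop (𝓝 0) :=
    tendsto_inv_atTop_zero.comp (Real.tendsto_sqrt_atTop.comp tendsto_natCast_atTop_atTop)
  have h2 := (h1.const_mul (TT0 E a b n0 y)).add hy
  rw [mul_zero, add_zero] at h2
  refine h2.congr fun N => ?_
  have e1 : TT0 E a b (N + n0) y = TT0 E a b n0 y +
      ∑ n ∈ Finset.range N, E (pt (fun n => a (n + n0)) (fun n => b (n + n0)) n y) := by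
    unfold TT0
    rw [add_comm N n0, Finset.sum_range_add]
    congr 1
    apply Finset.sum_congr rfl
    intro n _
    unfold pt
    rw [add_comm n0 n]
  rw [e1]
  unfold SS
  ring

/-- the characteristic functions under an absolutely continuous measure -/
theorem cf_E (hX : Ctx E af φ) (hδ : 0 < δ) (hgap : ∀ n, a n + δ ≤ a (n + 1)) (hb : ∀ n, 0 < b n) (hmono : Monotone b)
    (ν : Measure ℝ) [IsProbabilityMeasure ν] (hν : ν ≪ volume) (hν0 : ν (Iic 0) = 0) (t : ℝ) :
    Tendsto (fun N : ℕ => ∫ y, Complex.exp (((t * (TT0 E a b N y / √(N:ℝ)) : ℝ) : ℂ) * Complex.I) ∂ν) atTop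
      (𝓝 ((exp (-(t ^ 2 * VV af / 2)) : ℝ) : ℂ)) := by
  obtain ⟨n0, hSq⟩ := exists_shift hδ hgap hb hmono
  rw [← tendsto_add_atTop_iff_nat n0]
  set a' : ℕ → ℝ := fun n => a (n + n0) with ha'
  set b' : ℕ → ℝ := fun n => b (n + n0) with hb'
  set t' : ℕ → ℝ := fun N => t * (√(N:ℝ) / √((N + n0 : ℕ) : ℝ)) with ht'
  have hratio : Tendsto (fun N : ℕ => √(N:ℝ) / √((N + n0 : ℕ) : ℝ)) atTop (𝓝 1) := by
    have h1 : Tendsto (fun N : ℕ => ((N:ℝ) / ((N + n0 : ℕ) : ℝ))) atTop (𝓝 1) := by
      have hN : Tendsto (fun N : ℕ => ((N + n0 : ℕ) : ℝ)) atTop atTop :=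
        tendsto_natCast_atTop_atTop.comp (tendsto_add_atTop_nat n0)
      have h2 : Tendsto (fun N : ℕ => (n0:ℝ) / ((N + n0 : ℕ) : ℝ)) atTop (𝓝 0) := tendsto_const_nhds.div_atTop hN
      have h4 : Tendsto (fun N : ℕ => 1 - (n0:ℝ) / ((N + n0 : ℕ) : ℝ)) atTop (𝓝 (1 - 0)) := h2.const_sub 1
      rw [sub_zero] at h4
      refine h4.congr' ?_
      filter_upwards [eventually_ge_atTop 1] with N hN1
      have : ((N + n0 : ℕ) : ℝ) ≠ 0 := by
        have : N + n0 ≠ 0 := by omega
        exact_mod_cast this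
      rw [eq_div_iff this, sub_mul, div_mul_cancel₀ _ this]
      push_cast
      ring
    have h2 := (Real.continuous_sqrt.tendsto 1).comp h1
    rw [Real.sqrt_one] at h2
    refine h2.congr fun N => ?_
    simp only [Function.comp_apply]
    rw [Real.sqrt_div (Nat.cast_nonneg N)]
  have ht'l : Tendsto t' atTop (𝓝 t) := by
    have := hratio.const_mul t
    rwa [mul_one] at this
  have hmod := model_ac (φ := φ) hX.bd hSq ν hν hν0 ht'l
  -- the difference tends to zero
  have hdiff : Tendsto (fun N : ℕ => ∫ y, (Complex.exp (((t * (TT0 E a b (N + n0) y / √((N + n0 : ℕ) : ℝ)) : ℝ) : ℂ) * Complex.I) -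
      Complex.exp (((t' N * (SS af φ a' b' N y / √(N:ℝ)) : ℝ) : ℂ) * Complex.I)) ∂ν) atTop (𝓝 0) := by
    have h0 : (0:ℂ) = ∫ _y, (0:ℂ) ∂ν := by simp
    rw [h0]
    apply tendsto_integral_of_dominated_convergence (fun _ => (2:ℝ))
    · intro N
      have m1 := TT0_meas hX.meas a b (N + n0)
      have m2 := (SS_cont (af := af) (φ := φ) (a := a') (b := b') N).measurable
      exact Measurable.aestronglyMeasurable (by fun_prop)
    · exact integrable_const _
    · intro N
      refine Eventually.of_forall fun y => ?_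
      refine (norm_sub_le _ _).trans ?_
      rw [Complex.norm_exp_ofReal_mul_I, Complex.norm_exp_ofReal_mul_I]
      norm_num
    · have hpos : ∀ᵐ y ∂ν, 0 < y := by
        rw [ae_iff]
        refine measure_mono_null ?_ hν0
        intro y hy
        simpa using hy
      filter_upwards [hν.ae_le (ae_cmp hX hSq), hpos] with y hy hy0
      have h1 := hy hy0
      have h2 : Tendsto (fun N : ℕ => |t| * (|(TT0 E a b (N + n0) y - SS af φ a' b' N y) / √(N:ℝ)| * (√(N:ℝ) / √((N + n0 : ℕ) : ℝ))))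
          atTop (𝓝 (|t| * (|(0:ℝ)| * 1))) := (h1.abs.mul hratio).const_mul |t|
      rw [abs_zero, zero_mul, mul_zero] at h2
      rw [tendsto_zero_iff_norm_tendsto_zero]
      refine squeeze_zero' (Eventually.of_forall fun N => norm_nonneg _) ?_ h2
      filter_upwards [eventually_ge_atTop 1] with N hN
      have hNr : (1:ℝ) ≤ N := by exact_mod_cast hN
      have hs : 0 < √(N:ℝ) := Real.sqrt_pos.mpr (by linarith)
      have hs' : 0 < √((N + n0 : ℕ) : ℝ) := Real.sqrt_pos.mpr (by push_cast; positivity)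
      have h3 := exp_lip (t * (TT0 E a b (N + n0) y / √((N + n0 : ℕ) : ℝ))) (t' N * (SS af φ a' b' N y / √(N:ℝ)))
      rw [mul_comm Complex.I, mul_comm Complex.I] at h3
      refine h3.trans (le_of_eq ?_)
      have e1 : t * (TT0 E a b (N + n0) y / √((N + n0 : ℕ) : ℝ)) - t' N * (SS af φ a' b' N y / √(N:ℝ)) =
          t * (((TT0 E a b (N + n0) y - SS af φ a' b' N y) / √(N:ℝ)) * (√(N:ℝ) / √((N + n0 : ℕ) : ℝ))) := by
        rw [ht']
        field_simp
      rw [e1, abs_mul, abs_mul, abs_of_pos (div_pos hs hs')]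
  have hsum := hdiff.add hmod
  rw [zero_add] at hsum
  refine hsum.congr fun N => ?_
  have m1 := TT0_meas hX.meas a b (N + n0)
  have m2 := (SS_cont (af := af) (φ := φ) (a := a') (b := b') N).measurable
  have i1 : Integrable (fun y => Complex.exp (((t * (TT0 E a b (N + n0) y / √((N + n0 : ℕ) : ℝ)) : ℝ) : ℂ) * Complex.I)) ν :=
    Integrable.of_bound (Measurable.aestronglyMeasurable (by fun_prop)) 1 (Eventually.of_forall fun y => by
      rw [Complex.norm_exp_ofReal_mul_I])
  have i2 : Integrable (fun y => Complex.exp (((t' N * (SS af φ a' b' N y / √(N:ℝ)) : ℝ) : ℂ) * Complex.I)) ν :=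
    Integrable.of_bound (Measurable.aestronglyMeasurable (by fun_prop)) 1 (Eventually.of_forall fun y => by
      rw [Complex.norm_exp_ofReal_mul_I])
  rw [integral_sub i1 i2]
  ring

/-- the sums along powers of `α` -/
noncomputable def TA (E : ℝ → ℝ) (a b : ℕ → ℝ) (N : ℕ) (α : ℝ) : ℝ := ∑ n ∈ Finset.range N, E (b n * α ^ (a n))

lemma TA_eq {α : ℝ} (hα : 0 < α) (E : ℝ → ℝ) (a b : ℕ → ℝ) (N : ℕ) : TA E a b N α = TT0 E a b N (Real.log α) := by
  unfold TA TT0
  apply Finset.sum_congr rfl
  intro n _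
  rw [Real.rpow_def_of_pos hα, mul_comm (Real.log α)]

/-- the central limit theorem -/
theorem clt (hX : Ctx E af φ) (hδ : 0 < δ) (hgap : ∀ n, a n + δ ≤ a (n + 1)) (hb : ∀ n, 0 < b n) (hmono : Monotone b)
    (hV : 0 < VV af) (ν : Measure ℝ) [IsProbabilityMeasure ν] (hν : ν ≪ volume) (hν1 : ν (Iic 1) = 0) (x : ℝ) :
    Tendsto (fun N : ℕ => ν {α | TA E a b N α ≤ x * √(N:ℝ)}) atTop (𝓝 (gaussianReal 0 (Real.toNNReal (VV af)) (Iic x))) := by
  -- the image of `ν` under the logarithm
  have hpos : ∀ᵐ α ∂ν, 1 < α := by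
    rw [ae_iff]
    refine measure_mono_null ?_ hν1
    intro y hy
    simpa using hy
  set ν' : Measure ℝ := ν.map Real.log with hν'
  have hpr : IsProbabilityMeasure ν' := Measure.isProbabilityMeasure_map Real.measurable_log.aemeasurable
  have hac : ν' ≪ volume := by
    refine Measure.AbsolutelyContinuous.mk fun s hs hs0 => ?_
    rw [hν', Measure.map_apply Real.measurable_log hs]
    have h1 : ∀ᵐ y : ℝ, 0 < y → Real.log (exp y) ∉ s := by
      have h2 : ∀ᵐ y : ℝ, y ∉ s := measure_eq_zero_iff_ae_notMem.mp hs0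
      filter_upwards [h2] with y hy _
      rwa [Real.log_exp]
    have h3 := ae_exp (p := fun α => Real.log α ∉ s) h1
    have h4 : ∀ᵐ α ∂ν, Real.log α ∉ s := by
      filter_upwards [hν.ae_le h3, hpos] with α h5 h6
      exact h5 h6
    exact measure_eq_zero_iff_ae_notMem.mpr h4
  have h00 : ν' (Iic 0) = 0 := by
    rw [hν', Measure.map_apply Real.measurable_log measurableSet_Iic]
    refine measure_eq_zero_iff_ae_notMem.mpr ?_
    filter_upwards [hpos] with α hα
    intro h1
    have h2 : Real.log α ≤ 0 := h1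
    have := Real.log_pos hα
    linarith
  -- the laws
  have hTm : ∀ N, Measurable fun α => TT0 E a b N (Real.log α) / √(N:ℝ) := fun N =>
    ((TT0_meas hX.meas a b N).comp Real.measurable_log).div_const _
  set μ : ℕ → ProbabilityMeasure ℝ := fun N => ⟨ν.map (fun α => TT0 E a b N (Real.log α) / √(N:ℝ)),
    Measure.isProbabilityMeasure_map (hTm N).aemeasurable⟩ with hμ
  set μ0 : ProbabilityMeasure ℝ := ⟨gaussianReal 0 (Real.toNNReal (VV af)), inferInstance⟩ with hμ0
  have hconv : Tendsto μ atTop (𝓝 μ0) := by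
    rw [ProbabilityMeasure.tendsto_iff_tendsto_charFun]
    intro t
    have h1 := cf_E hX hδ hgap hb hmono ν' hac h00 t
    have h2 : charFun (μ0 : Measure ℝ) t = ((exp (-(t ^ 2 * VV af / 2)) : ℝ) : ℂ) := by
      rw [hμ0]
      simp only [ProbabilityMeasure.coe_mk]
      rw [charFun_gaussianReal]
      push_cast
      congr 1
      rw [Real.coe_toNNReal _ hV.le]
      ring
    rw [h2]
    refine h1.congr fun N => ?_
    rw [charFun_apply_real, hμ]
    simp only [ProbabilityMeasure.coe_mk]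
    rw [integral_map (hTm N).aemeasurable (by fun_prop), hν', integral_map Real.measurable_log.aemeasurable]
    · apply integral_congr_ae
      refine Eventually.of_forall fun α => ?_
      simp only
      push_cast
      rfl
    · have m1 := TT0_meas hX.meas a b N
      exact Measurable.aestronglyMeasurable (by fun_prop)
  have hnull : (μ0 : Measure ℝ) (frontier (Iic x)) = 0 := by
    rw [frontier_Iic, hμ0]
    have hne : Real.toNNReal (VV af) ≠ 0 := by
      rw [Ne, Real.toNNReal_eq_zero]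
      linarith
    have := nullSingletonClass_gaussianReal (μ := 0) hne
    show gaussianReal 0 (Real.toNNReal (VV af)) {x} = 0
    exact measure_singleton x
  have hfin := ProbabilityMeasure.tendsto_measure_of_null_frontier_of_tendsto' hconv hnull
  have hlim : (μ0 : Measure ℝ) (Iic x) = gaussianReal 0 (Real.toNNReal (VV af)) (Iic x) := rfl
  rw [hlim] at hfin
  refine hfin.congr' ?_
  filter_upwards [eventually_ge_atTop 1] with N hN
  have hNr : (1:ℝ) ≤ N := by exact_mod_cast hN
  have hs : 0 < √(N:ℝ) := Real.sqrt_pos.mpr (by linarith)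
  rw [hμ]
  simp only [ProbabilityMeasure.coe_mk]
  rw [Measure.map_apply (hTm N) measurableSet_Iic]
  apply measure_congr
  filter_upwards [hpos] with α hα
  apply propext
  change (TT0 E a b N (Real.log α) / √(N:ℝ) ≤ x) ↔ (TA E a b N α ≤ x * √(N:ℝ))
  rw [TA_eq (by linarith), div_le_iff₀ hs]

end Pool.Agent.D0H48.Cl
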