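import Mathlib
import Pool.Agent.D0H48.Cl.CltE
import Pool.Agent.D0H48.Gr.Inst

/-!
The variances for the circle problem and the divisor problem.
-/

set_option autoImplicit false

open MeasureTheory Filter Topology Set Real
open Pool.Agent.H383.Gen (U Bd)

namespace Pool.Agent.D0H48.Cl

open Pool.Agent.H383.Gauss (rA A)
open Pool.Agent.H383.Circ (ag ag_Bd)

lemma rA_eq (m : ℕ) : rA m = (Nat.card {p : ℤ × ℤ // p.1 ^ 2 + p.2 ^ 2 = (m : ℤ)} : ℝ) := by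
  unfold rA
  rw [← Nat.card_coe_set_eq]
  congr 1
  refine Nat.card_congr ⟨fun z => ⟨(z.1.re, z.1.im), ?_⟩, fun p => ⟨⟨p.1.1, p.1.2⟩, ?_⟩, fun z => ?_, fun p => ?_⟩
  · have h := z.2
    have h2 : z.1.norm = (m : ℤ) := h
    rw [Zsqrtd.norm_def] at h2
    show z.1.re ^ 2 + z.1.im ^ 2 = (m:ℤ)
    linarith
  · show (Zsqrtd.norm (⟨p.1.1, p.1.2⟩ : GaussianInt)) = (m:ℤ)
    rw [Zsqrtd.norm_def]
    have := p.2
    show p.1.1 * p.1.1 - -1 * p.1.2 * p.1.2 = (m:ℤ)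
    linarith
  · rfl
  · rfl

lemma ag_sq (m : ℕ) (hm : 1 ≤ m) : ag m ^ 2 / 2 = rA m ^ 2 / (2 * π ^ 2 * (m:ℝ) ^ (3/2 : ℝ)) := by
  have hm0 : (0:ℝ) < m := by exact_mod_cast hm
  unfold ag
  have h1 : ((√(m:ℝ)) ^ (-(3/2):ℝ)) ^ 2 = ((m:ℝ) ^ (3/2 : ℝ))⁻¹ := by
    rw [Real.sqrt_eq_rpow, ← Real.rpow_mul hm0.le, ← Real.rpow_natCast, ← Real.rpow_mul hm0.le, ← Real.rpow_neg hm0.le]
    norm_num
  rw [mul_pow, h1, div_pow]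
  have hpi := Real.pi_pos
  field_simp

lemma VV_circ : VV ag = ∑' m : ℕ, (Nat.card {p : ℤ × ℤ // p.1 ^ 2 + p.2 ^ 2 = (m : ℤ)} : ℝ) ^ 2 / (2 * π ^ 2 * (m:ℝ) ^ (3/2 : ℝ)) := by
  have h1 : ∀ m : ℕ, ag (m + 1) ^ 2 / 2 = (Nat.card {p : ℤ × ℤ // p.1 ^ 2 + p.2 ^ 2 = ((m + 1 : ℕ) : ℤ)} : ℝ) ^ 2 /
      (2 * π ^ 2 * ((m + 1 : ℕ):ℝ) ^ (3/2 : ℝ)) := by
    intro m
    rw [ag_sq (m + 1) (by omega), rA_eq]
  have hs : Summable fun m : ℕ => (Nat.card {p : ℤ × ℤ // p.1 ^ 2 + p.2 ^ 2 = (m : ℤ)} : ℝ) ^ 2 / (2 * π ^ 2 * (m:ℝ) ^ (3/2 : ℝ)) := by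
    rw [← summable_nat_add_iff 1]
    exact (VV_summable ag_Bd).congr h1
  rw [hs.tsum_eq_zero_add]
  unfold VV
  rw [Nat.cast_zero (R := ℝ), Real.zero_rpow (by norm_num), mul_zero, div_zero, zero_add]
  exact tsum_congr h1

lemma rA_one_pos : 0 < rA 1 := by
  rw [rA_eq]
  have : Finite {p : ℤ × ℤ // p.1 ^ 2 + p.2 ^ 2 = ((1:ℕ) : ℤ)} := by
    have hf : (Set.Icc (-1:ℤ) 1 ×ˢ Set.Icc (-1:ℤ) 1).Finite := (Set.finite_Icc _ _).prod (Set.finite_Icc _ _)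
    refine Set.Finite.to_subtype (s := {p : ℤ × ℤ | p.1 ^ 2 + p.2 ^ 2 = ((1:ℕ) : ℤ)}) (hf.subset ?_)
    intro p hp
    have hp' : p.1 ^ 2 + p.2 ^ 2 = 1 := hp
    simp only [Set.mem_prod, Set.mem_Icc]
    refine ⟨⟨?_, ?_⟩, ?_, ?_⟩ <;> nlinarith [sq_nonneg p.1, sq_nonneg p.2, sq_nonneg (p.1 - 1), sq_nonneg (p.1 + 1),
      sq_nonneg (p.2 - 1), sq_nonneg (p.2 + 1)]
  have hne : Nonempty {p : ℤ × ℤ // p.1 ^ 2 + p.2 ^ 2 = ((1:ℕ) : ℤ)} := ⟨⟨(1, 0), by norm_num⟩⟩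
  exact_mod_cast Nat.card_pos

lemma VV_circ_pos : 0 < VV ag := by
  have h1 : 0 < ag (0 + 1) ^ 2 / 2 := by
    rw [zero_add, ag_sq 1 le_rfl]
    have := rA_one_pos
    positivity
  exact (VV_summable ag_Bd).tsum_pos (fun _ => by positivity) 0 h1

open Pool.Agent.H387R2.Vor (dv)
open Pool.Agent.H383.Div (ad)
open Pool.Agent.H452R2.Win (ad_Bdw2)

lemma ad_sq (m : ℕ) (hm : 1 ≤ m) : ad m ^ 2 / 2 = (m.divisors.card : ℝ) ^ 2 / (4 * π ^ 2 * (m:ℝ) ^ (3/2 : ℝ)) := by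
  have hm0 : (0:ℝ) < m := by exact_mod_cast hm
  unfold ad dv
  have h1 : ((m:ℝ) ^ (-(3/4):ℝ)) ^ 2 = ((m:ℝ) ^ (3/2 : ℝ))⁻¹ := by
    rw [← Real.rpow_natCast, ← Real.rpow_mul hm0.le, ← Real.rpow_neg hm0.le]
    norm_num
  rw [mul_pow, mul_pow, h1, div_pow, mul_pow, Real.sq_sqrt (by norm_num)]
  have hpi := Real.pi_pos
  field_simp
  norm_num

lemma VV_div : VV ad = ∑' m : ℕ, (m.divisors.card : ℝ) ^ 2 / (4 * π ^ 2 * (m:ℝ) ^ (3/2 : ℝ)) := by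
  have h1 : ∀ m : ℕ, ad (m + 1) ^ 2 / 2 = ((m + 1).divisors.card : ℝ) ^ 2 /
      (4 * π ^ 2 * ((m + 1 : ℕ):ℝ) ^ (3/2 : ℝ)) := fun m => ad_sq (m + 1) (by omega)
  have hs : Summable fun m : ℕ => (m.divisors.card : ℝ) ^ 2 / (4 * π ^ 2 * (m:ℝ) ^ (3/2 : ℝ)) := by
    rw [← summable_nat_add_iff 1]
    exact (VV_summable ad_Bdw2.Bd).congr h1
  rw [hs.tsum_eq_zero_add]
  unfold VV
  rw [Nat.cast_zero (R := ℝ), Real.zero_rpow (by norm_num), mul_zero, div_zero, zero_add]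
  exact tsum_congr h1

lemma VV_div_pos : 0 < VV ad := by
  have h1 : 0 < ad (0 + 1) ^ 2 / 2 := by
    rw [zero_add, ad_sq 1 le_rfl]
    simp
    positivity
  exact (VV_summable ad_Bdw2.Bd).tsum_pos (fun _ => by positivity) 0 h1

end Pool.Agent.D0H48.Cl
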